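import Pool.Agent.Work.MP_bf01b2_co.La.StmtsC

/-!
# MP_bf01b2_co, theorem LARGE, item Bad: few bad blocks
-/

set_option autoImplicit false

namespace Pool.Agent.Work.MP_bf01b2_co.La

open Pool.Agent.Work.MP_bf01b2_co.Bd

open Classical

open Pool.Agent.Work.MP_bf01b2_co.Fw (rt lf StRt StBr)

open Pool.Agent.Work.MP_bf01b2_co.Sh (sub strs cor StSub StCrp)

namespace ICBad

/-- The vertices below `u` on the level `j` of its block. -/
def Lv (T : Finset (List Bool)) (u : List Bool) (j : ℕ) (w : List Bool) : Prop :=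
  w ∈ T ∧ w.length = u.length + j ∧ w.take u.length = u

theorem lv_zero {T : Finset (List Bool)} {u : List Bool} (hu : u ∈ T) : ∃! w, Lv T u 0 w := by
  refine ⟨u, ⟨hu, rfl, List.take_length⟩, ?_⟩
  rintro w ⟨_, h2, h3⟩
  rw [add_zero] at h2
  rw [← h3, ← h2, List.take_length]

/-- a vertex on the level `j + 1` is a child of a vertex on the level `j` -/
theorem lv_succ {T : Finset (List Bool)} (hT : Bd.PrefClosed T) {u w : List Bool} {j : ℕ}
    (h : Lv T u (j + 1) w) : ∃ p e, w = p ++ [e] ∧ Lv T u j p := by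
  obtain ⟨h1, h2, h3⟩ := h
  rcases List.eq_nil_or_concat w with rfl | ⟨p, e, rfl⟩
  · simp at h2
  · rw [List.concat_eq_append] at h1 h2 h3 ⊢
    have hl : p.length = u.length + j := by
      rw [List.length_append, List.length_singleton] at h2
      omega
    have hp : p ∈ T := by
      have := hT _ h1 p.length
      rwa [List.take_left] at this
    refine ⟨p, e, rfl, hp, hl, ?_⟩
    rw [List.take_append_of_le_length (by omega)] at h3
    exact h3

theorem lv_child {T : Finset (List Bool)} {u w : List Bool} {j : ℕ} {e : Bool}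
    (h : Lv T u j w) (he : w ++ [e] ∈ T) : Lv T u (j + 1) (w ++ [e]) := by
  obtain ⟨_, h2, h3⟩ := h
  refine ⟨he, ?_, ?_⟩
  · rw [List.length_append, List.length_singleton, h2]
    omega
  · rw [List.take_append_of_le_length (by omega)]
    exact h3

theorem key {H : ℕ} {T : Finset (List Bool)} (hT : Bd.PrefClosed T) {u : List Bool}
    (hu : u ∈ T) (hm : u.length % H = 0) (hb : ¬ Gd H T u) :
    ∃ w ∈ T, (¬ ∃! e, w ++ [e] ∈ T) ∧ w.take u.length = u ∧ u.length ≤ w.length ∧
      w.length < u.length + H := by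
  have h1 : ∃ j, j ≤ H ∧ ¬ ∃! w, Lv T u j w := by
    by_contra h
    push Not at h
    exact hb ⟨hm, fun j hj => h j hj⟩
  have h2 := Nat.find_spec h1
  obtain ⟨j, hj⟩ : ∃ j, j = Nat.find h1 := ⟨_, rfl⟩
  have hmin : ∀ i < j, ∃! w, Lv T u i w := by
    intro i hi
    have h3 := Nat.find_min h1 (hj ▸ hi)
    push Not at h3
    exact h3 (hi.le.trans (hj ▸ h2.1))
  rw [← hj] at h2
  obtain ⟨hjH, hj2⟩ := h2
  cases j with
  | zero => exact absurd (lv_zero hu) hj2
  | succ i =>
    obtain ⟨w, hw, hwu⟩ := hmin i (Nat.lt_succ_self i)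
    refine ⟨w, hw.1, ?_, hw.2.2, by rw [hw.2.1]; omega, by rw [hw.2.1]; omega⟩
    rintro ⟨e, he, heu⟩
    apply hj2
    refine ⟨w ++ [e], lv_child hw he, ?_⟩
    intro w' hw'
    obtain ⟨p, e', rfl, hp⟩ := lv_succ hT hw'
    have e1 : p = w := hwu p hp
    subst e1
    rw [heu e' hw'.1]

theorem rt_eq {H : ℕ} {u w : List Bool} (hm : u.length % H = 0) (h1 : w.take u.length = u)
    (h2 : u.length ≤ w.length) (h3 : w.length < u.length + H) : rt H w = u := by
  have hd : w.length / H * H = u.length := by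
    obtain ⟨m, hm'⟩ := Nat.dvd_of_mod_eq_zero hm
    rw [hm'] at h2 h3 ⊢
    have hH : 0 < H := by
      rcases Nat.eq_zero_or_pos H with h | h
      · subst h
        omega
      · exact h
    have e : w.length / H = m := by
      rw [Nat.div_eq_iff hH]
      constructor
      · rw [mul_comm]
        exact h2
      · have : m * H = H * m := mul_comm _ _
        omega
    rw [e, mul_comm]
  unfold rt
  rw [hd]
  exact h1

end ICBad

/-- Item Bad. -/
theorem pr_Bad (_hRt : StRt) : StBad := by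
  intro H T _ hT
  have hsub : (T.filter fun u => u.length % H = 0 ∧ ¬ Gd H T u) ⊆
      (T.filter fun v => ¬ ∃! e, v ++ [e] ∈ T).image (rt H) := by
    intro u hu
    rw [Finset.mem_filter] at hu
    obtain ⟨w, hw, hw1, hw2, hw3, hw4⟩ := ICBad.key hT hu.1 hu.2.1 hu.2.2
    rw [Finset.mem_image]
    exact ⟨w, Finset.mem_filter.2 ⟨hw, hw1⟩, ICBad.rt_eq hu.2.1 hw2 hw3 hw4⟩
  exact (Finset.card_le_card hsub).trans Finset.card_image_le

end Pool.Agent.Work.MP_bf01b2_co.La
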