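import Pool.Agent.Work.MP_bf01b2_co.La.StmtsC

/-!
# MP_bf01b2_co, theorem LARGE, item Bv: base vertices
-/

set_option autoImplicit false

namespace Pool.Agent.Work.MP_bf01b2_co.La

open Pool.Agent.Work.MP_bf01b2_co.Bd

open Classical

open Pool.Agent.Work.MP_bf01b2_co.Fw (rt lf StRt StBr)

open Pool.Agent.Work.MP_bf01b2_co.Sh (sub strs cor StSub StCrp)

namespace ICBv

theorem ex {H : ℕ} (hH : 0 < H) (hRt : StRt) (hCr : StCr) {U : Finset (List Bool)}
    (hU : Bd.PrefClosed U) {v : List Bool} (hv : v ∈ U) :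
    ∃ w ∈ U, cs H U w = cs H U v ∧ ix H U w = 0 := by
  obtain ⟨-, h2, h3, -, -⟩ := hRt H hH v
  by_cases hg : Gd H U (rt H v)
  · refine ⟨rt H v, hU v hv _, (hCr H U hH v hg).symm, ?_⟩
    unfold ix
    rw [h3, if_pos hg, h2]
  · refine ⟨v, hv, rfl, ?_⟩
    unfold ix
    rw [if_neg hg]

theorem spec {H : ℕ} (hH : 0 < H) (hRt : StRt) (hCr : StCr) {U : Finset (List Bool)}
    (hU : Bd.PrefClosed U) {x : List Bool} (hx : x ∈ cT H U) :
    bv H U x ∈ U ∧ cs H U (bv H U x) = x ∧ ix H U (bv H U x) = 0 := by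
  obtain ⟨v, hv, rfl⟩ := Finset.mem_image.1 hx
  have h := ex hH hRt hCr hU hv
  unfold bv
  rw [dif_pos h]
  exact h.choose_spec

theorem ix_nil (H : ℕ) (U : Finset (List Bool)) : ix H U [] = 0 := by
  unfold ix
  split_ifs <;> simp

end ICBv

open ICBv in
theorem pr_Bv (hRt : StRt) (hCsn : StCsn) (hCr : StCr) (hDec : StDec) (hLev : StLev) : StBv := by
  intro H h T U hC
  have hH : 0 < H := by rw [hC.hH]; omega
  have hU := hC.hU
  obtain ⟨-, -, d3, d4, d5⟩ := hDec H U hH hU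
  have p3 : ∀ v ∈ U, ix H U v = 0 → bv H U (cs H U v) = v := by
    intro v hv hi
    obtain ⟨s1, s2, s3⟩ := spec hH hRt hCr hU (Finset.mem_image_of_mem (cs H U) hv)
    exact d4 _ s1 v hv s2 (s3.trans hi.symm)
  refine ⟨?_, ?_, p3, ?_, ?_, ?_, ?_⟩
  · have h1 := p3 [] hC.hn (ix_nil H U)
    rwa [hCsn.1 H U] at h1
  · intro x hx
    obtain ⟨s1, s2, s3⟩ := spec hH hRt hCr hU hx
    refine ⟨s1, s2, s3, ?_⟩
    have h1 := hLev H h U (bv H U x) hC.hH
    rw [s2, s3, Nat.cast_zero, add_zero] at h1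
    exact h1
  · intro x hx
    obtain ⟨u, hu, rfl⟩ := Finset.mem_image.1 hx
    obtain ⟨hu1, hu2⟩ := Finset.mem_filter.1 hu
    have h1 : rt H u = u := (hRt H hH u).2.2.2.1 hu2.1
    have h2 : ix H U u = 0 := by
      unfold ix
      rw [h1, if_pos hu2, hu2.1]
    refine ⟨Finset.mem_image_of_mem _ hu1, ?_⟩
    rw [p3 u hu1 h2]
    exact hu2
  · intro v hv hn
    by_contra hcon
    exact hn ((d3 v hv).2 hcon)
  · intro x hx hn e he
    obtain ⟨s1, s2, s3⟩ := spec hH hRt hCr hU hx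
    rcases d5 (bv H U x) e he with ⟨-, h1, -⟩ | ⟨h1, h2, -⟩
    · rw [s2] at h1
      exact absurd h1 hn
    · rw [s2] at h1
      refine ⟨?_, ?_⟩
      · rw [← h1]
        exact Finset.mem_image_of_mem _ he
      · rw [← h1]
        exact p3 _ he h2
  · intro x e hx
    obtain ⟨s1, s2, s3⟩ := spec hH hRt hCr hU hx
    rcases List.eq_nil_or_concat (bv H U (x ++ [e])) with h0 | ⟨p, e', h0⟩
    · rw [h0, hCsn.1 H U] at s2
      exact absurd s2.symm (by simp)
    · rw [List.concat_eq_append] at h0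
      rw [h0] at s1 s2 s3
      have hp : p ∈ U := by
        have h1 := hU _ s1 p.length
        rwa [List.take_left] at h1
      rcases d5 p e' s1 with ⟨-, -, h1⟩ | ⟨h1, -, h3⟩
      · rw [s3] at h1
        omega
      · rw [s2] at h1
        obtain ⟨h4, h5⟩ := List.append_inj' h1 rfl
        have h6 : e = e' := by simpa using h5
        subst h6
        rw [← h4] at h3
        exact ⟨p, hp, h0, h4.symm, h3⟩

end Pool.Agent.Work.MP_bf01b2_co.La
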