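import Pool.Agent.Work.MP_bf01b2_co.La.StmtsC
import Pool.Agent.Work.MP_bf01b2_co.Bd.MZ

/-!
# Theorem LARGE, item C.Cnt: the size of the contracted tree
-/

set_option autoImplicit false

namespace Pool.Agent.Work.MP_bf01b2_co.La

open Pool.Agent.Work.MP_bf01b2_co.Bd

open Classical

open Pool.Agent.Work.MP_bf01b2_co.Fw (rt lf StRt StBr)

open Pool.Agent.Work.MP_bf01b2_co.Sh (sub strs cor StSub StCrp)

namespace ICCnt

theorem good_card (H : ℕ) (T : Finset (List Bool)) (hH : 0 < H) :
    (T.filter fun u => Gd H T u).card * H ≤ T.card := by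
  have h1 : (T.filter fun u => Gd H T u) ×ˢ Finset.range H ⊆
      T.image fun w => (rt H w, w.length % H) := by
    rintro ⟨u, j⟩ hp
    obtain ⟨hu, hj⟩ := Finset.mem_product.1 hp
    have hg : Gd H T u := (Finset.mem_filter.1 hu).2
    have hj' : j < H := Finset.mem_range.1 hj
    obtain ⟨w, ⟨hwT, hwl, hwt⟩, -⟩ := hg.2 j hj'.le
    refine Finset.mem_image.2 ⟨w, hwT, ?_⟩
    have q1 := Nat.div_add_mod u.length H
    rw [hg.1, add_zero] at q1
    have q2 : w.length = H * (u.length / H) + j := by rw [hwl]; omega
    have q3 : w.length / H = u.length / H := by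
      rw [q2, Nat.mul_add_div hH, Nat.div_eq_of_lt hj', add_zero]
    have q4 : w.length % H = j := by
      rw [q2, Nat.mul_add_mod, Nat.mod_eq_of_lt hj']
    have q5 : rt H w = u := by
      unfold rt
      rw [q3, mul_comm, q1]
      exact hwt
    rw [q4, q5]
  have h2 := (Finset.card_le_card h1).trans Finset.card_image_le
  rwa [Finset.card_product, Finset.card_range] at h2

theorem bad_vertices (H : ℕ) (T : Finset (List Bool)) (hH : 0 < H) (hT : Bd.PrefClosed T)
    (hRt : StRt) :
    (T.filter fun v => ¬ Gd H T (rt H v)).card ≤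
      (T.filter fun u => u.length % H = 0 ∧ ¬ Gd H T u).card * 2 ^ H := by
  have h1 : (T.filter fun v => ¬ Gd H T (rt H v)).card ≤
      ((T.filter fun u => u.length % H = 0 ∧ ¬ Gd H T u) ×ˢ mz_short H).card := by
    refine Finset.card_le_card_of_injOn (fun v => (rt H v, v.drop (v.length / H * H))) ?_ ?_
    · intro v hv
      obtain ⟨hvT, hvG⟩ := Finset.mem_filter.1 (Finset.mem_coe.1 hv)
      refine Finset.mem_coe.2 (Finset.mem_product.2 ⟨Finset.mem_filter.2 ⟨hT v hvT _,
        (hRt H hH v).2.1, hvG⟩, mz_mem_short _ _ ?_⟩)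
      have q1 := Nat.div_add_mod' v.length H
      have q2 := Nat.mod_lt v.length hH
      change (v.drop (v.length / H * H)).length < H
      rw [List.length_drop]
      omega
    · intro v _ v' _ h
      have h2 : rt H v = rt H v' := congrArg Prod.fst h
      have h3 : v.drop (v.length / H * H) = v'.drop (v'.length / H * H) := congrArg Prod.snd h
      rw [← List.take_append_drop (v.length / H * H) v,
        ← List.take_append_drop (v'.length / H * H) v', h3]
      congr 1
  rw [Finset.card_product] at h1
  have h2 := mz_card_short H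
  exact h1.trans (Nat.mul_le_mul_left _ (by omega))

theorem not_one_child (T : Finset (List Bool)) (hT : Bd.PrefClosed T) (hBr : StBr) :
    (T.filter fun v => ¬ ∃! e, v ++ [e] ∈ T).card ≤ 2 * (lf T).card := by
  have h1 : (T.filter fun v => ¬ ∃! e, v ++ [e] ∈ T) ⊆
      lf T ∪ T.filter fun v => v ++ [true] ∈ T ∧ v ++ [false] ∈ T := by
    intro v hv
    obtain ⟨hvT, hv1⟩ := Finset.mem_filter.1 hv
    rw [Finset.mem_union]
    by_cases ht : v ++ [true] ∈ T
    · by_cases hf : v ++ [false] ∈ T
      · exact Or.inr (Finset.mem_filter.2 ⟨hvT, ht, hf⟩)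
      · exfalso
        refine hv1 ⟨true, ht, fun e he => ?_⟩
        cases e with
        | true => rfl
        | false => exact absurd he hf
    · by_cases hf : v ++ [false] ∈ T
      · exfalso
        refine hv1 ⟨false, hf, fun e he => ?_⟩
        cases e with
        | true => exact absurd he ht
        | false => rfl
      · left
        refine Finset.mem_filter.2 ⟨hvT, fun e => ?_⟩
        cases e with
        | true => exact ht
        | false => exact hf
  have h2 := (Finset.card_le_card h1).trans (Finset.card_union_le _ _)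
  have h3 := hBr T hT
  omega

end ICCnt

open ICCnt in
theorem pr_Cnt (hRt : StRt) (hCr : StCr) (hBr : StBr) (hBad : StBad) : StCnt := by
  intro H T hH hT
  have e1 : (cD H T).card ≤ (T.filter fun u => Gd H T u).card := Finset.card_image_le
  refine ⟨(Nat.mul_le_mul_right H e1).trans (good_card H T hH), ?_⟩
  have h1 : cT H T ⊆ cD H T ∪ (T.filter fun v => ¬ Gd H T (rt H v)).image (cs H T) := by
    intro y hy
    obtain ⟨v, hv, rfl⟩ := Finset.mem_image.1 hy
    rw [Finset.mem_union]
    by_cases hg : Gd H T (rt H v)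
    · left
      rw [hCr H T hH v hg]
      exact Finset.mem_image.2 ⟨rt H v, Finset.mem_filter.2 ⟨hT v hv _, hg⟩, rfl⟩
    · exact Or.inr (Finset.mem_image.2 ⟨v, Finset.mem_filter.2 ⟨hv, hg⟩, rfl⟩)
  have h2 := (Finset.card_le_card h1).trans (Finset.card_union_le _ _)
  have h3 : ((T.filter fun v => ¬ Gd H T (rt H v)).image (cs H T)).card ≤
      (T.filter fun v => ¬ Gd H T (rt H v)).card := Finset.card_image_le
  have h4 := bad_vertices H T hH hT hRt
  have h5 := (hBad H T hH hT).trans (not_one_child T hT hBr)
  calc (cT H T).card ≤ (cD H T).card + (T.filter fun v => ¬ Gd H T (rt H v)).card :=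
        h2.trans (Nat.add_le_add_left h3 _)
    _ ≤ (cD H T).card +
        (T.filter fun u => u.length % H = 0 ∧ ¬ Gd H T u).card * 2 ^ H :=
        Nat.add_le_add_left h4 _
    _ ≤ (cD H T).card + 2 * (lf T).card * 2 ^ H :=
        Nat.add_le_add_left (Nat.mul_le_mul_right _ h5) _
    _ = (cD H T).card + 2 ^ H * (2 * (lf T).card) := by ring

end Pool.Agent.Work.MP_bf01b2_co.La
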