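import Pool.Agent.Work.MP_bf01b2_co.La.StmtsC

set_option autoImplicit false

namespace Pool.Agent.Work.MP_bf01b2_co.La

open Pool.Agent.Work.MP_bf01b2_co.Bd

open Classical

open Pool.Agent.Work.MP_bf01b2_co.Fw (rt lf StRt StBr)

open Pool.Agent.Work.MP_bf01b2_co.Sh (sub strs cor StSub StCrp)

namespace ICCoA

theorem codeLe (H h : ℕ) (U : Finset (List Bool)) (v x : List Bool)
    (hx : cs H U (v.take (hU U v)) = x) (hi : ix H U (v.take (hU U v)) ≤ h) :
    code H h U v = (match v.drop (bv H U x).length with
      | [] => Cd.cor x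
      | a :: u => .pc (.c a) x false u) := by
  subst hx
  unfold code
  simp only [hi, if_true]
  generalize List.drop (bv H U (cs H U (List.take (hU U v) v))).length v = q
  cases q <;> rfl

end ICCoA

open ICCoA in
theorem pr_CoA (hBv : StBv) (hZp : StZp) (hHU : StHU) : StCoA := by
  intro H h T U hc
  obtain ⟨b1, b2, b3, b4, b5, b6, b7⟩ := hBv H h T U hc
  obtain ⟨u1, u2, u3, u4, u5⟩ := hHU U hc.hU hc.hn
  refine ⟨?_, ?_, ?_⟩
  · intro x hx
    obtain ⟨c1, c2, c3, c4⟩ := b2 x hx
    have e1 : (bv H U x).take (hU U (bv H U x)) = bv H U x := by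
      rw [u3 _ c1, List.take_length]
    rw [codeLe H h U (bv H U x) x (by rw [e1, c2]) (by rw [e1, c3]; exact Nat.zero_le h),
      List.drop_length]
  · intro x hx _ a u ha
    obtain ⟨c1, c2, c3, c4⟩ := b2 x hx
    have e1 : (bv H U x ++ a :: u).take (hU U (bv H U x ++ a :: u)) = bv H U x := by
      rw [u4 _ a u c1 ha, List.take_left]
    rw [codeLe H h U (bv H U x ++ a :: u) x (by rw [e1, c2])
      (by rw [e1, c3]; exact Nat.zero_le h), List.drop_left]
  · intro x hx a u hne
    have hxT : x ∈ cT H U := (b4 x hx).1
    obtain ⟨c1, c2, c3, c4⟩ := b2 x hxT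
    obtain ⟨z1, z2, z3, z4, z5, z6, z7, z8⟩ := hZp H h T U hc x hx
    set b := bv H U x with hb
    set v := b ++ a :: u with hv
    have hvl : b.length ≤ v.length := by
      rw [hv, List.length_append]; omega
    have hvb : v.take b.length = b := by rw [hv, List.take_left]
    have hm1 : b.length ≤ hU U v := u2 v b.length hvl (by rw [hvb]; exact c1)
    obtain ⟨p1, p2⟩ := u1 v
    have hHh := hc.hH
    have hi : hU U v ≤ b.length + h := by
      by_contra hcon
      have hlt : b.length + (h + 1) ≤ hU U v := by omega
      have hmem : v.take (b.length + (h + 1)) ∈ U := by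
        have e1 : v.take (b.length + (h + 1)) = (v.take (hU U v)).take (b.length + (h + 1)) := by
          rw [List.take_take, min_eq_left hlt]
        rw [e1]
        exact hc.hU _ p1 _
      have hlen : (v.take (b.length + (h + 1))).length = b.length + (h + 1) := by
        rw [List.length_take, min_eq_left (hlt.trans p2)]
      have htk : (v.take (b.length + (h + 1))).take b.length = b := by
        rw [List.take_take, min_eq_left (by omega), hvb]
      have e2 := z2 (h + 1) (by omega) _ hmem hlen htk
      have e3 := (z1 (h + 1) (by omega)).2.1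
      apply hne
      rw [e3, e2]
    have hp : v.take (hU U v) = zp H U x (hU U v - b.length) := by
      apply z2 _ (by omega) _ p1
      · rw [List.length_take, min_eq_left p2]; omega
      · rw [List.take_take, min_eq_left hm1, hvb]
    obtain ⟨q1, q2⟩ := z6 (hU U v - b.length) (by omega)
    rw [codeLe H h U v x (by rw [hp, q1]) (by rw [hp, q2]; omega), ← hb, hv, List.drop_left]

end Pool.Agent.Work.MP_bf01b2_co.La
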