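import Pool.Agent.Work.MP_bf01b2_co.La.StmtsC

set_option autoImplicit false

/-!
# Theorem LARGE, item CoB: codes, second part
-/

namespace Pool.Agent.Work.MP_bf01b2_co.La

open Pool.Agent.Work.MP_bf01b2_co.Bd

open Classical

open Pool.Agent.Work.MP_bf01b2_co.Fw (rt lf StRt StBr)

open Pool.Agent.Work.MP_bf01b2_co.Sh (sub strs cor StSub StCrp)

namespace ICCoB

theorem getD0 (b v : List Bool) (a : Bool) (h : v.take (b.length + 1) = b ++ [a]) :
    (v.drop b.length).getD 0 false = a := by
  rw [← List.take_append_drop (b.length + 1) v, h]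
  simp

theorem code_eq (H h : ℕ) (U : Finset (List Bool)) (v p x : List Bool) (i j : ℕ) (a : Bool)
    (hp : v.take (hU U v) = p) (hcs : cs H U p = x) (hix : ix H U p = i) (hi : h < i)
    (hi2 : i ≤ 2 * h) (hj : 2 * h - i = j)
    (ha : (v.drop (bv H U x).length).getD 0 false = a) :
    code H h U v = .pc (.c a) x true ((ze H h U x).take j ++
      (if v.drop p.length = [] then [] else lc H h U x j :: (v.drop p.length).tail)) := by
  subst hj
  unfold code
  simp only [hp, hcs, hix]
  rw [if_neg (by omega), if_pos hi2, ha]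

end ICCoB

open ICCoB

theorem pr_CoB (hZp : StZp) (hHU : StHU) : StCoB := by
  intro H h T U ctx x hx a ha j hj
  obtain ⟨z1, -, -, z4, z5, z6, -, -⟩ := hZp H h T U ctx x hx
  obtain ⟨-, -, u3, u4, -⟩ := hHU U ctx.hU ctx.hn
  have hH : H = 2 * h + 5 := ctx.hH
  obtain ⟨i, hi⟩ : ∃ i, i = 2 * h - j := ⟨_, rfl⟩
  have hi0 : 2 * h + 1 - j = i + 1 := by omega
  rw [← hi, hi0]
  obtain ⟨hU1, hlen, -⟩ := z1 i (by omega)
  obtain ⟨hcs, hix⟩ := z6 i (by omega)
  have htk : (zp H U x i).take ((bv H U x).length + 1) = bv H U x ++ [a] := by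
    rw [z4 i (by omega) 1 (by omega), ha]
  constructor
  · have hp : (zp H U x i).take (hU U (zp H U x i)) = zp H U x i := by
      rw [u3 _ hU1, List.take_length]
    rw [code_eq H h U (zp H U x i) (zp H U x i) x i j a hp hcs hix (by omega) (by omega)
      (by omega) (getD0 _ _ _ htk)]
    rw [List.drop_length, if_pos rfl, List.append_nil]
  · intro w
    obtain ⟨e, -, hsb, hnU⟩ := z5 i (by omega)
    have hv : sb (zp H U x (i + 1)) ++ w = zp H U x i ++ (!e) :: w := by
      rw [hsb]
      simp
    rw [hv]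
    have hp : (zp H U x i ++ (!e) :: w).take (hU U (zp H U x i ++ (!e) :: w)) = zp H U x i := by
      rw [u4 _ _ _ hU1 hnU, List.take_left']
      rfl
    have htk2 : (zp H U x i ++ (!e) :: w).take ((bv H U x).length + 1) = bv H U x ++ [a] := by
      rw [List.take_append_of_le_length (by omega), htk]
    rw [code_eq H h U _ (zp H U x i) x i j a hp hcs hix (by omega) (by omega) (by omega)
      (getD0 _ _ _ htk2)]
    have hd : (zp H U x i ++ (!e) :: w).drop (zp H U x i).length = (!e) :: w := by
      rw [List.drop_left']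
      rfl
    rw [hd, if_neg (List.cons_ne_nil _ _), List.tail_cons]

end Pool.Agent.Work.MP_bf01b2_co.La
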