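import Pool.Agent.Work.MP_bf01b2_co.La.StmtsC

/-!
# MP_bf01b2_co, theorem LARGE, item CoC: the codes of the last part of the path
-/

set_option autoImplicit false

namespace Pool.Agent.Work.MP_bf01b2_co.La

open Pool.Agent.Work.MP_bf01b2_co.Bd

open Classical

open Pool.Agent.Work.MP_bf01b2_co.Fw (rt lf StRt StBr)

open Pool.Agent.Work.MP_bf01b2_co.Sh (sub strs cor StSub StCrp)

namespace ICCoC

/-- the last part of `code`, the vertex in `U` -/
theorem code_in (H h : ℕ) (U : Finset (List Bool)) (v x : List Bool) (i : ℕ)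
    (h1 : hU U v = v.length) (h2 : cs H U v = x) (h3 : ix H U v = i) (h4 : ¬ i ≤ 2 * h) :
    code H h U v = if i = 2 * h + 1 then .e 0 x else if i = 2 * h + 2 then .e 1 x else
      if i = 2 * h + 3 then .e 2 x else .en (cs H U (zp H U x H)) := by
  have h5 : ¬ i ≤ h := by omega
  unfold code
  simp only [h1, List.take_length, h2, h3, List.drop_length, if_neg h5, if_neg h4, if_true]

/-- the last part of `code`, the vertex outside of `U` -/
theorem code_out (H h : ℕ) (U : Finset (List Bool)) (p w x : List Bool) (a : Bool) (i : ℕ)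
    (h1 : hU U (p ++ a :: w) = p.length) (h2 : cs H U p = x) (h3 : ix H U p = i)
    (h4 : ¬ i ≤ 2 * h) :
    code H h U (p ++ a :: w) = if i = 2 * h + 1 then .pc (.e 0) x false w else
      if i = 2 * h + 2 then .pc (.e 1) x false w else
      if i = 2 * h + 3 then .pc (.e 2) x false w else
      .pc .en (cs H U (zp H U x H)) false w := by
  have h5 : ¬ i ≤ h := by omega
  have h6 : (a :: w : List Bool) ≠ [] := by simp
  unfold code
  simp only [h1, List.take_left, List.drop_left, h2, h3, if_neg h5, if_neg h4, if_neg h6,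
    List.tail_cons]

end ICCoC

/-- Item CoC. -/
theorem pr_CoC (hZp : StZp) (hHU : StHU) : StCoC := by
  intro H h T U hC x hx
  obtain ⟨z1, z2, z3, z4, z5, z6, z7, e0, z8, z9, z10, z11, z12⟩ := hZp H h T U hC x hx
  obtain ⟨u1, u2, u3, u4, u5⟩ := hHU U hC.hU hC.hn
  have hH := hC.hH
  have key1 : ∀ i, 2 * h < i → i < H → code H h U (zp H U x i) =
      if i = 2 * h + 1 then .e 0 x else if i = 2 * h + 2 then .e 1 x else
      if i = 2 * h + 3 then .e 2 x else .en (cs H U (zp H U x H)) := by
    intro i hi hi2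
    exact ICCoC.code_in H h U _ x i (u3 _ (z1 i hi2.le).1) (z6 i hi2).1 (z6 i hi2).2 (by omega)
  have key2 : ∀ i, 2 * h < i → i < H → ∀ w, code H h U (sb (zp H U x (i + 1)) ++ w) =
      if i = 2 * h + 1 then .pc (.e 0) x false w else
      if i = 2 * h + 2 then .pc (.e 1) x false w else
      if i = 2 * h + 3 then .pc (.e 2) x false w else
      .pc .en (cs H U (zp H U x H)) false w := by
    intro i hi hi2 w
    obtain ⟨e, -, k2, k3⟩ := z5 i hi2
    have k4 : sb (zp H U x (i + 1)) ++ w = zp H U x i ++ (!e) :: w := by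
      rw [k2]; simp
    rw [k4]
    exact ICCoC.code_out H h U _ w x (!e) i (u4 _ _ w (z1 i hi2.le).1 k3) (z6 i hi2).1
      (z6 i hi2).2 (by omega)
  refine ⟨?_, ?_, ?_⟩
  · intro k
    have hk := k.2
    rw [key1 _ (by omega) (by omega)]
    fin_cases k <;> simp
  · intro k w
    have hk := k.2
    have e1 : 2 * h + 2 + k.1 = (2 * h + 1 + k.1) + 1 := by omega
    rw [e1, key2 _ (by omega) (by omega)]
    fin_cases k <;> simp
  · intro e he
    obtain rfl : e = e0 := z12 e he
    have e2 : H - 1 = 2 * h + 4 := by omega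
    refine ⟨?_, fun w => ?_⟩
    · rw [z9, z11, List.dropLast_concat, e2, key1 _ (by omega) (by omega), z10]
      simp
    · have e3 : H = (2 * h + 4) + 1 := by omega
      have e4 : zp H U x H = zp H U x ((2 * h + 4) + 1) := by rw [← e3]
      rw [z9, e4, key2 _ (by omega) (by omega), z10]
      simp

end Pool.Agent.Work.MP_bf01b2_co.La
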