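import Pool.Agent.Work.MP_bf01b2_co.La.StmtsC

/-!
# MP_bf01b2_co, theorem LARGE, the tree side, item Cwt: the vertices of the pieces are counted once

The pairs (piece, address) are mapped to the vertices of the tree; this map is injective because the
code of a vertex determines the piece and the address.
-/

set_option autoImplicit false

namespace Pool.Agent.Work.MP_bf01b2_co.La

open Pool.Agent.Work.MP_bf01b2_co.Bd

open Classical

open Pool.Agent.Work.MP_bf01b2_co.Fw (rt lf StRt StBr)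

open Pool.Agent.Work.MP_bf01b2_co.Sh (sub strs cor StSub StCrp)

theorem pr_Cwt (hInv : StInv) : StCwt := by
  intro H h T U hC d
  have e : ∑ g : Tag, ∑ x ∈ cT H U, ∑ s : Bool, ((ts H h T U g x s).filter fun u =>
      (x.length : ZMod 2) + 1 + kp g + sd s + (u.length : ZMod 2) = d).card =
      (((Finset.univ : Finset Tag) ×ˢ (cT H U ×ˢ (Finset.univ : Finset Bool))).sigma
        (fun q => (ts H h T U q.1 q.2.1 q.2.2).filter fun u =>
      (q.2.1.length : ZMod 2) + 1 + kp q.1 + sd q.2.2 + (u.length : ZMod 2) = d)).card := by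
    rw [Finset.card_sigma, Finset.sum_product]
    refine Finset.sum_congr rfl fun g _ => ?_
    rw [Finset.sum_product]
  rw [e]
  refine Finset.card_le_card_of_injOn
    (fun q => kap H h U (.pc q.1.1 q.1.2.1 q.1.2.2 q.2)) ?_ ?_
  · intro q hq
    rw [Finset.mem_coe, Finset.mem_sigma, Finset.mem_filter] at hq
    obtain ⟨_, h1, h2⟩ := hq
    obtain ⟨h3, _, h5⟩ := hInv H h T U hC (.pc q.1.1 q.1.2.1 q.1.2.2 q.2) h1
    rw [Finset.mem_coe, Finset.mem_filter]
    refine ⟨h3, ?_⟩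
    rw [h5]
    exact h2
  · intro q hq r hr hqr
    rw [Finset.mem_coe, Finset.mem_sigma, Finset.mem_filter] at hq hr
    obtain ⟨_, h1, _⟩ := hq
    obtain ⟨_, k1, _⟩ := hr
    obtain ⟨_, h4, _⟩ := hInv H h T U hC (.pc q.1.1 q.1.2.1 q.1.2.2 q.2) h1
    obtain ⟨_, k4, _⟩ := hInv H h T U hC (.pc r.1.1 r.1.2.1 r.1.2.2 r.2) k1
    have h6 : Cd.pc q.1.1 q.1.2.1 q.1.2.2 q.2 = Cd.pc r.1.1 r.1.2.1 r.1.2.2 r.2 := by
      rw [← h4, ← k4]
      exact congrArg (code H h U) hqr
    obtain ⟨⟨g, x, s⟩, u⟩ := q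
    obtain ⟨⟨g', x', s'⟩, u'⟩ := r
    injection h6 with a1 a2 a3 a4
    dsimp only at a1 a2 a3 a4
    subst a1 a2 a3 a4
    rfl

end Pool.Agent.Work.MP_bf01b2_co.La
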