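import Pool.Agent.Work.MP_bf01b2_co.La.StmtsC

/-!
# MP_bf01b2_co, theorem LARGE, item Exh: every vertex has one of the nine forms
-/

set_option autoImplicit false

namespace Pool.Agent.Work.MP_bf01b2_co.La

open Pool.Agent.Work.MP_bf01b2_co.Bd

open Classical

open Pool.Agent.Work.MP_bf01b2_co.Fw (rt lf StRt StBr)

open Pool.Agent.Work.MP_bf01b2_co.Sh (sub strs cor StSub StCrp)

namespace ICExh

/-- The nine forms. -/
def Q (H h : ℕ) (U : Finset (List Bool)) (v : List Bool) : Prop :=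
  (∃ x ∈ cT H U, v = bv H U x) ∨
  (∃ x ∈ cT H U, x ∉ cD H U ∧ ∃ a u, bv H U x ++ [a] ∉ U ∧ v = bv H U x ++ a :: u) ∨
  (∃ x ∈ cD H U, ∃ a u, v = bv H U x ++ a :: u ∧
    v.take (zp H U x (h + 1)).length ≠ zp H U x (h + 1)) ∨
  (∃ x ∈ cD H U, ∃ j < h, v = zp H U x (2 * h - j)) ∨
  (∃ x ∈ cD H U, ∃ j < h, ∃ w, v = sb (zp H U x (2 * h + 1 - j)) ++ w) ∨
  (∃ x ∈ cD H U, ∃ k : Fin 3, v = zp H U x (2 * h + 1 + k.1)) ∨
  (∃ x ∈ cD H U, ∃ (k : Fin 3) (w : List Bool), v = sb (zp H U x (2 * h + 2 + k.1)) ++ w) ∨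
  (∃ x ∈ cD H U, ∃ e, x ++ [e] ∈ cT H U ∧ v = (bv H U (x ++ [e])).dropLast) ∨
  ∃ x ∈ cD H U, ∃ e, x ++ [e] ∈ cT H U ∧ ∃ w, v = sb (bv H U (x ++ [e])) ++ w

theorem split (b v : List Bool) (ht : v.take b.length = b) (hl : b.length < v.length) :
    ∃ a u, v = b ++ a :: u := by
  have h1 : v.drop b.length ≠ [] := by
    intro h0
    have := congrArg List.length h0
    rw [List.length_drop, List.length_nil] at this
    omega
  obtain ⟨a, u, hau⟩ := List.exists_cons_of_ne_nil h1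
  refine ⟨a, u, ?_⟩
  calc v = v.take b.length ++ v.drop b.length := (List.take_append_drop _ _).symm
    _ = b ++ a :: u := by rw [ht, hau]

theorem caseU (hBv : StBv) (hZp : StZp) (H h : ℕ) (T U : Finset (List Bool)) (hC : Ctx H h T U)
    (x : List Bool) (hx : x ∈ cD H U) (i : ℕ) (hi : i < H) : Q H h U (zp H U x i) := by
  obtain ⟨b1, b2, b3, b4, b5, b6, b7⟩ := hBv H h T U hC
  obtain ⟨z1, z2, z3, z4, z5, z6, z7, z8⟩ := hZp H h T U hC x hx
  have hH := hC.hH
  have hh := hC.hh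
  obtain ⟨_, hlen, htk⟩ := z1 i hi.le
  rcases Nat.eq_zero_or_pos i with h0 | h0
  · refine Or.inl ⟨x, (b4 x hx).1, ?_⟩
    rw [h0, z3]
  by_cases h1 : i ≤ h
  · refine Or.inr (Or.inr (Or.inl ⟨x, hx, ?_⟩))
    obtain ⟨a, u, hau⟩ := split (bv H U x) (zp H U x i) htk (by omega)
    refine ⟨a, u, hau, ?_⟩
    intro hc
    have hc' := congrArg List.length hc
    rw [List.length_take, (z1 (h + 1) (by omega)).2.1, hlen] at hc'
    omega
  by_cases h2 : i ≤ 2 * h
  · refine Or.inr (Or.inr (Or.inr (Or.inl ⟨x, hx, 2 * h - i, by omega, ?_⟩)))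
    congr 1
    omega
  by_cases h3 : i ≤ 2 * h + 3
  · refine Or.inr (Or.inr (Or.inr (Or.inr (Or.inr (Or.inl ⟨x, hx,
      ⟨i - (2 * h + 1), by omega⟩, ?_⟩)))))
    congr 1
    simp only
    omega
  · obtain ⟨e, he, hbe, _, hz, _⟩ := z8
    refine Or.inr (Or.inr (Or.inr (Or.inr (Or.inr (Or.inr (Or.inr (Or.inl
      ⟨x, hx, e, he, ?_⟩)))))))
    rw [hbe, hz, List.dropLast_concat]
    congr 1
    omega

theorem caseN (hBv : StBv) (hZp : StZp) (hHU : StHU) (H h : ℕ) (T U : Finset (List Bool))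
    (hC : Ctx H h T U) (x : List Bool) (hx : x ∈ cD H U) (i : ℕ) (hi : i < H) (a : Bool)
    (r : List Bool) (ha : zp H U x i ++ [a] ∉ U) : Q H h U (zp H U x i ++ a :: r) := by
  obtain ⟨z1, z2, z3, z4, z5, z6, z7, z8⟩ := hZp H h T U hC x hx
  obtain ⟨u1, u2, u3, u4, u5⟩ := hHU U hC.hU hC.hn
  have hH := hC.hH
  have hh := hC.hh
  obtain ⟨hzU, hlen, htk⟩ := z1 i hi.le
  obtain ⟨e, he, hse, _⟩ := z5 i hi
  have hae : a = !e := by
    have h1 : a ≠ e := by
      rintro rfl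
      exact ha (he ▸ (z1 (i + 1) (by omega)).1)
    clear he hse
    cases a <;> cases e
    · exact absurd rfl h1
    · rfl
    · rfl
    · exact absurd rfl h1
  have hvs : zp H U x i ++ a :: r = sb (zp H U x (i + 1)) ++ r := by
    rw [hse, hae, List.append_assoc, List.singleton_append]
  by_cases h1 : i ≤ h
  · refine Or.inr (Or.inr (Or.inl ⟨x, hx, ?_⟩))
    have htk2 : (zp H U x i ++ a :: r).take (bv H U x).length = bv H U x := by
      rw [List.take_append_of_le_length (by omega), htk]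
    obtain ⟨a', u, hau⟩ := split (bv H U x) (zp H U x i ++ a :: r) htk2 (by
      rw [List.length_append, List.length_cons]; omega)
    refine ⟨a', u, hau, ?_⟩
    intro hc
    have hl2 := (z1 (h + 1) (by omega)).2.1
    have hc' := congrArg List.length hc
    rw [List.length_take, hl2] at hc'
    have h3 := u2 (zp H U x i ++ a :: r) (zp H U x (h + 1)).length (by rw [hl2]; omega)
      (by rw [hc]; exact (z1 (h + 1) (by omega)).1)
    rw [u4 _ a r hzU ha, hl2, hlen] at h3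
    omega
  by_cases h2 : i ≤ 2 * h
  · refine Or.inr (Or.inr (Or.inr (Or.inr (Or.inl ⟨x, hx, 2 * h - i, by omega, r, ?_⟩))))
    rw [hvs]
    congr 3
    omega
  by_cases h3 : i ≤ 2 * h + 3
  · refine Or.inr (Or.inr (Or.inr (Or.inr (Or.inr (Or.inr (Or.inl ⟨x, hx,
      ⟨i - (2 * h + 1), by omega⟩, r, ?_⟩))))))
    rw [hvs]
    congr 3
    simp only
    omega
  · obtain ⟨e', he', hbe, _, hz, _⟩ := z8
    refine Or.inr (Or.inr (Or.inr (Or.inr (Or.inr (Or.inr (Or.inr (Or.inr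
      ⟨x, hx, e', he', r, ?_⟩)))))))
    rw [hvs, hbe]
    congr 3
    omega

end ICExh

theorem pr_Exh (hBv : StBv) (hZp : StZp) (hHU : StHU) : StExh := by
  intro H h T U hC v hv
  change ICExh.Q H h U v
  obtain ⟨b1, b2, b3, b4, b5, b6, b7⟩ := hBv H h T U hC
  obtain ⟨u1, u2, u3, u4, u5⟩ := hHU U hC.hU hC.hn
  obtain ⟨hp, hple⟩ := u1 v
  have hxT : cs H U (v.take (hU U v)) ∈ cT H U := Finset.mem_image_of_mem _ hp
  by_cases hx : cs H U (v.take (hU U v)) ∈ cD H U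
  · obtain ⟨hpz, hi⟩ := (hZp H h T U hC _ hx).2.2.2.2.2.2.1 _ hp rfl
    by_cases hvU : v ∈ U
    · have hvp : v.take (hU U v) = v := by rw [u3 v hvU, List.take_length]
      have := ICExh.caseU hBv hZp H h T U hC _ hx _ hi
      rw [← hpz, hvp] at this
      exact this
    · obtain ⟨a, r, har, hau⟩ := u5 v hvU
      have h2 : zp H U (cs H U (v.take (hU U v))) (ix H U (v.take (hU U v))) ++ [a] ∉ U := by
        rw [← hpz]
        exact hau
      have := ICExh.caseN hBv hZp hHU H h T U hC _ hx _ hi a r h2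
      rw [← hpz, ← har] at this
      exact this
  · have hix := b5 _ hp hx
    have hbp := b3 _ hp hix
    by_cases hvU : v ∈ U
    · have hvp : v.take (hU U v) = v := by rw [u3 v hvU, List.take_length]
      refine Or.inl ⟨_, hxT, ?_⟩
      rw [hbp, hvp]
    · obtain ⟨a, r, har, hau⟩ := u5 v hvU
      refine Or.inr (Or.inl ⟨_, hxT, hx, a, r, ?_, ?_⟩)
      · rw [hbp]
        exact hau
      · rw [hbp]
        exact har

end Pool.Agent.Work.MP_bf01b2_co.La

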