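import Pool.Agent.Work.MP_bf01b2_co.La.StmtsC

/-!
# MP_bf01b2_co, theorem LARGE, item HU: the longest prefix in `U`
-/

set_option autoImplicit false

namespace Pool.Agent.Work.MP_bf01b2_co.La

open Pool.Agent.Work.MP_bf01b2_co.Bd

open Classical

open Pool.Agent.Work.MP_bf01b2_co.Fw (rt lf StRt StBr)

open Pool.Agent.Work.MP_bf01b2_co.Sh (sub strs cor StSub StCrp)

namespace ICHU

theorem take_one (v w : List Bool) (a : Bool) : (v ++ a :: w).take (v.length + 1) = v ++ [a] := by
  have h1 : v ++ a :: w = (v ++ [a]) ++ w := by simp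
  have h2 : v.length + 1 = (v ++ [a]).length := by simp
  rw [h1, h2]
  exact List.take_left

theorem take_next (x : List Bool) (t : ℕ) (ht : t < x.length) :
    x.take (t + 1) = x.take t ++ [x.getD t false] := by
  have h1 : x.getD t false = x[t] := by
    rw [List.getD_eq_getElem _ _ ht]
  rw [h1]
  exact (List.take_concat_get' x t ht).symm

end ICHU

open ICHU in
theorem pr_HU : StHU := by
  intro U hpc hn
  have h1 : ∀ v : List Bool, v.take (hU U v) ∈ U := by
    intro v
    have h0 : v.take 0 ∈ U := by
      rw [List.take_zero]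
      exact hn
    exact Nat.findGreatest_spec (P := fun t => v.take t ∈ U) (Nat.zero_le v.length) h0
  have h2 : ∀ v : List Bool, hU U v ≤ v.length := fun v =>
    Nat.findGreatest_le (P := fun t => v.take t ∈ U) v.length
  have h3 : ∀ (v : List Bool) (t : ℕ), t ≤ v.length → v.take t ∈ U → t ≤ hU U v := fun v t ht hv =>
    Nat.le_findGreatest (P := fun t => v.take t ∈ U) ht hv
  refine ⟨fun v => ⟨h1 v, h2 v⟩, h3, ?_, ?_, ?_⟩
  · intro v hv
    refine le_antisymm (h2 v) (h3 v v.length le_rfl ?_)
    rw [List.take_length]
    exact hv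
  · intro w a r hw hwa
    unfold hU
    rw [Nat.findGreatest_eq_iff]
    refine ⟨by simp, fun _ => ?_, fun n hn' _ hcon => ?_⟩
    · show (w ++ a :: r).take w.length ∈ U
      rw [List.take_left]
      exact hw
    · have h4 := hpc _ hcon (w.length + 1)
      rw [List.take_take, min_eq_left (by omega : w.length + 1 ≤ n), take_one] at h4
      exact hwa h4
  · intro v hv
    have h5 : hU U v < v.length := by
      rcases lt_or_eq_of_le (h2 v) with h | h
      · exact h
      · have h6 := h1 v
        rw [h, List.take_length] at h6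
        exact absurd h6 hv
    have h6 : v.take (hU U v + 1) ∉ U := fun hc => by
      have h7 := h3 v (hU U v + 1) h5 hc
      omega
    refine ⟨v.getD (hU U v) false, v.drop (hU U v + 1), ?_, ?_⟩
    · have h7 := take_next v _ h5
      have h8 : v = v.take (hU U v + 1) ++ v.drop (hU U v + 1) := (List.take_append_drop _ v).symm
      rw [h7, List.append_assoc, List.singleton_append] at h8
      exact h8
    · rw [← take_next v _ h5]
      exact h6

end Pool.Agent.Work.MP_bf01b2_co.La
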