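import Pool.Agent.Work.MP_bf01b2_co.La.StmtsC

/-!
# MP_bf01b2_co, theorem LARGE, item C.Len
-/

set_option autoImplicit false

namespace Pool.Agent.Work.MP_bf01b2_co.La

open Pool.Agent.Work.MP_bf01b2_co.Bd

open Classical

open Pool.Agent.Work.MP_bf01b2_co.Fw (rt lf StRt StBr)

open Pool.Agent.Work.MP_bf01b2_co.Sh (sub strs cor StSub StCrp)

namespace ICLen

theorem ts_true (H h : ℕ) (T U : Finset (List Bool)) (g : Tag) (x : List Bool) :
    ts H h T U g x true = t1 H h T U g x := by
  simp [ts]

theorem ts_false (H h : ℕ) (T U : Finset (List Bool)) (g : Tag) (x : List Bool) :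
    ts H h T U g x false = t0 H h T U g x := by
  simp [ts]

/-- below a vertex outside of the core there are less than `S` levels -/
theorem low (hSub : StSub) (hCrp : StCrp) (S : ℕ) (T : Finset (List Bool))
    (hT : Bd.PrefClosed T) (y w : List Bool) (hy : y ∉ cor S T) (hw : y ++ w ∈ T) :
    w.length < S := by
  have h1 : y ∈ T := by
    have := hT _ hw y.length
    rwa [List.take_left'] at this
    rfl
  have h2 : (sub T y).card < S := (hCrp S T hT).2.2.2.2 y h1 hy
  have h3 : ((Finset.range (w.length + 1)).image fun i => w.take i) ⊆ sub T y := by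
    intro u hu
    obtain ⟨i, -, rfl⟩ := Finset.mem_image.1 hu
    rw [(hSub T).1]
    have := hT _ hw (y.length + i)
    rwa [List.take_append, List.take_of_length_le (by omega), Nat.add_sub_cancel_left] at this
  have h4 : ((Finset.range (w.length + 1)).image fun i => w.take i).card = w.length + 1 := by
    rw [Finset.card_image_of_injOn, Finset.card_range]
    intro i hi j hj hij
    have hi' := Finset.mem_range.1 hi
    have hj' := Finset.mem_range.1 hj
    have := congrArg List.length hij
    simp only [List.length_take] at this
    omega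
  have h5 := Finset.card_le_card h3
  omega

end ICLen

theorem pr_Len (hSub : StSub) (hCrp : StCrp) (hZp : StZp) (hHU : StHU)
    (hT0 : StT0) (hT1 : StT1) : StLen := by
  intro S H h T hC g x s u hu
  obtain ⟨p1, p2, p3, p4, p5, -, n0⟩ := hT0 H h T _ hC
  obtain ⟨q1, -, n1⟩ := hT1 H h T _ hC
  have hH := hC.hH
  have hh := hC.hh
  have low := ICLen.low hSub hCrp S T hC.hT
  obtain ⟨c1, -, -, -, -⟩ := hCrp S T hC.hT
  obtain ⟨u1, -, -, -, u5⟩ := hHU (cor S T) c1 hC.hn
  cases s
  · rw [ICLen.ts_false] at hu
    have hpx := n0 g x ⟨u, hu⟩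
    cases g with
    | c a =>
      by_cases hx : x ∈ cD H (cor S T)
      · obtain ⟨hv, hne⟩ := (p3 x hx a u).1 hu
        obtain ⟨z1, z2, -, -, -, -, -⟩ := hZp H h T _ hC x hx
        have hz := z1 (h + 1) (by omega)
        -- no vertex of the core above
        have key : ∀ t, (bv H (cor S T) x).length + h + 1 ≤ t →
            t ≤ (bv H (cor S T) x ++ a :: u).length →
            (bv H (cor S T) x ++ a :: u).take t ∉ cor S T := by
          intro t ht ht' hmem
          apply hne
          have h1 := c1 _ hmem ((bv H (cor S T) x).length + h + 1)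
          rw [List.take_take, min_eq_left ht] at h1
          have h2 := z2 (h + 1) (by omega) _ h1 (by
            rw [List.length_take]; omega) (by
            rw [List.take_take, min_eq_left (by omega)]
            exact List.take_left' rfl)
          rw [hz.2.1, ← add_assoc]; exact h2
        have hlen : (bv H (cor S T) x ++ a :: u).length =
            (bv H (cor S T) x).length + 1 + u.length := by simp; omega
        by_cases hvU : (bv H (cor S T) x ++ a :: u) ∈ cor S T
        · by_contra hcon
          refine key _ ?_ le_rfl (by rw [List.take_length]; exact hvU)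
          omega
        · obtain ⟨b, r, hr, hb⟩ := u5 _ hvU
          have hU1 := u1 (bv H (cor S T) x ++ a :: u)
          have h1 : hU (cor S T) (bv H (cor S T) x ++ a :: u) ≤
              (bv H (cor S T) x).length + h := by
            by_contra hcon
            exact key _ (by omega) hU1.2 hU1.1
          have h2 := low _ r hb (by
            rw [List.append_assoc, List.singleton_append, ← hr]; exact hv)
          have h3 := congrArg List.length hr
          rw [hlen, List.length_append, List.length_take, min_eq_left hU1.2] at h3
          simp only [List.length_cons] at h3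
          omega
      · by_cases ha : bv H (cor S T) x ++ [a] ∈ cor S T
        · exact absurd hu (p2 x hpx.1 hx a u ha)
        · have h1 := (p1 x hpx.1 hx a u ha).1 hu
          have := low _ u ha (by simpa using h1)
          omega
    | e k =>
      have hx := hpx.2.1
      have h1 := (p4 x hx k u).1 hu
      obtain ⟨-, -, -, -, z5, -, -⟩ := hZp H h T _ hC x hx
      obtain ⟨e, -, he, he'⟩ := z5 (2 * h + 1 + k.1) (by have := k.2; omega)
      have h2 : 2 * h + 1 + k.1 + 1 = 2 * h + 2 + k.1 := by omega
      rw [h2] at he
      have := low _ u (by rw [← he] at he'; exact he') h1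
      omega
    | en =>
      obtain ⟨hxT, hx0, hx, -⟩ := hpx.2
      obtain ⟨e, hxe⟩ : ∃ e, x = x.dropLast ++ [e] :=
        ⟨x.getLast hx0, (List.dropLast_append_getLast hx0).symm⟩
      have h1 := p5 x.dropLast hx e (by rw [← hxe]; exact hxT) u
      rw [← hxe] at h1
      have h2 := h1.1 hu
      obtain ⟨-, -, -, -, z5, -, -, e', -, z8, -, -, z9⟩ := hZp H h T _ hC _ hx
      have h3 := z9 e (by rw [← hxe]; exact hxT)
      rw [← h3, ← hxe] at z8
      obtain ⟨e'', -, he, he'⟩ := z5 (H - 1) (by omega)
      rw [show H - 1 + 1 = H by omega, ← z8] at he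
      have := low _ u (by rw [← he] at he'; exact he') h2
      omega
  · rw [ICLen.ts_true] at hu
    obtain ⟨hx, ⟨a, hg, ha⟩, -⟩ := n1 g x ⟨u, hu⟩
    subst hg
    obtain ⟨hz, q2⟩ := q1 x hx
    rcases ((q2 a ha).1 u).1 hu with ⟨j, hj, rfl⟩ | ⟨j, hj, w, hw, rfl⟩
    · rw [List.length_take]
      omega
    · obtain ⟨-, -, -, -, z5, -, -⟩ := hZp H h T _ hC x hx
      obtain ⟨e, -, he, he'⟩ := z5 (2 * h - j) (by omega)
      rw [show 2 * h - j + 1 = 2 * h + 1 - j by omega] at he
      have := low _ w (by rw [← he] at he'; exact he') hw
      rw [List.length_append, List.length_take, List.length_cons]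
      omega

end Pool.Agent.Work.MP_bf01b2_co.La
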