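import Pool.Agent.Work.MP_bf01b2_co.La.StmtsC

/-!
# MP_bf01b2_co, theorem LARGE, item Lev: level parity of the contraction
-/

set_option autoImplicit false

namespace Pool.Agent.Work.MP_bf01b2_co.La

open Pool.Agent.Work.MP_bf01b2_co.Bd

open Classical

open Pool.Agent.Work.MP_bf01b2_co.Fw (rt lf StRt StBr)

open Pool.Agent.Work.MP_bf01b2_co.Sh (sub strs cor StSub StCrp)

namespace ICLev

theorem mod_succ (n H : ℕ) (hH : 1 < H) :
    (n + 1) % H = if n % H + 1 = H then 0 else n % H + 1 := by
  rw [Nat.add_mod, Nat.mod_eq_of_lt hH]
  have := Nat.mod_lt n (show 0 < H by omega)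
  split_ifs with hh
  · rw [hh, Nat.mod_self]
  · exact Nat.mod_eq_of_lt (by omega)

end ICLev

theorem pr_Lev (hRt : StRt) (hCsn : StCsn) : StLev := by
  intro H h U v hH
  have hH0 : 0 < H := by omega
  induction v using List.reverseRecOn with
  | nil =>
    have h1 : ix H U [] = 0 := by simp [ix]
    rw [hCsn.1, h1]
    simp
  | append_singleton v e ih =>
    have hR := (hRt H hH0 v).2.2.2.2 e
    have hcs := hCsn.2.1 H U v e
    have hlen : (v ++ [e]).length = v.length + 1 := by simp
    have hms := ICLev.mod_succ v.length H (by omega)
    have hlt := Nat.mod_lt v.length hH0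
    by_cases hg : Gd H U (rt H v)
    · have hix : ix H U v = v.length % H := by unfold ix; rw [if_pos hg]
      by_cases hm : (v.length + 1) % H = 0
      · have hk : Kp H U v := by
          unfold Kp
          intro h2
          exact h2.2 hm
        have hix' : ix H U (v ++ [e]) = 0 := by
          unfold ix
          split_ifs
          · rw [hlen]; exact hm
          · rfl
        have h3 : v.length % H = 2 * (h + 2) := by
          rw [hm] at hms
          split_ifs at hms with h4
          omega
        have h5 : ((v.length % H : ℕ) : ZMod 2) = 0 := by
          rw [h3]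
          push_cast
          rw [show (2 : ZMod 2) = 0 from rfl, zero_mul]
        rw [hix, h5, add_zero] at ih
        rw [hcs, if_pos hk, hix', hlen, List.length_append, List.length_singleton]
        push_cast
        rw [ih, add_zero]
      · have hk : ¬ Kp H U v := by
          unfold Kp
          intro h2
          exact h2 ⟨hg, hm⟩
        have h6 : ix H U (v ++ [e]) = v.length % H + 1 := by
          unfold ix
          rw [hR.1 hm, if_pos hg, hlen]
          rw [hms]
          split_ifs with h7
          · rw [hms, if_pos h7] at hm
            exact absurd rfl hm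
          · rfl
        rw [hix] at ih
        rw [hcs, if_neg hk, h6, hlen, List.append_nil]
        push_cast
        rw [ih]
        ring
    · have hix : ix H U v = 0 := by unfold ix; rw [if_neg hg]
      have hk : Kp H U v := by
        unfold Kp
        intro h2
        exact hg h2.1
      have hix' : ix H U (v ++ [e]) = 0 := by
        unfold ix
        by_cases hm : (v.length + 1) % H = 0
        · split_ifs
          · rw [hlen]; exact hm
          · rfl
        · rw [hR.1 hm, if_neg hg]
      rw [hix, Nat.cast_zero, add_zero] at ih
      rw [hcs, if_pos hk, hix', hlen, List.length_append, List.length_singleton]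
      push_cast
      rw [ih, add_zero]

end Pool.Agent.Work.MP_bf01b2_co.La
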