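import Pool.Agent.Work.MP_bf01b2_co.La.StmtsC

set_option autoImplicit false

namespace Pool.Agent.Work.MP_bf01b2_co.La

open Pool.Agent.Work.MP_bf01b2_co.Bd

open Classical

open Pool.Agent.Work.MP_bf01b2_co.Fw (rt lf StRt StBr)

open Pool.Agent.Work.MP_bf01b2_co.Sh (sub strs cor StSub StCrp)

namespace ICLfc

theorem leaf_prefix {U : Finset (List Bool)} (hU : Bd.PrefClosed U) {v v' as : List Bool}
    (hv : v ∈ lf U) (hv' : v' ∈ U) (h : v' = v ++ as) : v = v' := by
  rcases as with _ | ⟨e, as⟩
  · rw [h, List.append_nil]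
  · exfalso
    have h1 : ∀ e, v ++ [e] ∉ U := by
      have := hv
      unfold lf at this
      rw [Finset.mem_filter] at this
      exact this.2
    apply h1 e
    have h2 := hU v' hv' (v.length + 1)
    have h3 : v'.take (v.length + 1) = v ++ [e] := by
      rw [h, List.take_append, List.take_of_length_le (by omega)]
      simp
    rwa [h3] at h2

theorem leaf_inj {U : Finset (List Bool)} (hU : Bd.PrefClosed U) {v v' u u' : List Bool}
    (hv : v ∈ lf U) (hv' : v' ∈ lf U) (h : v ++ u = v' ++ u') : v = v' ∧ u = u' := by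
  have hm : ∀ w ∈ lf U, w ∈ U := by
    intro w hw
    unfold lf at hw
    rw [Finset.mem_filter] at hw
    exact hw.1
  have h1 : v = v' := by
    rcases List.append_eq_append_iff.1 h with ⟨as, h2, -⟩ | ⟨as, h2, -⟩
    · exact leaf_prefix hU hv (hm v' hv') h2
    · exact (leaf_prefix hU hv' (hm v hv) h2).symm
  refine ⟨h1, ?_⟩
  rw [h1] at h
  exact List.append_cancel_left h

end ICLfc

theorem pr_Lfc (hSub : StSub) (hCrp : StCrp) : StLfc := by
  intro S T hT
  obtain ⟨hU, hUT, -, -, -⟩ := hCrp S T hT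
  set U := cor S T with hUdef
  set F := (lf U).erase [] with hF
  have hlf : (lf U).card ≤ F.card + 1 := by
    rw [hF]
    exact Nat.le_add_of_sub_le Finset.pred_card_le_card_erase
  have hsub : ∀ v ∈ F, S ≤ (sub T v).card := by
    intro v hv
    rw [hF, Finset.mem_erase] at hv
    obtain ⟨hne, hv⟩ := hv
    unfold lf at hv
    rw [Finset.mem_filter] at hv
    have h1 := hv.1
    rw [hUdef] at h1
    unfold cor at h1
    rw [Finset.mem_filter] at h1
    rcases h1.2 with h2 | h2
    · exact absurd h2 hne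
    · exact h2
  have h1 : F.card * S ≤ ∑ v ∈ F, (sub T v).card := by
    rw [← smul_eq_mul]
    exact Finset.card_nsmul_le_sum F _ S hsub
  have h2 : ∑ v ∈ F, (sub T v).card ≤ T.card := by
    rw [← Finset.card_sigma]
    refine Finset.card_le_card_of_injOn (fun p => p.1 ++ p.2) ?_ ?_
    · intro p hp
      have hp' := Finset.mem_sigma.1 hp
      exact ((hSub T).1 p.1 p.2).1 hp'.2
    · intro p hp q hq hpq
      have hp' := (Finset.mem_sigma.1 hp).1
      have hq' := (Finset.mem_sigma.1 hq).1
      have h3 := ICLfc.leaf_inj hU (Finset.mem_of_mem_erase hp') (Finset.mem_of_mem_erase hq') hpq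
      obtain ⟨p1, p2⟩ := p
      obtain ⟨q1, q2⟩ := q
      obtain ⟨h4, h5⟩ := h3
      simp only at h4 h5
      subst h4 h5
      rfl
  calc (lf U).card * S ≤ (F.card + 1) * S := Nat.mul_le_mul_right S hlf
    _ = F.card * S + S := by ring
    _ ≤ T.card + S := by omega

end Pool.Agent.Work.MP_bf01b2_co.La
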