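import Pool.Agent.Work.MP_bf01b2_co.La.StmtsC

/-!
# MP_bf01b2_co, theorem LARGE, item ReA: edges in `U` go to related codes
-/

set_option autoImplicit false

namespace Pool.Agent.Work.MP_bf01b2_co.La

open Pool.Agent.Work.MP_bf01b2_co.Bd

open Classical

open Pool.Agent.Work.MP_bf01b2_co.Fw (rt lf StRt StBr)

open Pool.Agent.Work.MP_bf01b2_co.Sh (sub strs cor StSub StCrp)

namespace ICReA

theorem take_step (l : List Bool) (j : ℕ) (h1 : 1 ≤ j) (h2 : j ≤ l.length) :
    ∃ b, l.take j = l.take (j - 1) ++ [b] := by
  obtain ⟨k, rfl⟩ : ∃ k, j = k + 1 := ⟨j - 1, by omega⟩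
  refine ⟨l[k]'(by omega), ?_⟩
  rw [Nat.add_sub_cancel]
  exact List.take_succ_eq_append_getElem (by omega)

end ICReA

theorem pr_ReA (hBv : StBv) (hZp : StZp) (hCoA : StCoA) (hCoB : StCoB) (hCoC : StCoC)
    (hT0 : StT0) (hT1 : StT1) (hZf : StZf) : StReA := by
  intro H h T U hc v e he
  have hH := hc.hH
  have hh := hc.hh
  have hv : v ∈ U := by
    have := hc.hU _ he v.length
    rwa [List.take_left'] at this
    rfl
  obtain ⟨b1, b2, b3, b4, b5, b6, b7⟩ := hBv H h T U hc
  obtain ⟨a1, a2, a3⟩ := hCoA H h T U hc
  obtain ⟨x, hx⟩ : ∃ x, x = cs H U v := ⟨_, rfl⟩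
  have hxT : x ∈ cT H U := by
    rw [hx]
    exact Finset.mem_image_of_mem _ hv
  by_cases hxD : x ∈ cD H U
  · obtain ⟨z1, z2, z3, z4, z5, z6, z7, e1, z8, z9, z10, z11, z12⟩ := hZp H h T U hc x hxD
    obtain ⟨hvi, hiH⟩ := z7 v hv hx.symm
    obtain ⟨i, hi⟩ : ∃ i, i = ix H U v := ⟨_, rfl⟩
    rw [← hi] at hvi hiH
    have hve : v ++ [e] = zp H U x (i + 1) := by
      apply z2 (i + 1) (by omega) _ he
      · rw [List.length_append, List.length_singleton, hvi, (z1 i (by omega)).2.1]
        omega
      · have h1 := (z1 i (by omega)).2.2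
        have h2 := (z1 i (by omega)).2.1
        rw [← hvi] at h1 h2
        rw [List.take_append_of_le_length (by omega)]
        exact h1
    obtain ⟨a, ha1, -, -⟩ := z5 0 (by omega)
    rw [z3, zero_add] at ha1
    obtain ⟨f1, f2⟩ := hZf H h T U hc x hxD a ha1
    obtain ⟨c1, c2, c3⟩ := hCoC H h T U hc x hxD
    obtain ⟨t1a, t1b, t1c⟩ := hT1 H h T U hc
    obtain ⟨t1l, t1m⟩ := t1a x hxD
    obtain ⟨t1n, -, -⟩ := t1m a ha1
    obtain ⟨-, -, t0c, -, -, -, -⟩ := hT0 H h T U hc
    have hB := hCoB H h T U hc x hxD a ha1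
    -- the vertices `1 .. h`
    have key : ∀ k, 1 ≤ k → k ≤ h → ∃ u, zp H U x k = bv H U x ++ a :: u ∧
        (bv H U x ++ a :: u).take (zp H U x (h + 1)).length ≠ zp H U x (h + 1) := by
      intro k hk1 hk2
      refine ⟨(zp H U x k).drop ((bv H U x).length + 1), ?_, ?_⟩
      · have h1 := z4 k (by omega) 1 hk1
        rw [ha1] at h1
        conv_lhs => rw [← List.take_append_drop ((bv H U x).length + 1) (zp H U x k), h1]
        simp
      · have h1 := z4 k (by omega) 1 hk1
        rw [ha1] at h1
        have h2 : bv H U x ++ a :: (zp H U x k).drop ((bv H U x).length + 1) = zp H U x k := by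
          conv_rhs => rw [← List.take_append_drop ((bv H U x).length + 1) (zp H U x k), h1]
          simp
        rw [h2]
        intro h3
        have h4 := congrArg List.length h3
        rw [List.length_take, (z1 k (by omega)).2.1, (z1 (h + 1) (by omega)).2.1] at h4
        omega
    rcases Nat.eq_zero_or_pos i with hi0 | hi0
    · -- `i = 0`
      left
      rw [hve, hi0, zero_add, ha1]
      rw [hi0, z3] at hvi
      rw [hvi, a1 x hxT]
      obtain ⟨u, hu1, hu2⟩ := key 1 le_rfl hh
      have hu : u = [] := by
        rw [ha1] at hu1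
        have := List.append_cancel_left hu1
        simpa using this.symm
      subst hu
      have hcd := a3 x hxD a [] hu2
      have : bv H U x ++ [a] = bv H U x ++ a :: [] := rfl
      rw [this, hcd]
      refine Rel.rt (.c a) x ?_
      refine (t0c x hxD a []).2 ⟨?_, hu2⟩
      rw [← hu1]
      exact hc.hUT (z1 1 (by omega)).1
    · rcases Nat.lt_trichotomy i h with hih | hih | hih
      · -- `1 ≤ i < h`
        left
        obtain ⟨u, hu1, hu2⟩ := key i hi0 hih.le
        obtain ⟨u', hu1', hu2'⟩ := key (i + 1) (by omega) (by omega)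
        have huu : u' = u ++ [e] := by
          rw [← hve, hvi, hu1] at hu1'
          have h1 : bv H U x ++ a :: u ++ [e] = bv H U x ++ a :: (u ++ [e]) := by simp
          rw [h1] at hu1'
          have h2 := List.append_cancel_left hu1'
          simpa using h2.symm
        rw [huu] at hu1' hu2'
        rw [hve, hvi, hu1, hu1', a3 x hxD a u hu2, a3 x hxD a _ hu2']
        refine Rel.st (.c a) x false u e ?_
        refine (t0c x hxD a (u ++ [e])).2 ⟨?_, hu2'⟩
        rw [← hu1']
        exact hc.hUT (z1 (i + 1) (by omega)).1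
      · -- `i = h`
        left
        have h1 := (hB (h - 1) (by omega)).1
        have h2 : 2 * h - (h - 1) = i + 1 := by omega
        have h3 : (ze H h U x).take (h - 1) = ze H h U x := by
          rw [← t1l, List.take_length]
        rw [h2, h3] at h1
        obtain ⟨u, hu1, hu2⟩ := key h hh le_rfl
        have huz : u = ze H h U x := by
          rw [f1] at hu1
          have h4 := List.append_cancel_left hu1
          simpa using h4.symm
        rw [huz] at hu1 hu2
        rw [hve, h1, hvi, hih, hu1, a3 x hxD a _ hu2]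
        refine Rel.cr (.c a) x ?_
        exact (t1n _).2 (Or.inl ⟨h - 1, by omega, h3.symm⟩)
      · -- `h < i`
        rcases Nat.lt_trichotomy i (2 * h) with hi2 | hi2 | hi2
        · right
          have h1 := (hB (2 * h - i) (by omega)).1
          have h2 := (hB (2 * h - i - 1) (by omega)).1
          have h3 : 2 * h - (2 * h - i) = i := by omega
          have h4 : 2 * h - (2 * h - i - 1) = i + 1 := by omega
          rw [h3] at h1
          rw [h4] at h2
          obtain ⟨b, hb⟩ := ICReA.take_step (ze H h U x) (2 * h - i) (by omega) (by omega)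
          rw [hve, hvi, h1, h2, hb]
          refine Rel.st (.c a) x true _ b ?_
          exact (t1n _).2 (Or.inl ⟨2 * h - i, by omega, hb.symm⟩)
        · left
          have h1 := (hB 0 (by omega)).1
          rw [Nat.sub_zero, List.take_zero] at h1
          have h2 := c1 0
          have h3 : 2 * h + 1 + ((0 : Fin 3) : ℕ) = i + 1 := by
            rw [hi2]
            simp
          rw [h3] at h2
          rw [hve, hvi, h2]
          rw [← hi2] at h1
          rw [h1]
          refine Rel.pe (.c a) x ?_
          exact (t1n _).2 (Or.inl ⟨0, by omega, by rw [List.take_zero]⟩)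
        · left
          have hd : zp H U x (H - 1) = (bv H U (x ++ [e1])).dropLast := by
            rw [z9, z11, List.dropLast_concat]
          have k0 := c1 0
          have k1 := c1 1
          have k2' := c1 2
          have e0' : 2 * h + 1 + ((0 : Fin 3) : ℕ) = 2 * h + 1 := by simp
          have e1' : 2 * h + 1 + ((1 : Fin 3) : ℕ) = 2 * h + 2 := by simp
          have e2' : 2 * h + 1 + ((2 : Fin 3) : ℕ) = 2 * h + 3 := by simp
          rw [e0'] at k0
          rw [e1'] at k1
          rw [e2'] at k2'
          obtain ⟨k3, -⟩ := c3 e1 z8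
          rw [← hd] at k3
          have hH1 : H - 1 = 2 * h + 4 := by omega
          rw [hH1] at k3
          have hcase : i = 2 * h + 1 ∨ i = 2 * h + 2 ∨ i = 2 * h + 3 ∨ i = 2 * h + 4 := by omega
          rw [hve, hvi]
          rcases hcase with hi3 | hi3 | hi3 | hi3
          · rw [hi3, k0, k1]
            exact Rel.e0 x hxD
          · rw [hi3, k1, k2']
            exact Rel.e1 x hxD
          · rw [hi3, k2', k3]
            exact Rel.xe x e1 hxD z8
          · rw [hi3, k3]
            have h5 : 2 * h + 4 + 1 = H := by omega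
            rw [h5, ← z9, a1 _ z8]
            exact Rel.ec x e1 hxD z8
  · left
    have h0 : ix H U v = 0 := b5 v hv (by rw [← hx]; exact hxD)
    have hbv : bv H U x = v := by
      rw [hx]
      exact b3 v hv h0
    have h1 := b6 x hxT hxD e (by rw [hbv]; exact he)
    have h2 := a1 _ h1.1
    rw [h1.2, hbv] at h2
    have h3 := a1 _ hxT
    rw [hbv] at h3
    rw [h2, h3]
    exact Rel.cc x e h1.1 hxD

end Pool.Agent.Work.MP_bf01b2_co.La
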