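import Pool.Agent.Work.MP_bf01b2_co.La.StmtsC

/-!
# MP_bf01b2_co, theorem LARGE, item ReB: edges out of `U` go to related codes
-/

set_option autoImplicit false

namespace Pool.Agent.Work.MP_bf01b2_co.La

open Pool.Agent.Work.MP_bf01b2_co.Bd

open Classical

open Pool.Agent.Work.MP_bf01b2_co.Fw (rt lf StRt StBr)

open Pool.Agent.Work.MP_bf01b2_co.Sh (sub strs cor StSub StCrp)

namespace ICReB

theorem ne_of (e e' : Bool) (h : e ≠ e') : e = !e' := by
  cases e <;> cases e' <;> simp_all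

end ICReB

theorem pr_ReB (hBv : StBv) (hZp : StZp) (hCoA : StCoA) (hCoB : StCoB) (hCoC : StCoC)
    (hExh : StExh) (hT0 : StT0) (hT1 : StT1) : StReB := by
  intro H h T U hc v e he hn
  have hH := hc.hH
  have hh := hc.hh
  have hv : v ∈ T := by
    have := hc.hT _ he v.length
    rwa [List.take_left'] at this
    rfl
  obtain ⟨b1, b2, b3, b4, b5, b6, b7⟩ := hBv H h T U hc
  obtain ⟨a1, a2, a3⟩ := hCoA H h T U hc
  obtain ⟨t0a, t0b, t0c, t0d, t0e, t0f, t0g⟩ := hT0 H h T U hc
  obtain ⟨t1a, t1b, t1c⟩ := hT1 H h T U hc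
  rcases hExh H h T U hc v hv with ⟨x, hx, hf⟩ | ⟨x, hx, hxD, a, u, ha, hf⟩ |
    ⟨x, hxD, a, u, hf, ha⟩ | ⟨x, hxD, j, hj, hf⟩ | ⟨x, hxD, j, hj, w, hf⟩ | ⟨x, hxD, k, hf⟩ |
    ⟨x, hxD, k, w, hf⟩ | ⟨x, hxD, e1, hx1, hf⟩ | ⟨x, hxD, e1, hx1, w, hf⟩
  · -- form 1
    subst hf
    rw [a1 x hx]
    by_cases hxD : x ∈ cD H U
    · obtain ⟨z1, z2, z3, z4, z5, z6, z7, z8⟩ := hZp H h T U hc x hxD
      have hcond : (bv H U x ++ e :: []).take (zp H U x (h + 1)).length ≠
          zp H U x (h + 1) := by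
        intro h3
        have h4 := congrArg List.length h3
        rw [List.length_take, (z1 (h + 1) (by omega)).2.1, List.length_append,
          List.length_singleton] at h4
        omega
      have h1 := a3 x hxD e [] hcond
      have h2 : bv H U x ++ [e] = bv H U x ++ e :: [] := rfl
      rw [h2, h1]
      refine Rel.rt (.c e) x ?_
      exact (t0c x hxD e []).2 ⟨he, hcond⟩
    · have h1 := a2 x hx hxD e [] hn
      have h2 : bv H U x ++ [e] = bv H U x ++ e :: [] := rfl
      rw [h2, h1]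
      refine Rel.rt (.c e) x ?_
      exact (t0a x hx hxD e [] hn).2 he
  · -- form 2
    subst hf
    have h1 := a2 x hx hxD a u ha
    have h2 := a2 x hx hxD a (u ++ [e]) ha
    have h3 : bv H U x ++ a :: u ++ [e] = bv H U x ++ a :: (u ++ [e]) := by simp
    rw [h3] at he ⊢
    rw [h1, h2]
    refine Rel.st (.c a) x false u e ?_
    exact (t0a x hx hxD a _ ha).2 he
  · -- form 3
    subst hf
    obtain ⟨z1, z2, z3, z4, z5, z6, z7, z8⟩ := hZp H h T U hc x hxD
    have h3 : bv H U x ++ a :: u ++ [e] = bv H U x ++ a :: (u ++ [e]) := by simp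
    have hcond : (bv H U x ++ a :: (u ++ [e])).take (zp H U x (h + 1)).length ≠
        zp H U x (h + 1) := by
      rw [← h3]
      intro h4
      rcases Nat.lt_or_ge (bv H U x ++ a :: u).length (zp H U x (h + 1)).length with h5 | h5
      · apply hn
        have h6 : (bv H U x ++ a :: u ++ [e]).length ≤ (zp H U x (h + 1)).length := by
          rw [List.length_append, List.length_singleton]
          omega
        rw [List.take_of_length_le h6] at h4
        rw [h4]
        exact (z1 (h + 1) (by omega)).1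
      · rw [List.take_append_of_le_length h5] at h4
        exact ha h4
    have h1 := a3 x hxD a u ha
    have h2 := a3 x hxD a (u ++ [e]) hcond
    rw [h3] at he ⊢
    rw [h1, h2]
    refine Rel.st (.c a) x false u e ?_
    exact (t0c x hxD a _).2 ⟨he, hcond⟩
  · -- form 4
    obtain ⟨z1, z2, z3, z4, z5, z6, z7, z8⟩ := hZp H h T U hc x hxD
    obtain ⟨a, ha1, -, -⟩ := z5 0 (by omega)
    rw [z3, zero_add] at ha1
    have hB := hCoB H h T U hc x hxD a ha1 j hj
    obtain ⟨t1l, t1m⟩ := t1a x hxD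
    obtain ⟨t1n, -, -⟩ := t1m a ha1
    obtain ⟨e', h5, h6, h7⟩ := z5 (2 * h - j) (by omega)
    have h8 : 2 * h - j + 1 = 2 * h + 1 - j := by omega
    rw [h8] at h5 h6
    have hne : e ≠ e' := by
      rintro rfl
      apply hn
      rw [hf, ← h5]
      exact (z1 _ (by omega)).1
    have hee := ICReB.ne_of e e' hne
    have h9 : v ++ [e] = sb (zp H U x (2 * h + 1 - j)) ++ [] := by
      rw [List.append_nil, h6, hf, hee]
    have h10 := hB.2 []
    rw [← h9] at h10
    rw [h10, hf, hB.1]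
    refine Rel.st (.c a) x true _ (lc H h U x j) ?_
    refine (t1n _).2 (Or.inr ⟨j, hj, [], ?_, rfl⟩)
    rw [← h9]
    exact he
  · -- form 5
    obtain ⟨z1, z2, z3, z4, z5, z6, z7, z8⟩ := hZp H h T U hc x hxD
    obtain ⟨a, ha1, -, -⟩ := z5 0 (by omega)
    rw [z3, zero_add] at ha1
    have hB := hCoB H h T U hc x hxD a ha1 j hj
    obtain ⟨t1l, t1m⟩ := t1a x hxD
    obtain ⟨t1n, -, -⟩ := t1m a ha1
    have h1 := hB.2 w
    have h2 := hB.2 (w ++ [e])
    have h3 : v ++ [e] = sb (zp H U x (2 * h + 1 - j)) ++ (w ++ [e]) := by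
      rw [hf, List.append_assoc]
    rw [← hf] at h1
    rw [← h3] at h2
    rw [h1, h2]
    have h4 : (ze H h U x).take j ++ lc H h U x j :: (w ++ [e]) =
        ((ze H h U x).take j ++ lc H h U x j :: w) ++ [e] := by simp
    rw [h4]
    refine Rel.st (.c a) x true _ e ?_
    refine (t1n _).2 (Or.inr ⟨j, hj, w ++ [e], ?_, h4.symm⟩)
    rw [← h3]
    exact he
  · -- form 6
    obtain ⟨z1, z2, z3, z4, z5, z6, z7, z8⟩ := hZp H h T U hc x hxD
    obtain ⟨c1, c2, c3⟩ := hCoC H h T U hc x hxD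
    have hk := k.2
    obtain ⟨e', h5, h6, h7⟩ := z5 (2 * h + 1 + k.1) (by omega)
    have h8 : 2 * h + 1 + k.1 + 1 = 2 * h + 2 + k.1 := by omega
    rw [h8] at h5 h6
    have hne : e ≠ e' := by
      rintro rfl
      apply hn
      rw [hf, ← h5]
      exact (z1 _ (by omega)).1
    have hee := ICReB.ne_of e e' hne
    have h9 : v ++ [e] = sb (zp H U x (2 * h + 2 + k.1)) ++ [] := by
      rw [List.append_nil, h6, hf, hee]
    have h10 := c2 k []
    rw [← h9] at h10
    rw [h10, hf, c1 k]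
    refine Rel.rt (.e k) x ?_
    refine (t0d x hxD k []).2 ?_
    rw [← h9]
    exact he
  · -- form 7
    obtain ⟨c1, c2, c3⟩ := hCoC H h T U hc x hxD
    have h1 := c2 k w
    have h2 := c2 k (w ++ [e])
    have h3 : v ++ [e] = sb (zp H U x (2 * h + 2 + k.1)) ++ (w ++ [e]) := by
      rw [hf, List.append_assoc]
    rw [← hf] at h1
    rw [← h3] at h2
    rw [h1, h2]
    refine Rel.st (.e k) x false w e ?_
    refine (t0d x hxD k (w ++ [e])).2 ?_
    rw [← h3]
    exact he
  · -- form 8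
    obtain ⟨z1, z2, z3, z4, z5, z6, z7, e2, z8, z9, z10, z11, z12⟩ := hZp H h T U hc x hxD
    obtain ⟨c1, c2, c3⟩ := hCoC H h T U hc x hxD
    obtain rfl := z12 e1 hx1
    obtain ⟨e', h5, h6, h7⟩ := z5 (H - 1) (by omega)
    have h8 : H - 1 + 1 = H := by omega
    rw [h8] at h5 h6
    have hvz : v = zp H U x (H - 1) := by
      rw [hf, z9, z11, List.dropLast_concat]
    have hne : e ≠ e' := by
      rintro rfl
      apply hn
      rw [hvz, ← h5]
      exact (z1 _ (by omega)).1
    have hee := ICReB.ne_of e e' hne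
    have h9 : v ++ [e] = sb (bv H U (x ++ [e1])) ++ [] := by
      rw [List.append_nil, z9, h6, hvz, hee]
    obtain ⟨k1, k2'⟩ := c3 e1 hx1
    have h10 := k2' []
    rw [← h9] at h10
    rw [h10, hf, k1]
    refine Rel.rt .en (x ++ [e1]) ?_
    refine (t0e x hxD e1 hx1 []).2 ?_
    rw [← h9]
    exact he
  · -- form 9
    obtain ⟨c1, c2, c3⟩ := hCoC H h T U hc x hxD
    obtain ⟨k1, k2'⟩ := c3 e1 hx1
    have h1 := k2' w
    have h2 := k2' (w ++ [e])
    have h3 : v ++ [e] = sb (bv H U (x ++ [e1])) ++ (w ++ [e]) := by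
      rw [hf, List.append_assoc]
    rw [← hf] at h1
    rw [← h3] at h2
    rw [h1, h2]
    refine Rel.st .en (x ++ [e1]) false w e ?_
    refine (t0e x hxD e1 hx1 (w ++ [e])).2 ?_
    rw [← h3]
    exact he

end Pool.Agent.Work.MP_bf01b2_co.La
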