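import Pool.Agent.Work.MP_bf01b2_co.La.StmtsC

/-!
# MP_bf01b2_co, theorem LARGE, item C.Siz
-/

set_option autoImplicit false

namespace Pool.Agent.Work.MP_bf01b2_co.La

open Pool.Agent.Work.MP_bf01b2_co.Bd

open Classical

open Pool.Agent.Work.MP_bf01b2_co.Fw (rt lf StRt StBr)

open Pool.Agent.Work.MP_bf01b2_co.Sh (sub strs cor StSub StCrp)

theorem pr_Siz (hCnt : StCnt) (hLfc : StLfc) (hCrp : StCrp) : StSiz := by
  intro S H T hH hT
  obtain ⟨h1, h2, -, -, -⟩ := hCrp S T hT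
  obtain ⟨h3, h4⟩ := hCnt H (cor S T) hH h1
  have h5 := hLfc S T hT
  have h6 := Finset.card_le_card h2
  have h7 : (cD H (cor S T)).card * H ≤ T.card := h3.trans h6
  calc H * S * (cT H (cor S T)).card
      ≤ H * S * ((cD H (cor S T)).card + 2 ^ H * (2 * (lf (cor S T)).card)) :=
        Nat.mul_le_mul_left _ h4
    _ = S * ((cD H (cor S T)).card * H) + 2 ^ (H + 1) * H * ((lf (cor S T)).card * S) := by
        ring
    _ ≤ S * T.card + 2 ^ (H + 1) * H * (T.card + S) :=
        Nat.add_le_add (Nat.mul_le_mul_left _ h7) (Nat.mul_le_mul_left _ h5)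

end Pool.Agent.Work.MP_bf01b2_co.La
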