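import Pool.Agent.Work.MP_bf01b2_co.La.StmtsC

/-!
# MP_bf01b2_co, theorem LARGE, the tree side, item T0: membership in the side `false` of a piece
-/

set_option autoImplicit false

namespace Pool.Agent.Work.MP_bf01b2_co.La

open Pool.Agent.Work.MP_bf01b2_co.Bd

open Classical

open Pool.Agent.Work.MP_bf01b2_co.Fw (rt lf StRt StBr)

open Pool.Agent.Work.MP_bf01b2_co.Sh (sub strs cor StSub StCrp)

namespace ICT0

theorem take_iff (Z w : List Bool) : w.take Z.length = Z ↔ Z <+: w := by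
  rw [List.prefix_iff_eq_take]
  exact eq_comm

theorem take_mono {Z v w : List Bool} (hvw : v <+: w) (h : v.take Z.length = Z) :
    w.take Z.length = Z := by
  rw [take_iff] at h ⊢
  exact h.trans hvw

theorem pref_mem {T : Finset (List Bool)} (hT : Bd.PrefClosed T) {v w : List Bool}
    (hvw : v <+: w) (hw : w ∈ T) : v ∈ T := by
  rw [List.prefix_iff_eq_take] at hvw
  rw [hvw]
  exact hT w hw _

theorem mem_t0 (hSub : StSub) (H h : ℕ) (T U : Finset (List Bool)) (g : Tag) (x u : List Bool) :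
    u ∈ t0 H h T U g x ↔ px H h T U g x ∧ rv H h U g x ++ u ∈ T ∧ (te H U g x →
      (rv H h U g x ++ u).take (zp H U x (h + 1)).length ≠ zp H U x (h + 1)) := by
  unfold t0
  by_cases hp : px H h T U g x
  · rw [if_pos hp, Finset.mem_filter, (hSub T).1]
    exact ⟨fun a => ⟨hp, a.1, a.2⟩, fun a => ⟨a.2.1, a.2.2⟩⟩
  · rw [if_neg hp]
    exact ⟨fun a => absurd a (Finset.notMem_empty _), fun a => absurd a.1 hp⟩

end ICT0

open ICT0 in
theorem pr_T0 (hSub : StSub) (hBv : StBv) (hZp : StZp) : StT0 := by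
  intro H h T U hC
  obtain ⟨-, b2, -, b4, -, -, -⟩ := hBv H h T U hC
  have hT := hC.hT
  have hh := hC.hh
  have hHh := hC.hH
  have ass : ∀ (b : List Bool) (a : Bool) (u : List Bool), b ++ [a] ++ u = b ++ a :: u := by
    intro b a u
    rw [List.append_assoc]
    rfl
  refine ⟨?_, ?_, ?_, ?_, ?_, ?_, ?_⟩
  · intro x hx hxD a u ha
    rw [mem_t0 hSub]
    show _ ∧ bv H U x ++ [a] ++ u ∈ T ∧ _ ↔ _
    rw [ass]
    constructor
    · rintro ⟨_, h2, _⟩
      exact h2
    · intro h2
      refine ⟨⟨hx, Or.inr ha, ?_⟩, h2, ?_⟩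
      · refine pref_mem hT ?_ h2
        rw [← ass _ _ u]
        exact List.prefix_append _ _
      · intro h3
        exact absurd h3.1 hxD
  · intro x hx hxD a u ha hu
    rw [mem_t0 hSub] at hu
    obtain ⟨⟨_, h3, _⟩, _⟩ := hu
    rcases h3 with h3 | h3
    · exact hxD h3
    · exact h3 ha
  · intro x hx a u
    obtain ⟨z1, z2, z3, z4, -, -, -, -⟩ := hZp H h T U hC x hx
    rw [mem_t0 hSub]
    show _ ∧ bv H U x ++ [a] ++ u ∈ T ∧ (_ → (bv H U x ++ [a] ++ u).take _ ≠ _) ↔ _
    rw [ass]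
    constructor
    · rintro ⟨_, h2, h3⟩
      refine ⟨h2, ?_⟩
      intro h4
      refine h3 ⟨hx, ?_⟩ h4
      have h5 : (zp H U x (h + 1)).take ((bv H U x).length + 1) = zp H U x 1 :=
        z4 (h + 1) (by omega) 1 (by omega)
      have h6 : (zp H U x (h + 1)).length = (bv H U x).length + (h + 1) :=
        (z1 (h + 1) (by omega)).2.1
      rw [← h5, ← h4, List.take_take, h6, min_eq_left (by omega), ← ass]
      rw [List.take_append_of_le_length (by simp)]
      rw [List.take_of_length_le (by simp)]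
    · rintro ⟨h2, h3⟩
      refine ⟨⟨(b4 x hx).1, Or.inl hx, ?_⟩, h2, fun _ => h3⟩
      refine pref_mem hT ?_ h2
      rw [← ass _ _ u]
      exact List.prefix_append _ _
  · intro x hx k u
    rw [mem_t0 hSub]
    show _ ∧ sb (zp H U x (2 * h + 2 + k.1)) ++ u ∈ T ∧ _ ↔ _
    constructor
    · rintro ⟨_, h2, _⟩
      exact h2
    · intro h2
      refine ⟨⟨hx, pref_mem hT (List.prefix_append _ _) h2⟩, h2, ?_⟩
      intro h3
      exact h3.elim
  · intro x hx e he u
    rw [mem_t0 hSub]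
    show _ ∧ sb (bv H U (x ++ [e])) ++ u ∈ T ∧ _ ↔ _
    constructor
    · rintro ⟨_, h2, _⟩
      exact h2
    · intro h2
      refine ⟨⟨he, by simp, ?_, pref_mem hT (List.prefix_append _ _) h2⟩, h2, ?_⟩
      · rw [List.dropLast_concat]
        exact hx
      · intro h3
        exact h3.elim
  · intro g x u hu t
    rw [mem_t0 hSub] at hu ⊢
    obtain ⟨h1, h2, h3⟩ := hu
    have h4 : rv H h U g x ++ u.take t <+: rv H h U g x ++ u :=
      (List.prefix_append_right_inj _).mpr (List.take_prefix _ _)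
    refine ⟨h1, pref_mem hT h4 h2, ?_⟩
    intro h5 h6
    exact h3 h5 (take_mono h4 h6)
  · intro g x hne
    obtain ⟨u, hu⟩ := hne
    rw [mem_t0 hSub] at hu
    refine ⟨?_, hu.1⟩
    have h1 := hu.1
    cases g with
    | c a => exact h1.1
    | e k => exact (b4 x h1.1).1
    | en => exact h1.1

end Pool.Agent.Work.MP_bf01b2_co.La
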