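import Pool.Agent.Work.MP_bf01b2_co.La.StmtsC

/-! Item [bf01b2 LA C.T1] (helper63): membership in the side `true`, longest common prefix. -/

set_option autoImplicit false

namespace Pool.Agent.Work.MP_bf01b2_co.La

open Pool.Agent.Work.MP_bf01b2_co.Bd

open Classical

open Pool.Agent.Work.MP_bf01b2_co.Fw (rt lf StRt StBr)

open Pool.Agent.Work.MP_bf01b2_co.Sh (sub strs cor StSub StCrp)

namespace ICT1

theorem take_ne (z w : List Bool) (j t : ℕ) (c : Bool) (hc : c = !(z.getD j true))
    (hjt : j < t) (ht : t ≤ z.length) : (z.take j ++ c :: w).take t ≠ z.take t := by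
  intro he
  have hjz : j < z.length := lt_of_lt_of_le hjt ht
  have h1 : ((z.take j ++ c :: w).take t)[j]? = some c := by
    rw [List.getElem?_take_of_lt hjt, List.getElem?_append_right (by rw [List.length_take]; omega)]
    have h0 : j - (z.take j).length = 0 := by rw [List.length_take]; omega
    rw [h0]
    rfl
  have h2 : (z.take t)[j]? = some (z[j]) := by
    rw [List.getElem?_take_of_lt hjt, List.getElem?_eq_getElem hjz]
  have h3 : z.getD j true = z[j] := by
    rw [List.getD_eq_getElem?_getD, List.getElem?_eq_getElem hjz]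
    rfl
  rw [he, h2, hc, h3] at h1
  have h4 : z[j] = !z[j] := Option.some.inj h1
  cases h5 : z[j] <;> rw [h5] at h4 <;> exact absurd h4 (by decide)

theorem len (z w : List Bool) (j : ℕ) (c : Bool) (hj : j ≤ z.length) :
    (z.take j ++ c :: w).length = j + 1 + w.length := by
  rw [List.length_append, List.length_take, List.length_cons, min_eq_left hj]
  omega

theorem ne_take (z w : List Bool) (j : ℕ) (c : Bool) (hc : c = !(z.getD j true))
    (hj : j ≤ z.length) :
    z.take j ++ c :: w ≠ z.take (z.take j ++ c :: w).length := by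
  intro he
  have hl := len z w j c hj
  have hle : (z.take j ++ c :: w).length ≤ z.length := by
    have := congrArg List.length he
    rw [List.length_take] at this
    omega
  refine take_ne z w j _ c hc (by omega : j < (z.take j ++ c :: w).length) hle ?_
  rw [List.take_length]
  exact he

theorem lp_eq (z w : List Bool) (j : ℕ) (c : Bool) (hc : c = !(z.getD j true))
    (hj : j ≤ z.length) : lp z (z.take j ++ c :: w) = j := by
  unfold lp
  rw [Nat.findGreatest_eq_iff]
  refine ⟨?_, ?_, ?_⟩
  · rw [len z w j c hj]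
    omega
  · intro _
    refine ⟨?_, hj⟩
    rw [List.take_append_of_le_length (by rw [List.length_take]; omega), List.take_take, min_self]
  · intro n hn _ hP
    exact take_ne z w j n c hc hn hP.2 hP.1

theorem drop_eq (z w : List Bool) (j : ℕ) (c : Bool) (hj : j ≤ z.length) :
    (z.take j ++ c :: w).drop (j + 1) = w := by
  have h1 : (z.take j).length = j := by rw [List.length_take]; omega
  have h2 : j + 1 - j = 1 := by omega
  rw [List.drop_append, List.drop_eq_nil_of_le (by omega), List.nil_append, h1, h2]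
  rfl

theorem ze_len (hZp : StZp) (H h : ℕ) (T U : Finset (List Bool)) (hc : Ctx H h T U)
    (x : List Bool) (hx : x ∈ cD H U) : (ze H h U x).length = h - 1 := by
  obtain ⟨z1, -⟩ := hZp H h T U hc x hx
  have hH := hc.hH
  have h1 := (z1 h (by omega)).2.1
  unfold ze
  rw [List.length_drop, h1]
  omega

theorem mem_t1 (hSub : StSub) (H h : ℕ) (T U : Finset (List Bool)) (x : List Bool)
    (hx : x ∈ cD H U) (a : Bool) (ha : zp H U x 1 = bv H U x ++ [a]) (u : List Bool) :
    u ∈ t1 H h T U (.c a) x ↔ (∃ j < h, u = (ze H h U x).take j) ∨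
      ∃ j < h, ∃ w, sb (zp H U x (2 * h + 1 - j)) ++ w ∈ T ∧
        u = (ze H h U x).take j ++ lc H h U x j :: w := by
  have hte : te H U (.c a) x := ⟨hx, ha⟩
  unfold t1
  rw [if_pos hte, Finset.mem_union, Finset.mem_image, Finset.mem_biUnion]
  constructor
  · rintro (⟨j, hj, rfl⟩ | ⟨j, hj, hu⟩)
    · exact Or.inl ⟨j, Finset.mem_range.mp hj, rfl⟩
    · rw [Finset.mem_image] at hu
      obtain ⟨w, hw, rfl⟩ := hu
      exact Or.inr ⟨j, Finset.mem_range.mp hj, w, ((hSub T).1 _ _).mp hw, rfl⟩
  · rintro (⟨j, hj, rfl⟩ | ⟨j, hj, w, hw, rfl⟩)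
    · exact Or.inl ⟨j, Finset.mem_range.mpr hj, rfl⟩
    · exact Or.inr ⟨j, Finset.mem_range.mpr hj,
        Finset.mem_image.mpr ⟨w, ((hSub T).1 _ _).mpr hw, rfl⟩⟩

theorem t1_te (H h : ℕ) (T U : Finset (List Bool)) (g : Tag) (x u : List Bool)
    (hu : u ∈ t1 H h T U g x) : x ∈ cD H U ∧ ∃ a, g = .c a ∧ zp H U x 1 = bv H U x ++ [a] := by
  unfold t1 at hu
  by_cases hte : te H U g x
  · cases g with
    | c a => exact ⟨hte.1, a, rfl, hte.2⟩
    | e k => exact absurd hte (fun h => h)
    | en => exact absurd hte (fun h => h)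
  · rw [if_neg hte] at hu
    exact absurd hu (Finset.notMem_empty _)

end ICT1

theorem pr_T1 (hSub : StSub) (hZp : StZp) : StT1 := by
  intro H h T U hc
  have hh := hc.hh
  refine ⟨?_, ?_, ?_⟩
  · intro x hx
    have hl := ICT1.ze_len hZp H h T U hc x hx
    refine ⟨hl, ?_⟩
    intro a ha
    refine ⟨ICT1.mem_t1 hSub H h T U x hx a ha, ?_, ?_⟩
    · intro j hj
      have h1 : ((ze H h U x).take j).length = j := by
        rw [List.length_take]
        omega
      unfold k2
      rw [h1, if_pos rfl]
    · intro j hj w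
      have hjl : j ≤ (ze H h U x).length := by omega
      have h2 := ICT1.ne_take (ze H h U x) w j (lc H h U x j) rfl hjl
      have h3 := ICT1.lp_eq (ze H h U x) w j (lc H h U x j) rfl hjl
      have h4 := ICT1.drop_eq (ze H h U x) w j (lc H h U x j) hjl
      unfold k2
      rw [if_neg h2, h3, h4]
  · intro g x u hu t
    obtain ⟨hx, a, rfl, ha⟩ := ICT1.t1_te H h T U g x u hu
    have hl := ICT1.ze_len hZp H h T U hc x hx
    rw [ICT1.mem_t1 hSub H h T U x hx a ha] at hu ⊢
    rcases hu with ⟨j, hj, rfl⟩ | ⟨j, hj, w, hw, rfl⟩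
    · left
      refine ⟨min t j, by omega, ?_⟩
      rw [List.take_take]
    · have h1 : ((ze H h U x).take j).length = j := by
        rw [List.length_take]
        omega
      rcases Nat.lt_or_ge j t with hjt | hjt
      · right
        refine ⟨j, hj, w.take (t - (j + 1)), ?_, ?_⟩
        · have h2 := hc.hT _ hw ((sb (zp H U x (2 * h + 1 - j))).length + (t - (j + 1)))
          rwa [List.take_length_add_append] at h2
        · obtain ⟨s, rfl⟩ : ∃ s, t = j + 1 + s := ⟨t - (j + 1), by omega⟩
          have h3 : j + 1 + s - (j + 1) = s := by omega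
          rw [h3]
          have h4 : ((ze H h U x).take j ++ lc H h U x j :: w).take
              (((ze H h U x).take j).length + (s + 1)) =
              (ze H h U x).take j ++ (lc H h U x j :: w).take (s + 1) :=
            List.take_length_add_append _
          rw [h1] at h4
          have h5 : j + 1 + s = j + (s + 1) := by omega
          rw [h5, h4, List.take_succ_cons]
      · left
        refine ⟨t, by omega, ?_⟩
        rw [List.take_append_of_le_length (by omega), List.take_take, min_eq_left hjt]
  · rintro g x ⟨u, hu⟩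
    obtain ⟨hx, a, rfl, ha⟩ := ICT1.t1_te H h T U g x u hu
    have hl := ICT1.ze_len hZp H h T U hc x hx
    refine ⟨hx, ⟨a, rfl, ha⟩, ?_⟩
    rw [ICT1.mem_t1 hSub H h T U x hx a ha]
    left
    refine ⟨h - 1, by omega, ?_⟩
    rw [← hl, List.take_length]

end Pool.Agent.Work.MP_bf01b2_co.La
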