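import Pool.Agent.Work.MP_bf01b2_co.La.StmtsC

/-!
# MP_bf01b2_co, theorem LARGE, item C.Tree
-/

set_option autoImplicit false

namespace Pool.Agent.Work.MP_bf01b2_co.La

open Pool.Agent.Work.MP_bf01b2_co.Bd

open Classical

open Pool.Agent.Work.MP_bf01b2_co.Fw (rt lf StRt StBr)

open Pool.Agent.Work.MP_bf01b2_co.Sh (sub strs cor StSub StCrp)

namespace ICTree

theorem ts_true (H h : ℕ) (T U : Finset (List Bool)) (g : Tag) (x : List Bool) :
    ts H h T U g x true = t1 H h T U g x := by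
  simp [ts]

theorem ts_false (H h : ℕ) (T U : Finset (List Bool)) (g : Tag) (x : List Bool) :
    ts H h T U g x false = t0 H h T U g x := by
  simp [ts]

end ICTree

theorem pr_Tree (hDec : StDec) (hT0 : StT0) (hT1 : StT1) (hZf : StZf)
    (hVal : StVal) (hReA : StReA) (hReB : StReB) (hCwt : StCwt) (hLen : StLen) (hSiz : StSiz)
    (hCrp : StCrp) : StTree := by
  intro S h T hh hT hne
  obtain ⟨c1, c2, c3, -, -⟩ := hCrp S T hT
  have hC : Ctx (2 * h + 5) h T (cor S T) := ⟨rfl, hh, hT, c1, c2, c3 hne⟩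
  have hH : 0 < 2 * h + 5 := by omega
  obtain ⟨d1, d2, -, -, -⟩ := hDec (2 * h + 5) (cor S T) hH c1
  obtain ⟨-, -, -, -, -, p0, n0⟩ := hT0 _ _ _ _ hC
  obtain ⟨q1, p1, n1⟩ := hT1 _ _ _ _ hC
  refine ⟨cT (2 * h + 5) (cor S T), cD (2 * h + 5) (cor S T), ts (2 * h + 5) h T (cor S T),
    ze (2 * h + 5) h (cor S T), code (2 * h + 5) h (cor S T), d1, ?_, d2, ?_, ?_, ?_, ?_, ?_, ?_,
    ?_, ?_, ?_, ?_⟩
  · have h1 : cs (2 * h + 5) (cor S T) [] ∈ cT (2 * h + 5) (cor S T) :=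
      Finset.mem_image_of_mem _ (c3 hne)
    simpa using d1 _ h1 0
  · exact hSiz S (2 * h + 5) T hH hT
  · intro g x s
    refine ⟨?_, hLen S _ _ T hC g x s, ?_⟩
    · cases s
      · rw [ICTree.ts_false]; exact p0 g x
      · rw [ICTree.ts_true]; exact p1 g x
    · cases s
      · rw [ICTree.ts_false]; exact fun hn => (n0 g x hn).1
      · rw [ICTree.ts_true]; exact fun hn => d2 (n1 g x hn).1
  · intro g x
    rw [ICTree.ts_true, ICTree.ts_false]
    intro hn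
    obtain ⟨hx, ⟨a, hg, ha⟩, hz⟩ := n1 g x hn
    subst hg
    exact ⟨hx, ⟨a, rfl⟩, (q1 x hx).1, (hZf _ _ _ _ hC x hx a ha).2, hz⟩
  · intro k x s
    cases s
    · rw [ICTree.ts_false]
      intro hn
      exact (n0 (.e k) x hn).2.1
    · rw [ICTree.ts_true]
      intro hn
      exact (n1 (.e k) x hn).1
  · intro x s
    cases s
    · rw [ICTree.ts_false]
      intro hn
      exact ⟨(n0 .en x hn).2.2.1, (n0 .en x hn).2.2.2.1⟩
    · rw [ICTree.ts_true]
      intro hn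
      obtain ⟨-, ⟨a, hg, -⟩, -⟩ := n1 .en x hn
      cases hg
  · intro x a a'
    rw [ICTree.ts_true, ICTree.ts_true]
    intro hn hn'
    obtain ⟨-, ⟨b, hb, hb'⟩, -⟩ := n1 _ x hn
    obtain ⟨-, ⟨c, hc, hc'⟩, -⟩ := n1 _ x hn'
    rw [hb'] at hc'
    have h1 : b = c := by simpa using hc'
    cases hb
    cases hc
    exact h1
  · intro v hv
    exact (hVal _ _ _ _ hC v hv).1
  · intro v hv v' hv' he
    rw [← (hVal _ _ _ _ hC v hv).2, ← (hVal _ _ _ _ hC v' hv').2, he]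
  · intro v e hv
    by_cases h1 : v ++ [e] ∈ cor S T
    · exact hReA _ _ _ _ hC v e h1
    · exact Or.inl (hReB _ _ _ _ hC v e hv h1)
  · exact hCwt _ _ _ _ hC

end Pool.Agent.Work.MP_bf01b2_co.La
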