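import Pool.Agent.Work.MP_bf01b2_co.La.StmtsC

/-!
# MP_bf01b2_co, theorem LARGE, item C.Val
-/

set_option autoImplicit false

namespace Pool.Agent.Work.MP_bf01b2_co.La

open Pool.Agent.Work.MP_bf01b2_co.Bd

open Classical

open Pool.Agent.Work.MP_bf01b2_co.Fw (rt lf StRt StBr)

open Pool.Agent.Work.MP_bf01b2_co.Sh (sub strs cor StSub StCrp)

namespace ICVal

theorem ts_true (H h : ℕ) (T U : Finset (List Bool)) (g : Tag) (x : List Bool) :
    ts H h T U g x true = t1 H h T U g x := by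
  simp [ts]

theorem ts_false (H h : ℕ) (T U : Finset (List Bool)) (g : Tag) (x : List Bool) :
    ts H h T U g x false = t0 H h T U g x := by
  simp [ts]

end ICVal

theorem pr_Val (hZp : StZp) (hCoA : StCoA) (hCoB : StCoB) (hCoC : StCoC) (hExh : StExh)
    (hT0 : StT0) (hT1 : StT1) : StVal := by
  intro H h T U hC v hv
  obtain ⟨a1, a2, a3⟩ := hCoA H h T U hC
  obtain ⟨p1, -, p3, p4, p5, -, -⟩ := hT0 H h T U hC
  obtain ⟨q1, -, -⟩ := hT1 H h T U hC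
  have hH : 0 < H := by have := hC.hH; omega
  rcases hExh H h T U hC v hv with ⟨x, hx, rfl⟩ | ⟨x, hx, hx', a, u, ha, rfl⟩ |
    ⟨x, hx, a, u, rfl, hne⟩ | ⟨x, hx, j, hj, rfl⟩ | ⟨x, hx, j, hj, w, rfl⟩ | ⟨x, hx, k, rfl⟩ |
    ⟨x, hx, k, w, rfl⟩ | ⟨x, hx, e, he, rfl⟩ | ⟨x, hx, e, he, w, rfl⟩
  · rw [a1 x hx]
    exact ⟨hx, rfl⟩
  · rw [a2 x hx hx' a u ha]
    refine ⟨?_, ?_⟩
    · show u ∈ ts H h T U (.c a) x false
      rw [ICVal.ts_false]
      exact (p1 x hx hx' a u ha).2 hv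
    · show (bv H U x ++ [a]) ++ u = _
      simp
  · rw [a3 x hx a u hne]
    refine ⟨?_, ?_⟩
    · show u ∈ ts H h T U (.c a) x false
      rw [ICVal.ts_false]
      exact (p3 x hx a u).2 ⟨hv, hne⟩
    · show (bv H U x ++ [a]) ++ u = _
      simp
  · obtain ⟨-, -, z0, -, z5, -, -⟩ := hZp H h T U hC x hx
    obtain ⟨a, ha, -, -⟩ := z5 0 hH
    rw [z0] at ha
    rw [(hCoB H h T U hC x hx a ha j hj).1]
    obtain ⟨m1, m2, -⟩ := (q1 x hx).2 a ha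
    refine ⟨?_, m2 j hj⟩
    show _ ∈ ts H h T U (.c a) x true
    rw [ICVal.ts_true]
    exact (m1 _).2 (Or.inl ⟨j, hj, rfl⟩)
  · obtain ⟨-, -, z0, -, z5, -, -⟩ := hZp H h T U hC x hx
    obtain ⟨a, ha, -, -⟩ := z5 0 hH
    rw [z0] at ha
    rw [(hCoB H h T U hC x hx a ha j hj).2 w]
    obtain ⟨m1, -, m3⟩ := (q1 x hx).2 a ha
    refine ⟨?_, m3 j hj w⟩
    show _ ∈ ts H h T U (.c a) x true
    rw [ICVal.ts_true]
    exact (m1 _).2 (Or.inr ⟨j, hj, w, hv, rfl⟩)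
  · rw [(hCoC H h T U hC x hx).1 k]
    exact ⟨hx, rfl⟩
  · rw [(hCoC H h T U hC x hx).2.1 k w]
    refine ⟨?_, rfl⟩
    show w ∈ ts H h T U (.e k) x false
    rw [ICVal.ts_false]
    exact (p4 x hx k w).2 hv
  · rw [((hCoC H h T U hC x hx).2.2 e he).1]
    refine ⟨⟨he, by simp, by simpa using hx⟩, rfl⟩
  · rw [((hCoC H h T U hC x hx).2.2 e he).2 w]
    refine ⟨?_, rfl⟩
    show w ∈ ts H h T U .en (x ++ [e]) false
    rw [ICVal.ts_false]
    exact (p5 x hx e he w).2 hv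

end Pool.Agent.Work.MP_bf01b2_co.La
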