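import Pool.Agent.Work.MP_bf01b2_co.La.StmtsC

/-!
# MP_bf01b2_co, theorem LARGE, item C.Zf (helper60): the crossing is on the side `false`, too
-/

set_option autoImplicit false

namespace Pool.Agent.Work.MP_bf01b2_co.La

open Pool.Agent.Work.MP_bf01b2_co.Bd

open Classical

open Pool.Agent.Work.MP_bf01b2_co.Fw (rt lf StRt StBr)

open Pool.Agent.Work.MP_bf01b2_co.Sh (sub strs cor StSub StCrp)

theorem pr_Zf (hZp : StZp) (hT0 : StT0) : StZf := by
  intro H h T U hC x hx a ha
  have hhH : h ≤ H := by have := hC.hH; omega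
  have hhH1 : h + 1 ≤ H := by have := hC.hH; omega
  obtain ⟨z1, -, -, z4, -⟩ := hZp H h T U hC x hx
  have e1 : (zp H U x h).take ((bv H U x).length + 1) = bv H U x ++ [a] := by
    rw [z4 h hhH 1 hC.hh, ha]
  have e2 : zp H U x h = bv H U x ++ a :: ze H h U x := by
    have h0 := List.take_append_drop ((bv H U x).length + 1) (zp H U x h)
    rw [e1] at h0
    rw [← h0]
    simp [ze]
  refine ⟨e2, ?_⟩
  rw [(hT0 H h T U hC).2.2.1 x hx a]
  rw [← e2]
  refine ⟨hC.hUT (z1 h hhH).1, ?_⟩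
  intro h1
  have h2 := congrArg List.length h1
  rw [List.length_take, (z1 h hhH).2.1, (z1 (h + 1) hhH1).2.1] at h2
  omega

end Pool.Agent.Work.MP_bf01b2_co.La
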