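import Pool.Agent.Work.MP_bf01b2_co.La.C_Csn
import Pool.Agent.Work.MP_bf01b2_co.La.C_Cr
import Pool.Agent.Work.MP_bf01b2_co.La.C_Ij
import Pool.Agent.Work.MP_bf01b2_co.La.C_Dec
import Pool.Agent.Work.MP_bf01b2_co.La.C_Bad
import Pool.Agent.Work.MP_bf01b2_co.La.C_Cnt
import Pool.Agent.Work.MP_bf01b2_co.La.C_Lfc
import Pool.Agent.Work.MP_bf01b2_co.La.C_Lev
import Pool.Agent.Work.MP_bf01b2_co.La.C_Bv
import Pool.Agent.Work.MP_bf01b2_co.La.C_Zp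
import Pool.Agent.Work.MP_bf01b2_co.La.C_HU
import Pool.Agent.Work.MP_bf01b2_co.La.C_CoA
import Pool.Agent.Work.MP_bf01b2_co.La.C_CoB
import Pool.Agent.Work.MP_bf01b2_co.La.C_CoC
import Pool.Agent.Work.MP_bf01b2_co.La.C_Exh
import Pool.Agent.Work.MP_bf01b2_co.La.C_T0
import Pool.Agent.Work.MP_bf01b2_co.La.C_T1
import Pool.Agent.Work.MP_bf01b2_co.La.C_Zf
import Pool.Agent.Work.MP_bf01b2_co.La.C_Val
import Pool.Agent.Work.MP_bf01b2_co.La.C_Inv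
import Pool.Agent.Work.MP_bf01b2_co.La.C_ReA
import Pool.Agent.Work.MP_bf01b2_co.La.C_ReB
import Pool.Agent.Work.MP_bf01b2_co.La.C_Cwt
import Pool.Agent.Work.MP_bf01b2_co.La.C_Len
import Pool.Agent.Work.MP_bf01b2_co.La.C_Siz
import Pool.Agent.Work.MP_bf01b2_co.La.C_Tree
import Pool.Agent.Work.MP_bf01b2_co.Fw.I_Rt
import Pool.Agent.Work.MP_bf01b2_co.Fw.I_Br
import Pool.Agent.Work.MP_bf01b2_co.Sh.G_Sub
import Pool.Agent.Work.MP_bf01b2_co.Sh.G_Crp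

/-!
# MP_bf01b2_co, theorem LARGE: the tree side, assembly
-/

set_option autoImplicit false

namespace Pool.Agent.Work.MP_bf01b2_co.La

open Pool.Agent.Work.MP_bf01b2_co.Bd

/-- The tree side. -/
theorem tree : StTree := by
  have hRt := Fw.pr_Rt
  have hBr := Fw.pr_Br
  have hSub := Sh.pr_Sub
  have hCrp := Sh.pr_Crp hSub
  have hCsn := pr_Csn
  have hCr := pr_Cr hRt hCsn
  have hIj := pr_Ij hRt hCsn hCr
  have hDec := pr_Dec hRt hCsn hCr hIj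
  have hBad := pr_Bad hRt
  have hCnt := pr_Cnt hRt hCr hBr hBad
  have hLfc := pr_Lfc hSub hCrp
  have hLev := pr_Lev hRt hCsn
  have hBv := pr_Bv hRt hCsn hCr hDec hLev
  have hZp := pr_Zp hRt hCr hIj hDec hBv
  have hHU := pr_HU
  have hCoA := pr_CoA hBv hZp hHU
  have hCoB := pr_CoB hZp hHU
  have hCoC := pr_CoC hZp hHU
  have hExh := pr_Exh hBv hZp hHU
  have hT0 := pr_T0 hSub hBv hZp
  have hT1 := pr_T1 hSub hZp
  have hZf := pr_Zf hZp hT0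
  have hVal := pr_Val hZp hCoA hCoB hCoC hExh hT0 hT1
  have hInv := pr_Inv hBv hZp hCoA hCoB hCoC hT0 hT1
  have hReA := pr_ReA hBv hZp hCoA hCoB hCoC hT0 hT1 hZf
  have hReB := pr_ReB hBv hZp hCoA hCoB hCoC hExh hT0 hT1
  have hCwt := pr_Cwt hInv
  have hLen := pr_Len hSub hCrp hZp hHU hT0 hT1
  have hSiz := pr_Siz hCnt hLfc hCrp
  exact pr_Tree hDec hT0 hT1 hZf hVal hReA hReB hCwt hLen hSiz hCrp

end Pool.Agent.Work.MP_bf01b2_co.La
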