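import Pool.Agent.Work.MP_bf01b2_co.La.StmtsM

/-!
# MP_bf01b2_co, theorems LARGE and D for trees: from prefix closed sets to graphs
-/

set_option autoImplicit false

namespace Pool.Agent.Work.MP_bf01b2_co.La

open Pool.Agent.Work.MP_bf01b2_co.Bd

open Pool.Agent.Work.MP_bf01b2_co.Sh (StTrR)

/-- Theorem D for trees. -/
def StFinD : Prop := ∀ δ : ℝ, 0 < δ → ∃ n0 : ℕ, ∀ n : ℕ, n0 ≤ n →
  ∀ (V : Type) [Fintype V] [DecidableEq V] (G : SimpleGraph V) [DecidableRel G.Adj],
    G.IsTree → (∀ v : V, G.degree v ≤ 3) → ∀ C : G.Coloring Bool,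
    (∀ b : Bool, ((Finset.univ.filter fun v => C v = b).card : ℝ) ≤ (1 - δ) * 2 ^ n) →
      ∃ f : G →g SimpleGraph.fromRel (fun x y : Fin (n + 1) → Bool => hammingDist x y = 1),
        Function.Injective f

/-- Theorem LARGE for trees. -/
def StFin : Prop := ∃ n0 : ℕ, ∀ n : ℕ, n0 ≤ n →
  ∀ (V : Type) [Fintype V] [DecidableEq V] (G : SimpleGraph V) [DecidableRel G.Adj],
    G.IsTree → (∀ v : V, G.degree v ≤ 3) → Fintype.card V ≤ 2 ^ n →
      ∃ f : G →g SimpleGraph.fromRel (fun x y : Fin (n + 1) → Bool => hammingDist x y = 1),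
        Function.Injective f

namespace IFin

/-- a root of degree at most two -/
theorem root (V : Type) [Fintype V] [DecidableEq V] (G : SimpleGraph V) [DecidableRel G.Adj]
    (hG : G.IsTree) : ∃ r : V, G.degree r ≤ 2 := by
  have hcard : G.edgeFinset.card + 1 = Fintype.card V := hG.card_edgeFinset
  by_contra hcon
  push Not at hcon
  have h1 := G.sum_degrees_eq_twice_card_edges
  have h2 : ∑ _v : V, 2 ≤ ∑ v : V, G.degree v := Finset.sum_le_sum fun v _ => (hcon v).le
  rw [Finset.sum_const, Finset.card_univ, smul_eq_mul] at h2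
  omega

/-- the image of the strings is prefix closed -/
theorem closed {V : Type} [Fintype V] [DecidableEq V] (s : V → List Bool)
    (hpre : ∀ (v : V) (k : ℕ), ∃ u, s u = (s v).take k) :
    Bd.PrefClosed (Finset.univ.image s) := by
  intro v hv k
  obtain ⟨a, -, rfl⟩ := Finset.mem_image.mp hv
  obtain ⟨u, hu⟩ := hpre a k
  exact Finset.mem_image.mpr ⟨u, Finset.mem_univ _, hu⟩

/-- the homomorphism -/
theorem hom {V : Type} [Fintype V] [DecidableEq V] (G : SimpleGraph V) (s : V → List Bool)
    (hs : Function.Injective s)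
    (hadj : ∀ u v, G.Adj u v → (∃ e, s v = s u ++ [e]) ∨ (∃ e, s u = s v ++ [e])) (m : ℕ)
    (c : List Bool → Fin m → Bool)
    (hc1 : ∀ u ∈ Finset.univ.image s, ∀ v ∈ Finset.univ.image s, c u = c v → u = v)
    (hc2 : ∀ v e, v ++ [e] ∈ Finset.univ.image s → hammingDist (c v) (c (v ++ [e])) = 1) :
    ∃ f : G →g SimpleGraph.fromRel (fun x y : Fin m → Bool => hammingDist x y = 1),
      Function.Injective f := by
  have hT : ∀ v, s v ∈ Finset.univ.image s := fun v =>
    Finset.mem_image.mpr ⟨v, Finset.mem_univ _, rfl⟩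
  have hinj : Function.Injective fun v => c (s v) := by
    intro u v huv
    exact hs (hc1 _ (hT u) _ (hT v) huv)
  refine ⟨⟨fun v => c (s v), ?_⟩, hinj⟩
  intro a b hab
  rw [SimpleGraph.fromRel_adj]
  refine ⟨fun h => hab.ne (hinj h), ?_⟩
  rcases hadj a b hab with ⟨e, he⟩ | ⟨e, he⟩
  · left
    have h6 := hc2 (s a) e (he ▸ hT b)
    rw [← he] at h6
    exact h6
  · right
    have h6 := hc2 (s b) e (he ▸ hT a)
    rw [← he] at h6
    exact h6

/-- the colour of a vertex in terms of its level -/
theorem colour {V : Type} [Fintype V] [DecidableEq V] (G : SimpleGraph V) (s : V → List Bool)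
    (hs : Function.Injective s)
    (hpre : ∀ (v : V) (k : ℕ), ∃ u, s u = (s v).take k)
    (hadj2 : ∀ u v e, s u = s v ++ [e] → G.Adj v u) (C : G.Coloring Bool) (r : V)
    (hr : s r = []) :
    ∀ (k : ℕ) (v : V), (s v).length = k → (C v = C r ↔ (k : ZMod 2) = 0) := by
  intro k
  induction k with
  | zero =>
    intro v hv
    have h1 : v = r := hs (by rw [hr]; exact List.length_eq_zero_iff.1 hv)
    simp [h1]
  | succ k ih =>
    intro v hv
    obtain ⟨u, hu⟩ := hpre v k
    have hul : (s u).length = k := by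
      rw [hu, List.length_take]; omega
    have hvu : ∃ e, s v = s u ++ [e] := by
      refine ⟨(s v).getLast (by intro h; rw [h] at hv; simp at hv), ?_⟩
      rw [hu]
      have h2 : (s v).take k = (s v).dropLast := by
        rw [List.dropLast_eq_take, hv]; rfl
      rw [h2]
      exact (List.dropLast_append_getLast _).symm
    obtain ⟨e, he⟩ := hvu
    have h3 : C u ≠ C v := C.valid (hadj2 v u e he)
    have h4 := ih u hul
    have h5 : ∀ z : ZMod 2, (z + 1 = 0 ↔ ¬ z = 0) := by decide
    have h6 : (C v = C r ↔ ¬ C u = C r) := by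
      revert h3
      cases C u <;> cases C v <;> cases C r <;> simp
    rw [h6, h4]
    push_cast
    exact (h5 _).symm

end IFin

open IFin in
/-- Theorem D for trees -/
theorem pr_FinD (hPre : StPreD) (hTrR : StTrR) : StFinD := by
  intro δ hδ
  obtain ⟨n0, hn0⟩ := hPre δ hδ
  refine ⟨n0, ?_⟩
  intro n hn V _ _ G _ hG hdeg C hC
  obtain ⟨r, hr⟩ := root V G hG
  obtain ⟨s, hs, hpre, hadj, hadj2, hsr, -⟩ := hTrR V G hG hdeg r hr
  have hcol := colour G s hs hpre hadj2 C r hsr
  obtain ⟨c, hc1, hc2⟩ := hn0 n hn (Finset.univ.image s) (closed s hpre) (by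
    intro d
    refine le_trans ?_ (hC (if d = 0 then C r else !(C r)))
    have h1 : ((Finset.univ.image s).filter fun v => (v.length : ZMod 2) = d) =
        (Finset.univ.filter fun v => C v = if d = 0 then C r else !(C r)).image s := by
      ext x
      simp only [Finset.mem_filter, Finset.mem_image, Finset.mem_univ, true_and]
      have key : ∀ v, ((s v).length : ZMod 2) = d ↔ C v = if d = 0 then C r else !(C r) := by
        intro v
        have h2 := hcol _ v rfl
        have h3 : ∀ z w : ZMod 2, z = w ↔ (z = 0 ↔ w = 0) := by decide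
        by_cases hd : d = 0
        · rw [if_pos hd, h2, hd]
        · rw [if_neg hd, h3]
          have h4 : (C v = !(C r)) ↔ ¬ C v = C r := by
            cases C v <;> cases C r <;> simp
          rw [h4, h2]
          tauto
      constructor
      · rintro ⟨⟨v, rfl⟩, hv⟩
        exact ⟨v, (key v).1 hv, rfl⟩
      · rintro ⟨v, hv, rfl⟩
        exact ⟨⟨v, rfl⟩, (key v).2 hv⟩
    have h2 : ((Finset.univ.image s).filter fun v => (v.length : ZMod 2) = d).card ≤
        (Finset.univ.filter fun v => C v = if d = 0 then C r else !(C r)).card := by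
      rw [h1]
      exact Finset.card_image_le
    have h3 := h2
    norm_cast)
  exact hom G s hs hadj (n + 1) c hc1 hc2

open IFin in
/-- Theorem LARGE for trees -/
theorem pr_Fin (hPre : StPre) (hTrR : StTrR) : StFin := by
  obtain ⟨n0, hn0⟩ := hPre
  refine ⟨n0, ?_⟩
  intro n hn V _ _ G _ hG hdeg hcard
  obtain ⟨r, hr⟩ := root V G hG
  obtain ⟨s, hs, hpre, hadj, -, -, -⟩ := hTrR V G hG hdeg r hr
  obtain ⟨c, hc1, hc2⟩ := hn0 n hn (Finset.univ.image s) (closed s hpre)
    (Finset.card_image_le.trans hcard)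
  exact hom G s hs hadj (n + 1) c hc1 hc2

end Pool.Agent.Work.MP_bf01b2_co.La
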