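import Pool.Agent.Work.MP_bf01b2_co.La.StmtsM

/-!
# MP_bf01b2_co, block La, item M.CnwL: the vertices of the pieces, counted by types
-/

set_option autoImplicit false

namespace Pool.Agent.Work.MP_bf01b2_co.La

open Pool.Agent.Work.MP_bf01b2_co.Bd

open Classical

open Pool.Agent.Work.MP_bf01b2_co.Sh (Vc un par syn Ad Ust pd Bad ct1 Ky Nw2 Fits2 strs StTile2
  StBrg StPtC StPrt StCb2 StShp)

namespace IMCnwL

theorem zf (c0 a k c l : ZMod 2) :
    l = c0 + a + 1 + k + c ↔ a + 1 + k + 0 + l = c0 + c := by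
  revert c0 a k c l; decide

theorem zt (c0 a k c l : ZMod 2) :
    l + 1 = c0 + a + 1 + k + c ↔ a + 1 + k + 1 + l = c0 + c := by
  revert c0 a k c l; decide

/-- the number of vertices of the class `c` in the piece of type `w` at `x` -/
theorem key {L : ℕ} (X : Finset (List Bool))
    (ts : Tag → List Bool → Bool → Finset (List Bool)) (ze : List Bool → List Bool)
    (c0 c : ZMod 2) (w : WL L) (x : List Bool) (hx : x ∈ KL X ts ze w) :
    Nw2 tw (dwL c0) w c = ∑ s : Bool, ((ts w.1.1 x s).filter fun u =>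
      (x.length : ZMod 2) + 1 + kp w.1.1 + sd s + (u.length : ZMod 2) = c0 + c).card := by
  unfold KL at hx
  rw [Finset.mem_filter] at hx
  obtain ⟨-, ⟨hpar, hts, -⟩, -⟩ := hx
  have hp : ((w.1.2.1 : ℕ) : ZMod 2) = (x.length : ZMod 2) := by
    rw [← hpar, ZMod.natCast_mod]
  rw [Fintype.sum_bool, hts true, hts false, add_comm]
  unfold Nw2
  have e1 : ((tw w false).filter fun u => (u.length : ZMod 2) = dwL c0 w + c) =
      (tw w false).filter fun u =>
        (x.length : ZMod 2) + 1 + kp w.1.1 + sd false + (u.length : ZMod 2) = c0 + c := by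
    apply Finset.filter_congr
    intro u _
    unfold dwL
    rw [hp]
    exact zf c0 _ _ c _
  have e2 : ((tw w true).filter fun u => (u.length : ZMod 2) + 1 = dwL c0 w + c) =
      (tw w true).filter fun u =>
        (x.length : ZMod 2) + 1 + kp w.1.1 + sd true + (u.length : ZMod 2) = c0 + c := by
    apply Finset.filter_congr
    intro u _
    unfold dwL
    rw [hp]
    exact zt c0 _ _ c _
  rw [e1, e2]

end IMCnwL

open IMCnwL in
theorem pr_CnwL (h : StTyL) : StCnwL := by
  intro M L X G ts ze c0 c hS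
  set F : Tag × List Bool → ℕ := fun q => ∑ s : Bool, ((ts q.1 q.2 s).filter fun u =>
    (q.2.length : ZMod 2) + 1 + kp q.1 + sd s + (u.length : ZMod 2) = c0 + c).card with hF
  have hinj : Set.InjOn (fun p : (Σ _ : WL L, List Bool) => (p.1.1.1, p.2))
      (((Finset.univ : Finset (WL L)).sigma fun w => KL X ts ze w : Finset _) : Set _) := by
    rintro ⟨w, x⟩ hw ⟨w', x'⟩ hw' he
    rw [Finset.mem_coe, Finset.mem_sigma] at hw hw'
    simp only [Prod.mk.injEq] at he hw hw'
    obtain ⟨he1, he2⟩ := he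
    subst he2
    obtain rfl := (h M L X G ts ze hS).2 w w' x hw.2 hw'.2 he1
    rfl
  calc ∑ w : WL L, (KL X ts ze w).card * Nw2 tw (dwL c0) w c
      = ∑ w : WL L, ∑ x ∈ KL X ts ze w, F (w.1.1, x) := by
        refine Finset.sum_congr rfl fun w _ => ?_
        rw [← smul_eq_mul, ← Finset.sum_const]
        exact Finset.sum_congr rfl fun x hx => key X ts ze c0 c w x hx
    _ = ∑ p ∈ (Finset.univ : Finset (WL L)).sigma fun w => KL X ts ze w, F (p.1.1.1, p.2) := by
        rw [Finset.sum_sigma]
    _ = ∑ q ∈ ((Finset.univ : Finset (WL L)).sigma fun w => KL X ts ze w).image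
          fun p => (p.1.1.1, p.2), F q := by
        rw [Finset.sum_image hinj]
    _ ≤ ∑ q ∈ (Finset.univ : Finset Tag) ×ˢ X, F q := by
        apply Finset.sum_le_sum_of_subset
        intro q hq
        rw [Finset.mem_image] at hq
        obtain ⟨p, hp, rfl⟩ := hq
        rw [Finset.mem_sigma] at hp
        rw [Finset.mem_product]
        refine ⟨Finset.mem_univ _, ?_⟩
        have hp2 := hp.2
        unfold KL at hp2
        exact (Finset.mem_filter.1 hp2).1
    _ = ∑ g : Tag, ∑ x ∈ X, F (g, x) := by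
        rw [Finset.sum_product]

end Pool.Agent.Work.MP_bf01b2_co.La
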