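import Pool.Agent.Work.MP_bf01b2_co.La.StmtsM

/-!
# MP_bf01b2_co, theorem LARGE, item GluL: gluing of the core, the bridge and the tiles
-/

set_option autoImplicit false

namespace Pool.Agent.Work.MP_bf01b2_co.La

open Pool.Agent.Work.MP_bf01b2_co.Bd

open Classical

open Pool.Agent.Work.MP_bf01b2_co.Sh (Vc un par syn Ad Ust pd Bad ct1 Ky Nw2 Fits2 strs StTile2
  StBrg StPtC)

namespace IMGluL

theorem par_add {n : ℕ} (x y : Vc n) : par (x + y) = par x + par y := by
  unfold par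
  rw [← Finset.sum_add_distrib]
  rfl

theorem par_single {n : ℕ} (i : Fin n) : par (Pi.single i 1 : Vc n) = 1 := by
  unfold par
  rw [Finset.sum_pi_single']
  simp

theorem card_fib {W : Type} [Fintype W] {β : W → Type} [∀ w, Fintype (β w)] (w : W) :
    (Finset.univ.filter fun x : Σ w, β w => x.1 = w).card = Fintype.card (β w) := by
  have h : (Finset.univ.filter fun x : Σ w, β w => x.1 = w) =
      (Finset.univ : Finset (β w)).map ⟨Sigma.mk w, sigma_mk_injective⟩ := by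
    ext ⟨a, c⟩
    simp only [Finset.mem_filter, Finset.mem_univ, true_and, Finset.mem_map,
      Function.Embedding.coeFn_mk]
    constructor
    · intro h
      subst h
      exact ⟨c, rfl⟩
    · rintro ⟨c', hc'⟩
      exact (congrArg Sigma.fst hc').symm
  rw [h, Finset.card_map, Finset.card_univ]

theorem card_key {W : Type} [Fintype W] (M J : ℕ) (b : W → ℕ) (w : W) :
    (Finset.univ.filter fun x : Ky W M J b => x.1 = w).card = b w * (2 ^ M * J) := by
  rw [card_fib (β := fun w => (Vc M × Fin J) × Fin (b w)) w]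
  rw [Fintype.card_prod, Fintype.card_prod, Fintype.card_fun, Fintype.card_fin, Fintype.card_fin,
    Fintype.card_fin, ZMod.card]
  ring

theorem nonempty_WL (L : ℕ) : Nonempty (WL L) := by
  have h1 : (∅ : Finset (List Bool)) ∈ pcs L := by
    rw [pcs, Finset.mem_filter, Finset.mem_powerset]
    exact ⟨Finset.empty_subset _, fun v hv => absurd hv (Finset.notMem_empty v)⟩
  have h2 : ([] : List Bool) ∈ strs L := by
    rw [strs, Finset.mem_biUnion]
    refine ⟨0, Finset.mem_range.2 (Nat.succ_pos L), Finset.mem_image.2 ⟨Fin.elim0, ?_, ?_⟩⟩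
    · exact Finset.mem_univ _
    · exact List.ofFn_zero
  exact ⟨((.en, 0), ((⟨∅, h1⟩, ⟨∅, h1⟩), ⟨[], h2⟩))⟩

theorem ofs_mod (m0 M : ℕ) (k : Fin 3) (n n' : ℕ) (h : n % 2 = n') :
    ofs m0 M (.e k) n' = ofs m0 M (.e k) n := by
  subst h
  simp [ofs]

theorem tw_pc {L : ℕ} (w : WL L) (s : Bool) : Bd.PrefClosed (tw w s) := by
  cases s
  · exact (Finset.mem_filter.1 w.2.1.1.2).2
  · exact (Finset.mem_filter.1 w.2.1.2.2).2

end IMGluL

open IMGluL in
theorem pr_GluL (h1 : StTile2) (h2 : StBrg) (h3 : StMapL) (h4 : StOfs) (h5 : StTyL)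
    (h6 : StPtC) : StGluL := by
  intro R M m0 J L k N1 X G ts ze Φ lm b sy lam ρ hM hJ hS hN hcls hzero hstep hinj hlam hρ hct
    hctX hfits hnum
  have two : (2 : ZMod 2) = 0 := rfl
  have hsy : ∀ s : Vc (k + 1), ∃ i, sy i = s := by
    intro s
    by_cases hs : s = 0
    · rw [hs]; exact hzero
    · have h := hcls s hs
      have h' : (Finset.univ.filter fun i => sy i = s).Nonempty := by
        rw [← Finset.card_pos, h]; exact hN
      obtain ⟨i, hi⟩ := h'
      exact ⟨i, (Finset.mem_filter.1 hi).2⟩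
  obtain ⟨o1, o2, o3, o4, o5, o6, o7, o8, o9, o10, o11⟩ := h4 m0 M (by omega)
  obtain ⟨c0, hc0⟩ : ∃ c0 : ZMod 2, par (Φ []) + par (lm []) = c0 := ⟨_, rfl⟩
  rw [hc0] at hfits
  obtain ⟨Sg, Cx, F, hSg, hCx, hF1, hF2⟩ := h1 (WL L) R k M (m0 + 2) J b tw (fun w => w.2.2.1)
    (fun w => ofs m0 M (.e 0) w.1.2.1) ⟨m0, by omega⟩ (dwL c0) sy (by omega) hJ
    (by change m0 < m0 + 2; omega) tw_pc
    (fun w => (o11 w.1.2.1).1)
    (fun w => by
      obtain ⟨ψ, h, h'⟩ := (o11 w.1.2.1).2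
      exact ⟨ψ, Fin.lt_def.2 h, h'⟩)
    (fun w => by
      rw [o1]
      simp [kp]) hfits hsy
  obtain ⟨p, ξ, hp⟩ := h2 (WL L) (Ky (WL L) M J b) R (k + 1) N1 (2 ^ (2 * M + 2)) sy Φ X
    (KL X ts ze) (fun x => x.1) Sg Cx lam ρ hN hcls hSg hlam hρ hct hctX hCx (by
      intro w
      rw [card_key]
      have h := hnum w
      push_cast at h ⊢
      exact h)
  have hpar : ∀ w, ∀ v ∈ KL X ts ze w, par (pd M (lm v) + ofs m0 M w.1.1 v.length) =
      dwL c0 (ξ w v).1 + par (p w v) := by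
    intro w v hv
    obtain ⟨e1, -, ⟨i, e3⟩, -, -⟩ := hp w v hv
    have e1' : (ξ w v).1 = w := e1
    have hv' := Finset.mem_filter.1 hv
    have hlen : (v.length : ZMod 2) = (w.1.2.1 : ZMod 2) := by
      have h := hv'.2.1.1
      rw [← h]
      exact (ZMod.natCast_mod v.length 2).symm
    have e4 := h6 R m0 X Φ lm hS.hX hstep v hv'.1
    rw [e1', e3, par_add, par_add, par_single, o10, o1, dwL]
    rw [hlen, hc0] at e4
    linear_combination e4 - (par (Φ v) + 1) * two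
  have hex : ∀ g x, ∃ w : WL L, (∃ s, (ts g x s).Nonempty) → w.1.1 = g ∧ x ∈ KL X ts ze w := by
    intro g x
    by_cases h : ∃ s, (ts g x s).Nonempty
    · obtain ⟨w, hw⟩ := (h5 M L X G ts ze hS).1 g x h
      exact ⟨w, fun _ => hw⟩
    · exact ⟨(nonempty_WL L).some, fun h' => absurd h' h⟩
  choose wt hwt using hex
  have hty : ∀ g x s u, u ∈ ts g x s → (wt g x).1.1 = g ∧ x ∈ KL X ts ze (wt g x) ∧
      (∀ s, ts g x s = tw (wt g x) s) ∧ x.length % 2 = (wt g x).1.2.1 ∧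
      (wt g x).2.2.1 = if (ts g x true).Nonempty then ze x else [] := by
    intro g x s u hu
    obtain ⟨e1, e2⟩ := hwt g x ⟨s, u, hu⟩
    have e3 := (Finset.mem_filter.1 e2).2.1
    rw [Hty, e1] at e3
    exact ⟨e1, e2, e3.2.1, e3.1, e3.2.2⟩
  have hparQ : ∀ g x s u, u ∈ ts g x s → par (pd M (lm x) + ofs m0 M g x.length) =
      dwL c0 (ξ (wt g x) x).1 + par (p (wt g x) x) := by
    intro g x s u hu
    obtain ⟨e1, e2, -⟩ := hty g x s u hu
    have h := hpar _ _ e2
    rw [e1] at h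
    exact h
  refine h3 R M m0 L X G ts ze Φ lm
    (fun g x s u => (p (wt g x) x + (F (ξ (wt g x) x) (par (p (wt g x) x))
      (pd M (lm x) + ofs m0 M g x.length) s u).1,
      (F (ξ (wt g x) x) (par (p (wt g x) x)) (pd M (lm x) + ofs m0 M g x.length) s u).2))
    (by omega) hS hstep hinj ?_ ?_ ?_ ?_ ?_ ?_
  · intro g x hx
    obtain ⟨e1, e2, -⟩ := hty g x false [] hx
    obtain ⟨-, -, ⟨i, f3⟩, -, -⟩ := hp _ _ e2
    have hF := (hF1 (ξ (wt g x) x) (par (p (wt g x) x)) _ (hparQ g x false [] hx)).1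
    refine ⟨congrArg Prod.snd hF, i, ?_⟩
    change p (wt g x) x + (F _ _ _ false []).1 = _
    rw [hF, add_zero]
    exact f3
  · intro g x hx
    obtain ⟨e1, e2, e3, e4, e5⟩ := hty g x true [] hx
    obtain ⟨f1, -, ⟨i, f3⟩, -, -⟩ := hp _ _ e2
    have f1' : (ξ (wt g x) x).1 = wt g x := f1
    have hF := (hF1 (ξ (wt g x) x) (par (p (wt g x) x)) _ (hparQ g x true [] hx)).2.1
    obtain ⟨-, ⟨a, ha⟩, -⟩ := hS.one g x ⟨[], hx⟩
    refine ⟨?_, i, ?_⟩
    · change (F _ _ _ true []).2 = _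
      rw [hF]
      change pd M (lm x) + ofs m0 M g x.length + ofs m0 M (.e 0) (ξ (wt g x) x).1.1.2.1 = _
      rw [f1', ofs_mod m0 M 0 _ _ e4, ha]
      simp [ofs]
    · change p (wt g x) x + (F _ _ _ true []).1 = _
      rw [hF, add_zero]
      exact f3
  · intro g x s u e hu
    obtain ⟨e1, e2, e3, -⟩ := hty g x s _ hu
    obtain ⟨f1, -⟩ := hp _ _ e2
    have f1' : (ξ (wt g x) x).1 = wt g x := f1
    have hF := (hF1 (ξ (wt g x) x) (par (p (wt g x) x)) _ (hparQ g x s _ hu)).2.2.1 s u e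
      (by rw [f1', ← e3]; exact hu)
    rcases hF with ⟨j, hj⟩ | ⟨j, hj⟩
    · left
      have h := congrArg Prod.fst hj
      have h' := congrArg Prod.snd hj
      refine ⟨j, ?_, h'⟩
      change p (wt g x) x + (F _ _ _ s (u ++ [e])).1 =
        p (wt g x) x + (F _ _ _ s u).1 + Pi.single j 1
      rw [add_assoc]
      exact congrArg (fun z => p (wt g x) x + z) h
    · right
      have h := congrArg Prod.fst hj
      have h' := congrArg Prod.snd hj
      refine ⟨j, ?_, h'⟩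
      exact congrArg (fun z => p (wt g x) x + z) h
  · intro g x hx
    obtain ⟨e1, e2, e3, e4, e5⟩ := hty g x true _ hx
    obtain ⟨f1, -⟩ := hp _ _ e2
    have f1' : (ξ (wt g x) x).1 = wt g x := f1
    obtain ⟨-, -, g1, g2, g3⟩ := hS.one g x ⟨_, hx⟩
    rw [if_pos ⟨_, hx⟩] at e5
    have hF := (hF1 (ξ (wt g x) x) (par (p (wt g x) x)) _ (hparQ g x true _ hx)).2.2.2.1
    simp only [f1', e5] at hF
    have hF' := hF g1 (by rw [← e3]; exact g2) (by rw [← e3]; exact g3)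
    right
    refine ⟨⟨m0, by omega⟩, ?_, ?_⟩
    · exact congrArg (fun z => p (wt g x) x + z.1) hF'
    · exact congrArg Prod.snd hF'
  · intro g x s u hu
    obtain ⟨e1, e2, e3, -⟩ := hty g x s _ hu
    obtain ⟨f1, -, -, f4, -⟩ := hp _ _ e2
    have f1' : (ξ (wt g x) x).1 = wt g x := f1
    have hF := (hF1 (ξ (wt g x) x) (par (p (wt g x) x)) _ (hparQ g x s _ hu)).2.2.2.2 s u
      (by rw [f1', ← e3]; exact hu)
    rcases hF with h | h
    · left
      exact h
    · right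
      intro y hy hne
      exact f4 _ h y hy hne.symm
  · intro g x s g' x' s' u hu u' hu' hQ
    obtain ⟨e1, e2, e3, -⟩ := hty g x s _ hu
    obtain ⟨e1', e2', e3', -⟩ := hty g' x' s' _ hu'
    obtain ⟨f1, f2, -, -, f5⟩ := hp _ _ e2
    obtain ⟨f1', f2', -, -, -⟩ := hp _ _ e2'
    have q1 : (ξ (wt g x) x).1 = wt g x := f1
    have q1' : (ξ (wt g' x') x').1 = wt g' x' := f1'
    have k1 := congrArg Prod.fst hQ
    have k2 := congrArg Prod.snd hQ
    obtain ⟨g1, g2, g3⟩ := hF2 (ξ (wt g x) x) (ξ (wt g' x') x') (par (p (wt g x) x))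
      (par (p (wt g' x') x')) (pd M (lm x) + ofs m0 M g x.length)
      (pd M (lm x') + ofs m0 M g' x'.length) (p (wt g x) x) (p (wt g' x') x') s s'
      u (by rw [q1, ← e3]; exact hu) u' (by rw [q1', ← e3']; exact hu')
      (hparQ g x s u hu) (hparQ g' x' s' u' hu') f2 f2' rfl rfl k1 k2
    obtain ⟨g4, g5⟩ := f5 _ _ e2' g2
    have g6 : g = g' := by rw [← e1, ← e1', g4]
    subst g5
    subst g6
    obtain ⟨g7, g8⟩ := g3 rfl
    exact ⟨rfl, rfl, g7, g8⟩

end Pool.Agent.Work.MP_bf01b2_co.La
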