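import Pool.Agent.Work.MP_bf01b2_co.La.StmtsM

/-!
# MP_bf01b2_co, theorem LARGE, item ItmL: the number of pieces
-/

set_option autoImplicit false

namespace Pool.Agent.Work.MP_bf01b2_co.La

open Pool.Agent.Work.MP_bf01b2_co.Bd

open Classical

open Pool.Agent.Work.MP_bf01b2_co.Sh (Vc un par syn Ad Ust pd Bad ct1 Ky Nw2 Fits2 strs StTile2
  StBrg StPtC StPrt StCb2 StShp)

namespace IMItmL

/-- counting by the fibres of a map to a finite type -/
theorem sum_le_of_fibres {W Y : Type} [Fintype W] [Fintype Y] (f : W → Y)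
    (K : W → Finset (List Bool)) (X : Finset (List Bool)) (hK : ∀ w, K w ⊆ X)
    (hd : ∀ w w' x, x ∈ K w → x ∈ K w' → f w = f w' → w = w') :
    ∑ w : W, (K w).card ≤ Fintype.card Y * X.card := by
  have hsum : ∀ g : Y, ∑ w ∈ Finset.univ.filter (fun w => f w = g), (K w).card ≤ X.card := by
    intro g
    rw [← Finset.card_biUnion]
    · refine Finset.card_le_card ?_
      intro x hx
      rw [Finset.mem_biUnion] at hx
      obtain ⟨w, -, hx⟩ := hx
      exact hK w hx
    · intro w hw w' hw' hne
      have hw1 : f w = g := (Finset.mem_filter.1 (Finset.mem_coe.1 hw)).2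
      have hw2 : f w' = g := (Finset.mem_filter.1 (Finset.mem_coe.1 hw')).2
      refine Finset.disjoint_left.2 ?_
      intro x hx hx'
      exact hne (hd w w' x hx hx' (hw1.trans hw2.symm))
  calc ∑ w : W, (K w).card
      = ∑ g : Y, ∑ w ∈ Finset.univ.filter (fun w => f w = g), (K w).card :=
        (Finset.sum_fiberwise Finset.univ f fun w => (K w).card).symm
    _ ≤ ∑ _g : Y, X.card := Finset.sum_le_sum fun g _ => hsum g
    _ = Fintype.card Y * X.card := by
        rw [Finset.sum_const, Finset.card_univ, smul_eq_mul]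

end IMItmL

open IMItmL in
theorem pr_ItmL (h : StTyL) : StItmL := by
  intro M L X G ts ze hS
  obtain ⟨-, h2⟩ := h M L X G ts ze hS
  have h3 := sum_le_of_fibres (fun w : WL L => w.1.1) (fun w => KL X ts ze w) X
    (fun w x hx => (Finset.mem_filter.1 hx).1) h2
  have h4 : Fintype.card Tag = 6 := by decide
  rw [h4] at h3
  exact h3

end Pool.Agent.Work.MP_bf01b2_co.La
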