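import Pool.Agent.Work.MP_bf01b2_co.La.StmtsM

/-!
# MP_bf01b2_co, theorem LARGE, item MapL: the positions of the cells
-/

set_option autoImplicit false

namespace Pool.Agent.Work.MP_bf01b2_co.La

open Pool.Agent.Work.MP_bf01b2_co.Bd

open Classical

open Pool.Agent.Work.MP_bf01b2_co.Sh (Vc un par syn Ad Ust pd Bad ct1 Ky Nw2 Fits2 strs StTile2
  StBrg StPtC StPrt StCb2 StShp)

namespace IMMapL

/-- the positions -/
noncomputable def posP {R M m0 : ℕ} (Φ : List Bool → Vc R) (lm : List Bool → Vc m0)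
    (Q : Tag → List Bool → Bool → List Bool → Vc R × Vc M) : Cd → Vc R × Vc M
  | .cor x => (Φ x, pd M (lm x))
  | .e k x => (Φ x, pd M (lm x) + ofs m0 M (.e k) x.length)
  | .en x => (Φ x, pd M (lm x) + ofs m0 M .en x.length)
  | .pc g x s u => Q g x s u

theorem Pbc {R M m0 : ℕ} (Φ : List Bool → Vc R) (lm : List Bool → Vc m0)
    (Q : Tag → List Bool → Bool → List Bool → Vc R × Vc M) (g : Tag) (x : List Bool) :
    posP Φ lm Q (bc g x) = (Φ x, pd M (lm x) + ofs m0 M g x.length) := by
  cases g with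
  | c a => simp [bc, posP, ofs]
  | e k => rfl
  | en => rfl

theorem form {X G : Finset (List Bool)} {ts : Tag → List Bool → Bool → Finset (List Bool)}
    (hG : G ⊆ X) (c : Cd) (hc : Vd X G ts c) :
    (∃ g x, x ∈ X ∧ c = bc g x) ∨ ∃ g x s u, u ∈ ts g x s ∧ c = .pc g x s u := by
  cases c with
  | cor x => exact Or.inl ⟨.c false, x, hc, rfl⟩
  | e k x => exact Or.inl ⟨.e k, x, hG hc, rfl⟩
  | en x => exact Or.inl ⟨.en, x, hc.1, rfl⟩
  | pc g x s u => exact Or.inr ⟨g, x, s, u, hc, rfl⟩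

theorem ss {n : ℕ} (v : Vc n) (i : Fin n) : v + Pi.single i 1 + Pi.single i 1 = v := by
  have h : (Pi.single i (1 : ZMod 2) : Vc n) + Pi.single i 1 = 0 := by
    rw [← Pi.single_add]
    have : (1 : ZMod 2) + 1 = 0 := by decide
    rw [this, Pi.single_zero]
  rw [add_assoc, h, add_zero]

end IMMapL

open IMMapL

theorem pr_MapL (h : StOfs) : StMapL := by
  intro R M m0 L X G ts ze Φ lm Q hM hS hcore hinj hrt hpe hst hcr hbad hQ
  obtain ⟨-, o2, o3, o4, o5, o6, o7, o8, o9, -, -⟩ := h m0 M hM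
  have hcc : ∀ x y : List Bool, x ∈ X → y ∈ X → ∀ g g' : Tag,
      posP Φ lm Q (bc g x) = posP Φ lm Q (bc g' y) → bc g x = bc g' y := by
    intro x y hx hy g g' he
    rw [Pbc, Pbc, Prod.mk.injEq] at he
    obtain ⟨e1, e2⟩ := he
    obtain ⟨e3, e4⟩ := o3 _ _ _ _ _ _ e2
    have e5 : x = y := hinj x hx y hy e1 e3
    subst e5
    cases g with
    | c a =>
      cases g' with
      | c a' => rfl
      | e k => exact absurd e4.symm (o5 k x.length).1
      | en => exact absurd e4.symm (o5 0 x.length).2.1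
    | e k =>
      cases g' with
      | c a' => exact absurd e4 (o5 k x.length).1
      | e k' => rw [o4 k k' x.length e4]
      | en => exact absurd e4 (o5 k x.length).2.2
    | en =>
      cases g' with
      | c a' => exact absurd e4 (o5 0 x.length).2.1
      | e k => exact absurd e4.symm (o5 k x.length).2.2
      | en => rfl
  have hcp : ∀ (x : List Bool), x ∈ X → ∀ g g' y s u, u ∈ ts g' y s →
      posP Φ lm Q (bc g x) ≠ posP Φ lm Q (.pc g' y s u) := by
    intro x hx g g' y s u hu he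
    rw [Pbc] at he
    have he' : (Φ x, pd M (lm x) + ofs m0 M g x.length) = Q g' y s u := he
    rcases hbad g' y s u hu with hb | hb
    · apply hb
      rw [← he']
      exact o2 _ _ _
    · apply hb x hx
      rw [← he']
  have hstep : ∀ (y : List Bool) (e : Bool) (o : Vc M), y ++ [e] ∈ X →
      Ust (Φ y, pd M (lm y) + o) (Φ (y ++ [e]), pd M (lm (y ++ [e])) + o) := by
    intro y e o hy
    rcases hcore y e hy with ⟨i, hi⟩ | ⟨i, hi⟩
    · rw [Prod.mk.injEq] at hi
      refine Or.inl ⟨i, hi.1, ?_⟩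
      show pd M (lm (y ++ [e])) + o = pd M (lm y) + o
      rw [hi.2]
    · rw [Prod.mk.injEq] at hi
      obtain ⟨j, hj⟩ := o6 (lm y) i
      refine Or.inr ⟨j, hi.1, ?_⟩
      show pd M (lm (y ++ [e])) + o = pd M (lm y) + o + Pi.single j 1
      rw [hi.2]
      show pd M (lm y + Pi.single i 1) + o = pd M (lm y) + o + Pi.single j 1
      rw [hj, add_right_comm]
  refine ⟨posP Φ lm Q, ?_, ?_⟩
  · intro c c' hc hc' he
    rcases form hS.hG c hc with ⟨g, x, hx, rfl⟩ | ⟨g, x, s, u, hu, rfl⟩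
    · rcases form hS.hG c' hc' with ⟨g', x', hx', rfl⟩ | ⟨g', x', s', u', hu', rfl⟩
      · exact hcc x x' hx hx' g g' he
      · exact absurd he (hcp x hx g g' x' s' u' hu')
    · rcases form hS.hG c' hc' with ⟨g', x', hx', rfl⟩ | ⟨g', x', s', u', hu', rfl⟩
      · exact absurd he.symm (hcp x' hx' g' g x s u hu)
      · obtain ⟨h1, h2, h3, h4⟩ := hQ g x s g' x' s' u hu u' hu' he
        rw [h1, h2, h3, h4]
  · intro c c' hr
    cases hr with
    | cc x e hx hg =>
      have := hstep x e 0 hx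
      rw [add_zero, add_zero] at this
      exact this
    | rt g x hx =>
      rw [Pbc]
      obtain ⟨h1, i, h2⟩ := hrt g x hx
      exact Or.inl ⟨i, h2, h1⟩
    | st g x s u e hu => exact hst g x s u e hu
    | cr g x hz => exact hcr g x hz
    | pe g x hx =>
      obtain ⟨h1, i, h2⟩ := hpe g x hx
      refine Or.inl ⟨i, ?_, h1.symm⟩
      show Φ x = (Q g x true []).1 + Pi.single i 1
      rw [h2, ss]
    | e0 x hx =>
      obtain ⟨j, hj⟩ := o7 x.length
      refine Or.inr ⟨j, rfl, ?_⟩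
      show pd M (lm x) + ofs m0 M (.e 1) x.length =
        pd M (lm x) + ofs m0 M (.e 0) x.length + Pi.single j 1
      rw [hj, ← add_assoc, ss]
    | e1 x hx =>
      obtain ⟨j, hj⟩ := o8 x.length
      refine Or.inr ⟨j, rfl, ?_⟩
      show pd M (lm x) + ofs m0 M (.e 2) x.length =
        pd M (lm x) + ofs m0 M (.e 1) x.length + Pi.single j 1
      rw [hj, ← add_assoc, ss]
    | xe x e hx hxe =>
      have h1 := hstep x e (ofs m0 M (.e 2) x.length) hxe
      have h2 : ofs m0 M .en (x ++ [e]).length = ofs m0 M (.e 2) x.length := by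
        rw [List.length_append, List.length_singleton]
        exact (o9 x.length).1
      show Ust (Φ x, pd M (lm x) + ofs m0 M (.e 2) x.length)
        (Φ (x ++ [e]), pd M (lm (x ++ [e])) + ofs m0 M .en (x ++ [e]).length)
      rw [h2]
      exact h1
    | ec x e hx hxe =>
      obtain ⟨-, j, hj⟩ := o9 (x ++ [e]).length
      refine Or.inr ⟨j, rfl, ?_⟩
      show pd M (lm (x ++ [e])) =
        pd M (lm (x ++ [e])) + ofs m0 M .en (x ++ [e]).length + Pi.single j 1
      rw [hj, ss]

end Pool.Agent.Work.MP_bf01b2_co.La
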