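import Pool.Agent.Work.MP_bf01b2_co.La.StmtsM

/-! Item M.NumD: the contracted tree is sparse -/

set_option autoImplicit false

namespace Pool.Agent.Work.MP_bf01b2_co.La

/-- item NumD -/
theorem pr_NumD : StNumD := by
  intro M ε hε
  obtain ⟨h0, hh0⟩ := exists_nat_ge (8 * (2 : ℝ) ^ M / ε)
  set h : ℕ := 2 * M + 3 + h0 with hh
  obtain ⟨S0, hS0⟩ := exists_nat_ge (8 * ((2 : ℝ) ^ (2 * h + 6) * 2 ^ M) / ε)
  obtain ⟨R1, hR1⟩ := exists_nat_ge (8 * (2 : ℝ) ^ (2 * h + 6) / ε)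
  refine ⟨h, S0 + 1, R1, by omega, by omega, ?_⟩
  intro n R x V hn hR hV0 hV hx
  have hP : (0 : ℝ) < 2 ^ R := by positivity
  have hVR : V ≤ 2 ^ R * 2 ^ M := by rwa [hn, pow_add] at hV
  -- first term
  have hd : (0 : ℝ) < 2 * (h : ℝ) + 5 := by positivity
  have a1 : V / (2 * (h : ℝ) + 5) ≤ 2 ^ R * (ε / 8) := by
    rw [div_le_iff₀ hd]
    have b1 : 8 * (2 : ℝ) ^ M ≤ (h0 : ℝ) * ε := by rwa [div_le_iff₀ hε] at hh0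
    have b2 : (h0 : ℝ) ≤ 2 * (h : ℝ) + 5 := by
      have : (h : ℝ) = 2 * M + 3 + h0 := by rw [hh]; push_cast; ring
      have hM : (0 : ℝ) ≤ M := Nat.cast_nonneg _
      have h00 : (0 : ℝ) ≤ h0 := Nat.cast_nonneg _
      linarith
    have b3 : (2 : ℝ) ^ M ≤ (ε / 8) * (2 * (h : ℝ) + 5) := by
      have : (h0 : ℝ) * ε ≤ (2 * (h : ℝ) + 5) * ε := mul_le_mul_of_nonneg_right b2 hε.le
      linarith
    calc V ≤ 2 ^ R * 2 ^ M := hVR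
      _ ≤ 2 ^ R * ((ε / 8) * (2 * (h : ℝ) + 5)) := mul_le_mul_of_nonneg_left b3 hP.le
      _ = 2 ^ R * (ε / 8) * (2 * (h : ℝ) + 5) := by ring
  have hS : (0 : ℝ) < ((S0 + 1 : ℕ) : ℝ) := by positivity
  have a2 : (2 : ℝ) ^ (2 * h + 6) * (V / ((S0 + 1 : ℕ) : ℝ)) ≤ 2 ^ R * (ε / 8) := by
    rw [← mul_div_assoc, div_le_iff₀ hS]
    have b1 : 8 * ((2 : ℝ) ^ (2 * h + 6) * 2 ^ M) ≤ (S0 : ℝ) * ε := by
      rwa [div_le_iff₀ hε] at hS0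
    have b2 : (2 : ℝ) ^ (2 * h + 6) * 2 ^ M ≤ (ε / 8) * ((S0 + 1 : ℕ) : ℝ) := by
      push_cast
      linarith
    calc (2 : ℝ) ^ (2 * h + 6) * V ≤ 2 ^ (2 * h + 6) * (2 ^ R * 2 ^ M) :=
          mul_le_mul_of_nonneg_left hVR (by positivity)
      _ = 2 ^ R * (2 ^ (2 * h + 6) * 2 ^ M) := by ring
      _ ≤ 2 ^ R * ((ε / 8) * ((S0 + 1 : ℕ) : ℝ)) := mul_le_mul_of_nonneg_left b2 hP.le
      _ = 2 ^ R * (ε / 8) * ((S0 + 1 : ℕ) : ℝ) := by ring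
  have a3 : (2 : ℝ) ^ (2 * h + 6) ≤ 2 ^ R * (ε / 8) := by
    have b1 : 8 * (2 : ℝ) ^ (2 * h + 6) ≤ (R1 : ℝ) * ε := by rwa [div_le_iff₀ hε] at hR1
    have b2 : (R1 : ℝ) ≤ 2 ^ R1 := by exact_mod_cast (Nat.lt_two_pow_self).le
    have b3 : (2 : ℝ) ^ R1 ≤ 2 ^ R := pow_le_pow_right₀ (by norm_num) hR
    have b4 : (R1 : ℝ) * ε ≤ 2 ^ R * ε := mul_le_mul_of_nonneg_right (b2.trans b3) hε.le
    linarith
  have hx2 : x ≤ 2 ^ R * (ε / 8) + 2 ^ R * (ε / 8) + 2 ^ R * (ε / 8) := by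
    refine hx.trans ?_
    rw [mul_add, mul_one]
    linarith
  rw [← mul_div_assoc, div_le_iff₀ hP]
  have : 0 < ε * 2 ^ R := by positivity
  linarith

end Pool.Agent.Work.MP_bf01b2_co.La
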