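import Pool.Agent.Work.MP_bf01b2_co.La.StmtsM
import Pool.Agent.Work.MP_bf01b2_co.Sh.Q_Pd

/-!
# MP_bf01b2_co, theorem LARGE: item Ofs (the label offsets)
-/

set_option autoImplicit false

namespace Pool.Agent.Work.MP_bf01b2_co.La

open Pool.Agent.Work.MP_bf01b2_co.Bd

open Classical

open Pool.Agent.Work.MP_bf01b2_co.Sh (Vc un par syn Ad Ust pd Bad ct1 Ky Nw2 Fits2 strs StTile2
  StBrg StPtC StPrt StCb2 StShp)

namespace IMOfs

open Pool.Agent.Work.MP_bf01b2_co.Sh.IQPd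

theorem par_add {n : ℕ} (x y : Vc n) : par (x + y) = par x + par y := by
  unfold par
  rw [← Finset.sum_add_distrib]
  rfl

theorem par_zero {n : ℕ} : par (0 : Vc n) = 0 := by
  unfold par
  simp

theorem un_eq {n i : ℕ} (h : i < n) : un n i = Pi.single (⟨i, h⟩ : Fin n) (1 : ZMod 2) := by
  funext j
  rw [Pi.single_apply]
  unfold un
  by_cases hj : j.1 = i
  · rw [if_pos hj, if_pos (Fin.ext hj)]
  · rw [if_neg hj, if_neg (fun h2 => hj (congrArg Fin.val h2))]

theorem par_un {n i : ℕ} (h : i < n) : par (un n i) = 1 := by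
  rw [un_eq h]
  unfold par
  simp

theorem ev_e {m0 M : ℕ} (k : Fin 3) (n : ℕ) (j : Fin M) : ofs m0 M (.e k) n j =
    (if k = 0 then (if j.1 = m0 + 1 then 1 else 0) else 0) +
      (if k = 2 then 0 else (if j.1 = m0 then 1 else 0)) +
      (if j.1 = m0 + 2 + n % 2 then 1 else 0) := by
  have h : ofs m0 M (.e k) n j = (if k = 0 then un M (m0 + 1) else 0) j +
    (if k = 2 then 0 else un M m0) j + un M (m0 + 2 + n % 2) j := rfl
  rw [h]
  congr 1
  congr 1
  · by_cases h0 : k = 0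
    · rw [if_pos h0, if_pos h0]; rfl
    · rw [if_neg h0, if_neg h0]; rfl
  · by_cases h0 : k = 2
    · rw [if_pos h0, if_pos h0]; rfl
    · rw [if_neg h0, if_neg h0]; rfl

theorem ev_en {m0 M : ℕ} (n : ℕ) (j : Fin M) : ofs m0 M .en n j =
    (if j.1 = m0 + 2 + (n + 1) % 2 then 1 else 0) := rfl

theorem ev_c {m0 M : ℕ} (a : Bool) (n : ℕ) (j : Fin M) : ofs m0 M (.c a) n j = 0 := rfl

theorem ofs_lt {m0 M : ℕ} (g : Tag) (n : ℕ) (j : Fin M) (h : j.1 < m0) : ofs m0 M g n j = 0 := by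
  cases g with
  | c a => rfl
  | e k =>
    rw [ev_e, if_neg (show ¬ j.1 = m0 + 1 by omega), if_neg (show ¬ j.1 = m0 by omega),
      if_neg (show ¬ j.1 = m0 + 2 + n % 2 by omega)]
    simp
  | en =>
    rw [ev_en, if_neg (by omega)]

theorem ofs_ge {m0 M : ℕ} (g : Tag) (n : ℕ) (j : Fin M) (h : m0 + 4 ≤ j.1) :
    ofs m0 M g n j = 0 := by
  cases g with
  | c a => rfl
  | e k =>
    rw [ev_e, if_neg (show ¬ j.1 = m0 + 1 by omega), if_neg (show ¬ j.1 = m0 by omega),
      if_neg (show ¬ j.1 = m0 + 2 + n % 2 by omega)]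
    simp
  | en =>
    rw [ev_en, if_neg (by omega)]

/-- the coordinate `m0 + 2` or `m0 + 3` where the offset vanishes -/
theorem ofs_free {m0 M : ℕ} (g : Tag) (n : ℕ) :
    ∃ t : ℕ, t < 2 ∧ ∀ j : Fin M, j.1 = m0 + 2 + t → ofs m0 M g n j = 0 := by
  cases g with
  | c a => exact ⟨0, by omega, fun j _ => rfl⟩
  | e k =>
    refine ⟨(n + 1) % 2, by omega, fun j hj => ?_⟩
    rw [ev_e, if_neg (show ¬ j.1 = m0 + 1 by omega), if_neg (show ¬ j.1 = m0 by omega),
      if_neg (show ¬ j.1 = m0 + 2 + n % 2 by omega)]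
    simp
  | en =>
    refine ⟨n % 2, by omega, fun j hj => ?_⟩
    rw [ev_en, if_neg (by omega)]

theorem ofs_par {m0 M : ℕ} (hM : m0 + 4 ≤ M) (g : Tag) (n : ℕ) :
    par (ofs m0 M g n) = kp g := by
  have h1 : par (un M (m0 + 1)) = 1 := par_un (by omega)
  have h2 : par (un M m0) = 1 := par_un (by omega)
  have h3 : ∀ n : ℕ, par (un M (m0 + 2 + n % 2)) = 1 := fun n => par_un (by omega)
  cases g with
  | c a => exact par_zero
  | e k =>
    have h4 : ofs m0 M (.e k) n = (if k = 0 then un M (m0 + 1) else 0) +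
      (if k = 2 then 0 else un M m0) + un M (m0 + 2 + n % 2) := rfl
    rw [h4, par_add, par_add, h3]
    fin_cases k
    · simp only [kp]
      simp [h1, h2]
      decide
    · simp only [kp]
      simp [h2, par_zero]
      decide
    · simp only [kp]
      simp [par_zero]
  | en => exact h3 (n + 1)

end IMOfs

open IMOfs Pool.Agent.Work.MP_bf01b2_co.Sh.IQPd

theorem pr_Ofs : StOfs := by
  intro m0 M hM
  have hM0 : m0 ≤ M := by omega
  refine ⟨ofs_par hM, ?_, ?_, ?_, ?_, ?_, ?_, ?_, ?_, par_pd hM0, ?_⟩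
  · intro x g n
    refine ⟨fun j hj => ?_, fun hall => ?_⟩
    · rw [Pi.add_apply, pd_ge _ _ (by omega), ofs_ge g n j (by omega), add_zero]
    · obtain ⟨t, ht, h⟩ := ofs_free (m0 := m0) (M := M) g n
      have h1 := hall ⟨m0 + 2 + t, by omega⟩ (by simp) (by simp; omega)
      rw [Pi.add_apply, pd_ge _ _ (by simp; omega), h _ rfl, add_zero] at h1
      exact zero_ne_one h1
  · intro x x' g g' n n' h
    have h1 : x = x' := by
      funext i
      have h2 := congrFun h (up hM0 i)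
      rw [Pi.add_apply, Pi.add_apply, ofs_lt g n (up hM0 i) i.2, ofs_lt g' n' (up hM0 i) i.2,
        add_zero, add_zero, pd_up, pd_up] at h2
      exact h2
    refine ⟨h1, ?_⟩
    rw [h1] at h
    exact add_left_cancel h
  · intro k k' n h
    have h1 := congrFun h (⟨m0 + 1, by omega⟩ : Fin M)
    have h2 := congrFun h (⟨m0, by omega⟩ : Fin M)
    rw [ev_e, ev_e] at h1 h2
    have e1 : ¬ (m0 + 1 = m0) := by omega
    have e2 : ¬ (m0 + 1 = m0 + 2 + n % 2) := by omega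
    have e3 : ¬ (m0 = m0 + 1) := by omega
    have e4 : ¬ (m0 = m0 + 2 + n % 2) := by omega
    simp only [e1, e2, e3, e4, if_true, if_false] at h1 h2
    revert h1 h2
    fin_cases k <;> fin_cases k' <;> simp
  · intro k n
    have hj : ∀ t : ℕ, m0 + 2 + t % 2 < M := fun t => by omega
    have h1 : ofs m0 M (.e k) n ⟨m0 + 2 + n % 2, hj n⟩ = 1 := by
      rw [ev_e, if_neg (show ¬ (m0 + 2 + n % 2 = m0 + 1) by omega),
        if_neg (show ¬ (m0 + 2 + n % 2 = m0) by omega), if_pos rfl]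
      simp
    have h2 : ofs m0 M .en n ⟨m0 + 2 + (n + 1) % 2, hj (n + 1)⟩ = 1 := by
      rw [ev_en, if_pos rfl]
    have h3 : ofs m0 M .en n ⟨m0 + 2 + n % 2, hj n⟩ = 0 := by
      rw [ev_en, if_neg (show ¬ (m0 + 2 + n % 2 = m0 + 2 + (n + 1) % 2) by omega)]
    refine ⟨fun h => ?_, fun h => ?_, fun h => ?_⟩
    · rw [h] at h1; exact zero_ne_one h1
    · rw [h] at h2; exact zero_ne_one h2
    · rw [h, h3] at h1; exact zero_ne_one h1
  · intro x i
    exact ⟨up hM0 i, pd_single hM0 x i⟩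
  · intro n
    refine ⟨⟨m0 + 1, by omega⟩, ?_⟩
    rw [← un_eq (show m0 + 1 < M by omega)]
    have h1 : ofs m0 M (.e 0) n = un M (m0 + 1) + un M m0 + un M (m0 + 2 + n % 2) := rfl
    have h2 : ofs m0 M (.e 1) n = 0 + un M m0 + un M (m0 + 2 + n % 2) := rfl
    rw [h1, h2]
    ring
  · intro n
    refine ⟨⟨m0, by omega⟩, ?_⟩
    rw [← un_eq (show m0 < M by omega)]
    have h1 : ofs m0 M (.e 1) n = 0 + un M m0 + un M (m0 + 2 + n % 2) := rfl
    have h2 : ofs m0 M (.e 2) n = 0 + 0 + un M (m0 + 2 + n % 2) := rfl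
    rw [h1, h2]
    ring
  · intro n
    constructor
    · have h2 : ofs m0 M (.e 2) n = 0 + 0 + un M (m0 + 2 + n % 2) := rfl
      have h3 : ofs m0 M .en (n + 1) = un M (m0 + 2 + (n + 1 + 1) % 2) := rfl
      rw [h2, h3, zero_add, zero_add, show (n + 1 + 1) % 2 = n % 2 by omega]
    · exact ⟨⟨m0 + 2 + (n + 1) % 2, by omega⟩, un_eq _⟩
  · intro n
    constructor
    · rw [ev_e, if_neg (show ¬ (m0 = m0 + 1) by omega), if_pos rfl,
        if_neg (show ¬ (m0 = m0 + 2 + n % 2) by omega)]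
      simp
    · refine ⟨⟨m0 + 1, by omega⟩, by simp, ?_⟩
      rw [ev_e, if_pos rfl, if_pos rfl, if_neg (show ¬ (m0 + 1 = m0) by omega),
        if_neg (show ¬ (m0 + 1 = m0 + 2 + n % 2) by omega)]
      simp

end Pool.Agent.Work.MP_bf01b2_co.La
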