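import Pool.Agent.Work.MP_bf01b2_co.La.StmtsM

/-!
# Item Pr: the theorem for at most `2 ^ n` vertices from theorem D
-/

set_option autoImplicit false

namespace Pool.Agent.Work.MP_bf01b2_co.La

open Pool.Agent.Work.MP_bf01b2_co.Bd

open Classical

open Pool.Agent.Work.MP_bf01b2_co.Sh (StPrt)

theorem pr_Pr (h1 : StPreD) (h2 : StPrt) : StPre := by
  obtain ⟨n0, h0⟩ := h1 (1 / 4) (by norm_num)
  refine ⟨n0 + 2, fun n hn T hT hc => ?_⟩
  refine h0 n (by omega) T hT ?_
  intro d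
  have h3 := h2 T hT d
  have h4 : 4 ≤ 2 ^ n := by
    calc 4 = 2 ^ 2 := by norm_num
      _ ≤ 2 ^ n := Nat.pow_le_pow_right (by norm_num) (by omega)
  have h5 : 4 * (3 * (T.filter fun v => (v.length : ZMod 2) = d).card) ≤ 9 * 2 ^ n := by
    omega
  have h6 : (4 : ℝ) * (3 * ((T.filter fun v => (v.length : ZMod 2) = d).card : ℝ)) ≤
      9 * 2 ^ n := by exact_mod_cast h5
  linarith

end Pool.Agent.Work.MP_bf01b2_co.La
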