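import Pool.Agent.Work.MP_bf01b2_co.La.StmtsM
import Pool.Agent.Work.MP_bf01b2_co.Sh.StmtsD

/-!
# MP_bf01b2_co, THEOREM D for prefix closed sets (item PreD)
-/

set_option autoImplicit false

namespace Pool.Agent.Work.MP_bf01b2_co.La

open Pool.Agent.Work.MP_bf01b2_co.Bd

open Classical

open Pool.Agent.Work.MP_bf01b2_co.Sh (Vc par Nw2 StCoZD StNms2D StCb2)

namespace IMPreD

theorem two_classes (T : Finset (List Bool)) :
    T.card = (T.filter fun v => (v.length : ZMod 2) = 0).card +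
      (T.filter fun v => (v.length : ZMod 2) = 1).card := by
  have h := Finset.card_filter_add_card_filter_not (s := T)
    (p := fun v : List Bool => (v.length : ZMod 2) = 0)
  rw [← h]
  congr 1
  congr 1
  apply Finset.filter_congr
  intro v _
  have : ∀ a : ZMod 2, ¬ a = 0 ↔ a = 1 := by decide
  exact this _

theorem empty_case (n : ℕ) (T : Finset (List Bool)) (hT : T = ∅) :
    ∃ c : List Bool → Fin (n + 1) → Bool, (∀ u ∈ T, ∀ v ∈ T, c u = c v → u = v) ∧
      ∀ v e, v ++ [e] ∈ T → hammingDist (c v) (c (v ++ [e])) = 1 := by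
  subst hT
  exact ⟨fun _ _ => false, fun u hu => absurd hu (Finset.notMem_empty u),
    fun v e hv => absurd hv (Finset.notMem_empty _)⟩

end IMPreD

theorem pr_PreD (h1 : StGluL) (h2 : StCoZD) (h3 : StNms2D) (h4 : StItmL)
    (h5 : StCnwL) (h6 : StTrM) (h7 : StCb2) (h8 : StNumD) : StPreD := by
  intro δ hδ
  by_cases hδ1 : 1 < δ
  · refine ⟨0, fun n _ T hT hcl => ?_⟩
    apply IMPreD.empty_case
    rw [Finset.eq_empty_iff_forall_notMem]
    intro x hx
    have e1 := hcl (x.length : ZMod 2)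
    have e2 : 0 < (T.filter fun v => (v.length : ZMod 2) = (x.length : ZMod 2)).card :=
      Finset.card_pos.2 ⟨x, Finset.mem_filter.2 ⟨hx, rfl⟩⟩
    have e3 : (0 : ℝ) < (T.filter fun v => (v.length : ZMod 2) = (x.length : ZMod 2)).card := by
      exact_mod_cast e2
    have e4 : (1 - δ) * (2 : ℝ) ^ n < 0 := mul_neg_of_neg_of_pos (by linarith) (by positivity)
    linarith
  push Not at hδ1
  obtain ⟨J, hJ⟩ : ∃ J : ℕ, 100 ≤ δ * J := by
    obtain ⟨J, hJ⟩ := exists_nat_ge (100 / δ)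
    refine ⟨J, ?_⟩
    rw [div_le_iff₀ hδ] at hJ
    linarith [mul_comm δ (J : ℝ)]
  have hJ2 : 2 ≤ J := by
    have e1 : δ * (J : ℝ) ≤ J := mul_le_of_le_one_left (Nat.cast_nonneg _) hδ1
    have e2 : (2 : ℝ) ≤ J := by linarith
    exact_mod_cast e2
  obtain ⟨m0, hm0⟩ := h2 (δ / 100) (by positivity) (by linarith)
  obtain ⟨M, hM⟩ : ∃ M : ℕ, m0 + 4 + J = M := ⟨_, rfl⟩
  obtain ⟨h, S, R1, hh, hS, hnum⟩ := h8 M (min (δ / 2 ^ (2 * M + 14)) (1 / 2 ^ M))
    (lt_min (by positivity) (by positivity))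
  obtain ⟨L, hL⟩ := h6 M h S hh hS
  obtain ⟨k, τ, hτ0, hτ1, hk⟩ := h3 δ M J (WL L) tw hδ hδ1 (by omega) hJ
  obtain ⟨R0, hR0⟩ := hm0 (k + 1) (WL L) τ (by omega) hτ0 hτ1
  refine ⟨M + R0 + R1, ?_⟩
  intro n hn T hT hcl
  rcases T.eq_empty_or_nonempty with hTe | hTne
  · exact IMPreD.empty_case n T hTe
  obtain ⟨X, G, ts, ze, code, hSys, hVd, hcinj, hRel, hcnt, hXc⟩ := hL T hT hTne
  obtain ⟨R, hR⟩ : ∃ R : ℕ, R = n + 1 - M := ⟨_, rfl⟩
  have hRM : n + 1 = R + M := by omega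
  have hRM' : n = R + (M - 1) := by omega
  have hRR : R0 ≤ R := by omega
  have hpR : (0 : ℝ) < 2 ^ R := by positivity
  have hpn : (2 : ℝ) ^ n = 2 ^ R * 2 ^ (M - 1) := by
    rw [← pow_add]; congr 1
  have hTc : (T.card : ℝ) ≤ 2 ^ (n + 1) := by
    have e1 := hcl 0
    have e2 := hcl 1
    have e3 : (T.card : ℝ) = ((T.filter fun v => (v.length : ZMod 2) = 0).card : ℝ) +
        ((T.filter fun v => (v.length : ZMod 2) = 1).card : ℝ) := by
      exact_mod_cast IMPreD.two_classes T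
    have e4 : (0 : ℝ) < δ * 2 ^ n := by positivity
    rw [e3, pow_succ]
    linarith
  have hyε := hnum n R X.card T.card hRM (by omega) (Nat.cast_nonneg _) hTc hXc
  set y : ℝ := 2 * ((X.card : ℝ) / 2 ^ R) with hy
  have hy0 : 0 ≤ y := by
    have : 0 ≤ (X.card : ℝ) / 2 ^ R := div_nonneg (Nat.cast_nonneg _) hpR.le
    rw [hy]; linarith
  have hyM : y * 2 ^ (2 * M + 14) ≤ δ := by
    have e1 := hyε.trans (min_le_left _ _)
    rwa [le_div_iff₀ (by positivity)] at e1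
  have hy1 : y ≤ 1 := by
    have e1 := hyε.trans (min_le_right _ _)
    refine e1.trans ?_
    rw [div_le_one (by positivity)]
    exact one_le_pow₀ (by norm_num)
  have hXy : (X.card : ℝ) / 2 ^ R ≤ y := by
    have : 0 ≤ (X.card : ℝ) / 2 ^ R := div_nonneg (Nat.cast_nonneg _) hpR.le
    rw [hy]; linarith
  have hXR : (X.card : ℝ) ≤ 2 ^ R := by
    have e1 := hXy.trans hy1
    rwa [div_le_one hpR] at e1
  have hKX : ∀ w : WL L, KL X ts ze w ⊆ X := fun w => Finset.filter_subset _ _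
  obtain ⟨Φ, lm, sy, N1, hN1, hsy, hsy0, hstep, hinj, hct, hctX⟩ :=
    hR0 R hRR X (KL X ts ze) hSys.hX hXR hKX
  set c0 : ZMod 2 := par (Φ []) + par (lm []) with hc0
  have hx0 : ∀ w : WL L, 0 ≤ ((KL X ts ze w).card : ℝ) / 2 ^ R := fun w =>
    div_nonneg (Nat.cast_nonneg _) hpR.le
  obtain ⟨b, hb1, hb2⟩ := hk (dwL c0) (fun w => ((KL X ts ze w).card : ℝ) / 2 ^ R) y
    hx0 hy0 hyM (by
      have e1 := h4 M L X G ts ze hSys
      have e2 : ((∑ w : WL L, (KL X ts ze w).card : ℕ) : ℝ) ≤ ((6 * X.card : ℕ) : ℝ) := by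
        exact_mod_cast e1
      push_cast at e2
      rw [← Finset.sum_div]
      have e3 : (∑ w : WL L, ((KL X ts ze w).card : ℝ)) / 2 ^ R ≤ 6 * (X.card : ℝ) / 2 ^ R :=
        div_le_div_of_nonneg_right e2 hpR.le
      have e4 : 6 * (X.card : ℝ) / 2 ^ R = 3 * y := by rw [hy]; ring
      linarith) (by
      intro c
      have e4 := (h5 M L X G ts ze c0 c hSys).trans (hcnt (c0 + c))
      have e5 := hcl (c0 + c)
      have e6 : ∑ w : WL L, ((KL X ts ze w).card : ℝ) * (Nw2 tw (dwL c0) w c : ℝ) ≤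
          (1 - δ) * 2 ^ n := by
        refine le_trans ?_ e5
        exact_mod_cast e4
      have e7 : ∑ w : WL L, ((KL X ts ze w).card : ℝ) / 2 ^ R * (Nw2 tw (dwL c0) w c : ℝ) =
          (∑ w : WL L, ((KL X ts ze w).card : ℝ) * (Nw2 tw (dwL c0) w c : ℝ)) / 2 ^ R := by
        rw [Finset.sum_div]
        apply Finset.sum_congr rfl
        intro w _
        ring
      rw [e7, div_le_iff₀ hpR]
      rw [hpn] at e6
      linarith [mul_comm ((2 : ℝ) ^ R) (2 ^ (M - 1))])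
  obtain ⟨P, hPinj, hPst⟩ := h1 R M m0 J L k N1 X G ts ze Φ lm b sy
    (fun w => (1 + δ / 100) * max (((KL X ts ze w).card : ℝ) / 2 ^ R) τ)
    ((1 + δ / 100) * max y τ) hM hJ2 hSys hN1 hsy hsy0 hstep hinj
    (fun w => mul_pos (by positivity) (lt_max_of_lt_right hτ0))
    (mul_nonneg (by positivity) (lt_max_of_lt_right hτ0).le) hct
    (fun s x hs => by
      refine (hctX s x hs).trans ?_
      apply mul_le_mul_of_nonneg_right _ (Nat.cast_nonneg _)
      apply mul_le_mul_of_nonneg_left _ (by positivity)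
      exact max_le_max hXy le_rfl) hb1 hb2
  obtain ⟨q, hq1, hq2⟩ := h7 R M (n + 1) hRM
  refine ⟨fun v => q (P (code v)), ?_, ?_⟩
  · intro u hu v hv huv
    exact hcinj u hu v hv (hPinj _ _ (hVd u hu) (hVd v hv) (hq1 huv))
  · intro v e hve
    rcases hRel v e hve with hr | hr
    · exact hq2 _ _ (hPst _ _ hr)
    · rw [hammingDist_comm]
      exact hq2 _ _ (hPst _ _ hr)

end Pool.Agent.Work.MP_bf01b2_co.La
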