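import Pool.Agent.Work.MP_bf01b2_co.La.DefsC
import Pool.Agent.Work.MP_bf01b2_co.Sh.StmtsG
import Pool.Agent.Work.MP_bf01b2_co.Fw.StmtsD

/-!
# MP_bf01b2_co, theorem LARGE: the tree side, statements

Every item `X` is a statement `StX`, file `La/C_X.lean`, theorem `pr_X`, auxiliary lemmas in
`namespace ICX`; the hypotheses named in the docstring `(h : StY)` are other items (nobody waits).
`Fw.StRt`, `Fw.StBr`, `Sh.StSub`, `Sh.StCrp` are proved in `Fw/I_Rt.lean`, `Fw/I_Br.lean`,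
`Sh/G_Sub.lean`, `Sh/G_Crp.lean`. In all proofs `x, i, zp x i` etc. stand for the functions with the
parameters `H, h, U`; `X = cT H U`, `G = cD H U`.
-/

set_option autoImplicit false

namespace Pool.Agent.Work.MP_bf01b2_co.La

open Pool.Agent.Work.MP_bf01b2_co.Bd

open Classical

open Pool.Agent.Work.MP_bf01b2_co.Fw (rt lf StRt StBr)

open Pool.Agent.Work.MP_bf01b2_co.Sh (sub strs cor StSub StCrp)

/-! ### Contraction (copies of `Fw/StmtsD.lean`, with `j ≤ H` instead of `j < H` in `Gd`) -/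

/-- [Csn] (EASY) copy of `Fw/I_Csn.lean` (`Gd` is not unfolded there). -/
def StCsn : Prop := (∀ (H : ℕ) (T : Finset (List Bool)), cs H T [] = []) ∧
  (∀ (H : ℕ) (T : Finset (List Bool)) (v : List Bool) (e : Bool),
    cs H T (v ++ [e]) = cs H T v ++ (if Kp H T v then [e] else [])) ∧
  (∀ (H : ℕ) (T : Finset (List Bool)), Bd.PrefClosed T → Bd.PrefClosed (cT H T))

/-- [Cr] (EASY) copy of `Fw/I_Cr.lean`. (hRt : StRt) (hCsn : StCsn) -/
def StCr : Prop := ∀ (H : ℕ) (T : Finset (List Bool)), 0 < H → ∀ v, Gd H T (rt H v) →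
  cs H T v = cs H T (rt H v)

/-- [Ij] (EASY) copy of `Fw/I_Ij.lean` (there the uniqueness in `Gd` is used for `j < H`).
(hRt : StRt) (hCsn : StCsn) (hCr : StCr) -/
def StIj : Prop := ∀ (H : ℕ) (T : Finset (List Bool)), 0 < H → Bd.PrefClosed T →
  ∀ u ∈ T, ∀ v ∈ T, cs H T u = cs H T v →
    (Gd H T (rt H u) ∧ Gd H T (rt H v) ∧ rt H u = rt H v) ∨
    (¬ Gd H T (rt H u) ∧ ¬ Gd H T (rt H v) ∧ u = v)

/-- [Dec] (EASY) copy of `Fw/I_Dec.lean`. (hRt : StRt) (hCsn : StCsn) (hCr : StCr) (hIj : StIj) -/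
def StDec : Prop := ∀ (H : ℕ) (T : Finset (List Bool)), 0 < H → Bd.PrefClosed T →
  Bd.PrefClosed (cT H T) ∧ cD H T ⊆ cT H T ∧
  (∀ v ∈ T, ix H T v < H ∧ (ix H T v ≠ 0 → cs H T v ∈ cD H T)) ∧
  (∀ u ∈ T, ∀ v ∈ T, cs H T u = cs H T v → ix H T u = ix H T v → u = v) ∧
  ∀ v e, v ++ [e] ∈ T →
    (cs H T (v ++ [e]) = cs H T v ∧ cs H T v ∈ cD H T ∧ ix H T (v ++ [e]) = ix H T v + 1) ∨
    (cs H T (v ++ [e]) = cs H T v ++ [e] ∧ ix H T (v ++ [e]) = 0 ∧
      ix H T v = if cs H T v ∈ cD H T then H - 1 else 0)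

/-- [Bad] (EASY) adaptation of `Fw/I_Bad.lean`. (hRt : StRt)
Proof. Let `u ∈ T` be a bad root, `H ∣ u.length`. Let `j ≤ H` be the least level on which there is not
exactly one vertex of `T` below `u`; `j > 0`, as `u` is the only one for `j = 0`. Let `w` be the only
vertex on the level `j - 1 < H`. The vertices on the level `j` are the children of `w`, so `w` does not
have exactly one child. `rt H w = u` (`w.length < u.length + H`), so `u ↦ w` is injective. -/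
def StBad : Prop := ∀ (H : ℕ) (T : Finset (List Bool)), 0 < H → Bd.PrefClosed T →
  (T.filter fun u => u.length % H = 0 ∧ ¬ Gd H T u).card ≤
    (T.filter fun v => ¬ ∃! e, v ++ [e] ∈ T).card

/-- [Cnt] (EASY) copy of `Fw/I_Cnt.lean`. (hRt : StRt) (hCr : StCr) (hBr : StBr) (hBad : StBad)
Proof. (1) The map `(u, j) ↦` the vertex of `T` on the level `u.length + j` below the good root `u`,
`j < H`, is injective (`u = rt H w`, `j = w.length - u.length`), so `#good roots * H ≤ T.card`, and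
`cD` is the image of the good roots. (2) A vertex `v` with good block has `cs v = cs (rt H v) ∈ cD`. So
`(cT H T).card ≤ (cD H T).card + #(vertices in bad blocks)`. A vertex `v` in a bad block is
determined by its root (a bad root in `T`) and the rest `v.drop (..)`, a word of length `< H`; there
are at most `2 ^ H` such words. By `StBad` and `StBr` there are at most
`#(no child) + #(two children) ≤ 2 (lf T).card` bad roots. -/
def StCnt : Prop := ∀ (H : ℕ) (T : Finset (List Bool)), 0 < H → Bd.PrefClosed T →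
  (cD H T).card * H ≤ T.card ∧
  (cT H T).card ≤ (cD H T).card + 2 ^ H * (2 * (lf T).card)

/-- [Lfc] (EASY-MEDIUM) the core has few leaves. (hSub : StSub) (hCrp : StCrp) Proof. Let `U = cor S T`
and let `F` be the set of the `v ∈ lf U`, `v ≠ []`; `(lf U).card ≤ F.card + 1`. For `v ∈ F`:
`S ≤ (sub T v).card`. The map `(v, u) ↦ v ++ u`, `v ∈ F`, `u ∈ sub T v`, has values in `T` (`StSub`) and is
injective: if `v ++ u = v' ++ u'` then one of `v, v'` is a prefix of the other, say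
`v = v'.take v.length`; if `v.length < v'.length` then `v'.take (v.length + 1) = v ++ [e]` is in `U`
(prefix closed, `StCrp`), but `v` is a leaf; so `v = v'`, `u = u'`. So `F.card * S ≤ T.card`
(`Finset.card_sigma`, `Finset.card_le_card_of_injOn`). -/
def StLfc : Prop := ∀ (S : ℕ) (T : Finset (List Bool)), Bd.PrefClosed T →
  (lf (cor S T)).card * S ≤ T.card + S

/-- [Lev] (EASY) level parity. (hRt : StRt) (hCsn : StCsn) Proof. Induction on `v` from the right. Let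
`g` = `Gd H U (rt H v)`. (a) The letter is not kept: `g` and `(|v| + 1) % H ≠ 0`, so
`rt H (v ++ [e]) = rt H v`, `ix (v ++ [e]) = (|v| + 1) % H = |v| % H + 1 = ix v + 1`, same `cs`. (b) It is
kept and `g` does not hold: `ix v = 0`, and `ix (v ++ [e]) = 0` (if `(|v| + 1) % H ≠ 0` the block is the
same bad block, otherwise `ix` is `(|v| + 1) % H = 0` or `0`). (c) It is kept and `g`: then
`(|v| + 1) % H = 0`, so `ix v = |v| % H = H - 1 = 2 (h + 2)` is even, and `ix (v ++ [e]) = 0`. -/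
def StLev : Prop := ∀ (H h : ℕ) (U : Finset (List Bool)) (v : List Bool), H = 2 * h + 5 →
  (v.length : ZMod 2) = ((cs H U v).length : ZMod 2) + (ix H U v : ZMod 2)

/-! ### Base vertices and paths -/

/-- [Bv] (EASY-MEDIUM) base vertices. (hRt : StRt) (hCsn : StCsn) (hCr : StCr) (hDec : StDec)
(hLev : StLev)
Proof. (2) `x = cs v`, `v ∈ U`. If `Gd H U (rt H v)` then `rt H v ∈ U`, `cs (rt H v) = x` (`StCr`),
`ix (rt H v) = 0` (`|rt H v| % H = 0`); otherwise `ix v = 0`. So the condition in `bv` holds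
(`Exists.choose_spec`); the parity is `StLev`. (3) `bv (cs v)` and `v` have the same `cs` and the same
`ix`: (4) of `StDec`. (1) is (3) for `v = []`. (4) `x = cs u`, `u ∈ U`, `Gd H U u`, so `|u| % H = 0`,
`ix u = 0`, `bv x = u` by (3). (5) `StDec` (3). (6) `StDec` (5) for `v = bv x`: the first alternative has
`x ∈ cD`; so `cs (v ++ [e]) = x ++ [e]`, `ix (v ++ [e]) = 0`, and (3). (7) `w = bv (x ++ [e])` is not `[]`
(`cs [] = []`), `w = p ++ [e']`, `p ∈ U`; `StDec` (5) for `p, e'`: in the first alternative `ix w ≠ 0`; so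
`x ++ [e] = cs p ++ [e']`, and `ix p` is as claimed. -/
def StBv : Prop := ∀ (H h : ℕ) (T U : Finset (List Bool)), Ctx H h T U →
  bv H U [] = [] ∧
  (∀ x ∈ cT H U, bv H U x ∈ U ∧ cs H U (bv H U x) = x ∧ ix H U (bv H U x) = 0 ∧
    ((bv H U x).length : ZMod 2) = (x.length : ZMod 2)) ∧
  (∀ v ∈ U, ix H U v = 0 → bv H U (cs H U v) = v) ∧
  (∀ x ∈ cD H U, x ∈ cT H U ∧ Gd H U (bv H U x)) ∧
  (∀ v ∈ U, cs H U v ∉ cD H U → ix H U v = 0) ∧
  (∀ x ∈ cT H U, x ∉ cD H U → ∀ e, bv H U x ++ [e] ∈ U →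
    x ++ [e] ∈ cT H U ∧ bv H U (x ++ [e]) = bv H U x ++ [e]) ∧
  ∀ x e, x ++ [e] ∈ cT H U → ∃ p ∈ U, bv H U (x ++ [e]) = p ++ [e] ∧ cs H U p = x ∧
    ix H U p = if x ∈ cD H U then H - 1 else 0

/-- [Zp] (EASY-MEDIUM) the paths. (hRt : StRt) (hCr : StCr) (hIj : StIj) (hDec : StDec) (hBv : StBv)
Proof. Let `b = bv x`; `Gd H U b` by `StBv` (4), `|b| % H = 0`. (1), (2): `Gd` for `j = i`
(`Exists.choose_spec`). (3) `b` itself, by (2). (4) by (2) for the vertex `(zp x i).take (|b| + j)`. (5) By (4)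
`zp x (i + 1)` is `zp x i` and one more letter `e`; `dropLast`, `getLastD`; if `zp x i ++ [!e]` were in `U` it
would be `zp x (i + 1)` by (2). (6) `|zp x i| / H * H = |b|` for `i < H`, so `rt H (zp x i) = b`, and `StCr`,
`cs b = x`; `ix = |zp x i| % H = i`. (7) `StIj` for `v` and `b` (`rt H b = b` by `StRt`): `rt H v = b`; so
`|v| = |b| + |v| % H`, `ix v = |v| % H < H`, and (2). (8) `StDec` (5) for `v = zp x (H - 1)`,
`v ++ [e] = zp x H`: in the first alternative `ix (zp x H) = H`, contradiction to `StDec` (3); so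
`cs (zp x H) = x ++ [e]`, `ix = 0`, and `StBv` (3). If `x ++ [e'] ∈ cT` then by `StBv` (7)
`bv (x ++ [e']) = p ++ [e']`, `cs p = x`, `ix p = H - 1`, so `p = zp x (H - 1)` by (7) and
`p ++ [e'] = zp x H` by (2): `e' = e`. -/
def StZp : Prop := ∀ (H h : ℕ) (T U : Finset (List Bool)), Ctx H h T U → ∀ x ∈ cD H U,
  (∀ i ≤ H, zp H U x i ∈ U ∧ (zp H U x i).length = (bv H U x).length + i ∧
    (zp H U x i).take (bv H U x).length = bv H U x) ∧
  (∀ i ≤ H, ∀ w ∈ U, w.length = (bv H U x).length + i →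
    w.take (bv H U x).length = bv H U x → w = zp H U x i) ∧
  zp H U x 0 = bv H U x ∧
  (∀ i ≤ H, ∀ j ≤ i, (zp H U x i).take ((bv H U x).length + j) = zp H U x j) ∧
  (∀ i < H, ∃ e, zp H U x (i + 1) = zp H U x i ++ [e] ∧
    sb (zp H U x (i + 1)) = zp H U x i ++ [!e] ∧ zp H U x i ++ [!e] ∉ U) ∧
  (∀ i < H, cs H U (zp H U x i) = x ∧ ix H U (zp H U x i) = i) ∧
  (∀ v ∈ U, cs H U v = x → v = zp H U x (ix H U v) ∧ ix H U v < H) ∧
  ∃ e, x ++ [e] ∈ cT H U ∧ bv H U (x ++ [e]) = zp H U x H ∧ cs H U (zp H U x H) = x ++ [e] ∧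
    zp H U x H = zp H U x (H - 1) ++ [e] ∧ ∀ e', x ++ [e'] ∈ cT H U → e' = e

/-- [HU] (EASY) the longest prefix in `U` (compare `Sh/G_Hgt.lean`). Proof. `Nat.findGreatest`:
(1) `Nat.findGreatest_spec` with `t = 0` (`[] ∈ U`), `Nat.findGreatest_le`; (2)
`Nat.le_findGreatest`; (3) `v.take |v| = v`; (4) the prefixes of `w ++ a :: r` of length `≤ |w|` are in `U`,
those of length `> |w|` are not: their prefix of length `|w| + 1` is `w ++ [a]`
(`Nat.findGreatest_eq_iff`). (5) `hU v < |v|` as `v ∉ U`; `a = v.getD (hU v) false`,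
`r = v.drop (hU v + 1)`; `v.take (hU v + 1) ∉ U` (`Nat.findGreatest_is_greatest`). -/
def StHU : Prop := ∀ U : Finset (List Bool), Bd.PrefClosed U → ([] : List Bool) ∈ U →
  (∀ v, v.take (hU U v) ∈ U ∧ hU U v ≤ v.length) ∧
  (∀ v t, t ≤ v.length → v.take t ∈ U → t ≤ hU U v) ∧
  (∀ v ∈ U, hU U v = v.length) ∧
  (∀ w a r, w ∈ U → w ++ [a] ∉ U → hU U (w ++ a :: r) = w.length) ∧
  ∀ v, v ∉ U → ∃ a r, v = v.take (hU U v) ++ a :: r ∧ v.take (hU U v) ++ [a] ∉ U

/-! ### The code of every vertex -/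

/-- [CoA] (EASY-MEDIUM) codes, first part. (hBv : StBv) (hZp : StZp) (hHU : StHU) Proof. In `code` let
`p = v.take (hU v)`. (1) `v = bv x ∈ U`: `p = v`, `cs p = x`, `ix p = 0 ≤ h`, `q = v.drop |v| = []`. (2)
`hU v = |bv x|` by `StHU` (4), `p = bv x`, `ix p = 0`, `q = a :: u`. (3) `bv x` is a prefix of `v` in `U`, so
`|bv x| ≤ hU v` (`StHU` (2)); `|p| = |bv x| + i'`, and `p` has the prefix `bv x`. If `h + 1 ≤ i'` then
`p.take (|bv x| + h + 1)` is in `U`, so it is `zp x (h + 1)` (`StZp` (2)) and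
`v.take |zp x (h + 1)| = zp x (h + 1)`, excluded. So `i' ≤ h`, `p = zp x i'`, `cs p = x`, `ix p = i'` (`StZp`), and
`q = v.drop |bv x| = a :: u`. -/
def StCoA : Prop := ∀ (H h : ℕ) (T U : Finset (List Bool)), Ctx H h T U →
  (∀ x ∈ cT H U, code H h U (bv H U x) = .cor x) ∧
  (∀ x ∈ cT H U, x ∉ cD H U → ∀ a u, bv H U x ++ [a] ∉ U →
    code H h U (bv H U x ++ a :: u) = .pc (.c a) x false u) ∧
  ∀ x ∈ cD H U, ∀ a u,
    (bv H U x ++ a :: u).take (zp H U x (h + 1)).length ≠ zp H U x (h + 1) →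
    code H h U (bv H U x ++ a :: u) = .pc (.c a) x false u

/-- [CoB] (EASY-MEDIUM) codes, second part. (hBv : StBv) (hZp : StZp) (hHU : StHU) Proof. (1)
`v = zp x (2 h - j)` is in `U`, `p = v`, `cs p = x`, `ix p = 2 h - j > h`, `r = []`, and
`v.take (|bv x| + 1) = zp x 1 = bv x ++ [a]`, so `q.getD 0 false = a`. (2) By `StZp` (5) for
`i = 2 h - j`: `v = zp x i ++ [!e] ++ w` with `zp x i ++ [!e] ∉ U`, so `hU v = |zp x i|` (`StHU` (4)),
`p = zp x i`, `r = !e :: w`, `r.tail = w`; `q.getD 0 false = a` as before (`i ≥ 1`). -/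
def StCoB : Prop := ∀ (H h : ℕ) (T U : Finset (List Bool)), Ctx H h T U → ∀ x ∈ cD H U, ∀ a,
  zp H U x 1 = bv H U x ++ [a] → ∀ j < h,
  code H h U (zp H U x (2 * h - j)) = .pc (.c a) x true ((ze H h U x).take j) ∧
  ∀ w, code H h U (sb (zp H U x (2 * h + 1 - j)) ++ w) =
    .pc (.c a) x true ((ze H h U x).take j ++ lc H h U x j :: w)

/-- [CoC] (EASY-MEDIUM) codes, third part. (hBv : StBv) (hZp : StZp) (hHU : StHU) Proof. As [CoB]:
(1), (2) `p = zp x (2 h + 1 + k)`, `ix p = 2 h + 1 + k`, `r = []` or `!e :: w` (three cases for `k`). (3), (4):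
by `StZp` (8) `bv (x ++ [e]) = zp x H = zp x (H - 1) ++ [e]`, `H - 1 = 2 h + 4`; `p = zp x (2 h + 4)`,
`ix p = 2 h + 4`, `cs (zp x H) = x ++ [e]`, `sb (zp x H) = zp x (2 h + 4) ++ [!e]`. -/
def StCoC : Prop := ∀ (H h : ℕ) (T U : Finset (List Bool)), Ctx H h T U → ∀ x ∈ cD H U,
  (∀ k : Fin 3, code H h U (zp H U x (2 * h + 1 + k.1)) = .e k x) ∧
  (∀ (k : Fin 3) (w : List Bool), code H h U (sb (zp H U x (2 * h + 2 + k.1)) ++ w) =
    .pc (.e k) x false w) ∧
  ∀ e, x ++ [e] ∈ cT H U → code H h U (bv H U (x ++ [e])).dropLast = .en (x ++ [e]) ∧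
    ∀ w, code H h U (sb (bv H U (x ++ [e])) ++ w) = .pc .en (x ++ [e]) false w

/-- [Exh] (EASY-MEDIUM) every vertex has one of the nine forms. (hBv : StBv) (hZp : StZp)
(hHU : StHU) Proof. Let `p = v.take (hU v) ∈ U`, `x = cs p ∈ cT`. If `x ∉ cD`: `ix p = 0` (`StBv` (5)),
`p = bv x` (`StBv` (3)); form 1 if `v ∈ U` (then `v = p`, `StHU` (3)), form 2 otherwise (`StHU` (5)). If
`x ∈ cD`: `p = zp x i`, `i = ix p < H` (`StZp` (7)). (A) `v ∈ U`, `v = zp x i`: form 1 for `i = 0` (`StZp`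
(3)), form 3 for `1 ≤ i ≤ h` (`v` has the prefix `bv x` and is longer, and it is shorter than
`zp x (h + 1)`), form 4 for `h < i ≤ 2 h` (`j = 2 h - i`), form 6 for `i = 2 h + 1 + k`, `k < 3`, form 8
for `i = 2 h + 4` (`StZp` (8)). (B) `v ∉ U`: `v = p ++ a :: r`, `p ++ [a] ∉ U`; with `e` of `StZp` (5) `a = !e`
(as `zp x (i + 1) ∈ U`), so `v = sb (zp x (i + 1)) ++ r`. Form 3 for `i ≤ h`: if
`v.take |zp x (h + 1)| = zp x (h + 1)` then (`|v|` is at least `|zp x (h + 1)|`, otherwise the lengths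
differ) `|bv x| + h + 1 ≤ hU v = |bv x| + i` by `StHU` (2), contradiction. Form 5 for `h < i ≤ 2 h`
(`j = 2 h - i`), form 7 for `i = 2 h + 1 + k`, form 9 for `i = 2 h + 4`. -/
def StExh : Prop := ∀ (H h : ℕ) (T U : Finset (List Bool)), Ctx H h T U → ∀ v ∈ T,
  (∃ x ∈ cT H U, v = bv H U x) ∨
  (∃ x ∈ cT H U, x ∉ cD H U ∧ ∃ a u, bv H U x ++ [a] ∉ U ∧ v = bv H U x ++ a :: u) ∨
  (∃ x ∈ cD H U, ∃ a u, v = bv H U x ++ a :: u ∧
    v.take (zp H U x (h + 1)).length ≠ zp H U x (h + 1)) ∨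
  (∃ x ∈ cD H U, ∃ j < h, v = zp H U x (2 * h - j)) ∨
  (∃ x ∈ cD H U, ∃ j < h, ∃ w, v = sb (zp H U x (2 * h + 1 - j)) ++ w) ∨
  (∃ x ∈ cD H U, ∃ k : Fin 3, v = zp H U x (2 * h + 1 + k.1)) ∨
  (∃ x ∈ cD H U, ∃ (k : Fin 3) (w : List Bool), v = sb (zp H U x (2 * h + 2 + k.1)) ++ w) ∨
  (∃ x ∈ cD H U, ∃ e, x ++ [e] ∈ cT H U ∧ v = (bv H U (x ++ [e])).dropLast) ∨
  ∃ x ∈ cD H U, ∃ e, x ++ [e] ∈ cT H U ∧ ∃ w, v = sb (bv H U (x ++ [e])) ++ w

/-! ### The shapes -/

/-- [T0] (EASY-MEDIUM) membership in the side `false`. (hSub : StSub) (hBv : StBv) (hZp : StZp)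
Proof. `StSub` (1): `u ∈ sub T v ↔ v ++ u ∈ T`; `(b ++ [a]) ++ u = b ++ a :: u`. (1) `te` is false, as
`x ∉ cD`; if `bv x ++ a :: u ∈ T` then its prefix `bv x ++ [a]` is in `T` (`px`). (2) `px` is false.
(3) If `te` holds the filter is the condition; if not then `a` is not the letter of `zp x 1`, and the
condition holds automatically, because the prefix of length `|bv x| + 1` of `zp x (h + 1)` is `zp x 1`
(`StZp` (4)). (4), (5) clear (`rv` is a prefix of the vertex; `(x ++ [e]).dropLast = x`). (6) For `px`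
false the set is empty; otherwise `sub T _` is prefix closed (`StSub`), and if `rv ++ u.take t` has the
prefix `zp x (h + 1)` then so has `rv ++ u`. (7) `px`; each case contains `x ∈ cT` (`StBv` (4)). -/
def StT0 : Prop := ∀ (H h : ℕ) (T U : Finset (List Bool)), Ctx H h T U →
  (∀ x ∈ cT H U, x ∉ cD H U → ∀ a u, bv H U x ++ [a] ∉ U →
    (u ∈ t0 H h T U (.c a) x ↔ bv H U x ++ a :: u ∈ T)) ∧
  (∀ x ∈ cT H U, x ∉ cD H U → ∀ a u, bv H U x ++ [a] ∈ U → u ∉ t0 H h T U (.c a) x) ∧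
  (∀ x ∈ cD H U, ∀ a u, (u ∈ t0 H h T U (.c a) x ↔ bv H U x ++ a :: u ∈ T ∧
    (bv H U x ++ a :: u).take (zp H U x (h + 1)).length ≠ zp H U x (h + 1))) ∧
  (∀ x ∈ cD H U, ∀ (k : Fin 3) (u : List Bool), (u ∈ t0 H h T U (.e k) x ↔
    sb (zp H U x (2 * h + 2 + k.1)) ++ u ∈ T)) ∧
  (∀ x ∈ cD H U, ∀ e, x ++ [e] ∈ cT H U → ∀ u, (u ∈ t0 H h T U .en (x ++ [e]) ↔
    sb (bv H U (x ++ [e])) ++ u ∈ T)) ∧
  (∀ g x, Bd.PrefClosed (t0 H h T U g x)) ∧
  ∀ g x, (t0 H h T U g x).Nonempty → x ∈ cT H U ∧ px H h T U g x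

/-- [T1] (EASY-MEDIUM) the side `true`. (hSub : StSub) (hZp : StZp)
Proof. Write `z = ze x`; `|z| = |zp x h| - (|bv x| + 1) = h - 1`. (2) by definition and `StSub` (1).
(3) `u = z.take j` has `j` letters (`j ≤ h - 1`), so `u = z.take |u|`. (4) Let `u = z.take j ++ c :: w`,
`c = lc x j = !(z.getD j true)`, `j < h`. If `j < |z|` then the letter number `j` of `u` is `c`, different from
the one of `z`; if `j = |z|` then `|u| > |z|`; so `u ≠ z.take |u|`, and `lp z u = j`: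
`u.take j = z.take j`, and for `t > j`, `t ≤ |z|`: `u.take t ≠ z.take t` (`Nat.findGreatest_eq_iff`);
`u.drop (j + 1) = w`. (5) For `te` false the set is empty. Prefixes: those of `z.take j` are `z.take i`,
`i ≤ j`; those of `z.take j ++ c :: w` are `z.take i`, `i ≤ j`, and `z.take j ++ c :: w.take i`, where
`sb (..) ++ w.take i ∈ T` (`T` is prefix closed). (6) `te`; `StZp` (5) for `i = 0` (and `StZp` (3)). (7)
`z = z.take (h - 1)`. -/
def StT1 : Prop := ∀ (H h : ℕ) (T U : Finset (List Bool)), Ctx H h T U →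
  (∀ x ∈ cD H U, (ze H h U x).length = h - 1 ∧ ∀ a, zp H U x 1 = bv H U x ++ [a] →
    (∀ u, u ∈ t1 H h T U (.c a) x ↔ (∃ j < h, u = (ze H h U x).take j) ∨
      ∃ j < h, ∃ w, sb (zp H U x (2 * h + 1 - j)) ++ w ∈ T ∧
        u = (ze H h U x).take j ++ lc H h U x j :: w) ∧
    (∀ j < h, k2 H h U x ((ze H h U x).take j) = zp H U x (2 * h - j)) ∧
    (∀ j < h, ∀ w, k2 H h U x ((ze H h U x).take j ++ lc H h U x j :: w) =
      sb (zp H U x (2 * h + 1 - j)) ++ w)) ∧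
  (∀ g x, Bd.PrefClosed (t1 H h T U g x)) ∧
  ∀ g x, (t1 H h T U g x).Nonempty → x ∈ cD H U ∧ (∃ a, g = .c a ∧ zp H U x 1 = bv H U x ++ [a]) ∧
    ze H h U x ∈ t1 H h T U g x

/-- [Zf] (EASY) the crossing is on the side `false`, too. (hZp : StZp) (hT0 : StT0) Proof.
`zp x h = bv x ++ [a] ++ ze x` (`StZp` (4) for `j = 1`, `i = h`), it is in `U ⊆ T`, and it is shorter than
`zp x (h + 1)`; `StT0` (3). -/
def StZf : Prop := ∀ (H h : ℕ) (T U : Finset (List Bool)), Ctx H h T U → ∀ x ∈ cD H U, ∀ a,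
  zp H U x 1 = bv H U x ++ [a] → zp H U x h = bv H U x ++ a :: ze H h U x ∧
    ze H h U x ∈ t0 H h T U (.c a) x

/-! ### Codes are valid, injective, and edges go to related codes -/

/-- [Val] (EASY-MEDIUM) the code is valid and determines the vertex. (hBv : StBv) (hZp : StZp)
(hCoA : StCoA) (hCoB : StCoB) (hCoC : StCoC) (hExh : StExh) (hT0 : StT0) (hT1 : StT1)
Proof. The nine forms of `StExh`; the code is given by `StCoA` (1: form 1; 2: form 2; 3: form 3), `StCoB`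
(forms 4, 5; `a` from `StZp` (5) for `i = 0`, `StZp` (3)), `StCoC` (forms 6, 7, 8, 9). `Vd`: by
definition, `StT0` and `StT1` (`v ∈ T`). `kap`: by definition (`rv ++ u`), `StT1` for the side `true`. -/
def StVal : Prop := ∀ (H h : ℕ) (T U : Finset (List Bool)), Ctx H h T U → ∀ v ∈ T,
  Vd (cT H U) (cD H U) (ts H h T U) (code H h U v) ∧ kap H h U (code H h U v) = v

/-- [Inv] (MEDIUM) every valid code is the code of its vertex, and the level parity. (hBv : StBv)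
(hZp : StZp) (hCoA : StCoA) (hCoB : StCoB) (hCoC : StCoC) (hT0 : StT0) (hT1 : StT1)
Proof. Cases. `cor x`: `bv x ∈ U ⊆ T`, `StCoA` (1), parity by `StBv` (2). `e k x`: `zp x (2 h + 1 + k) ∈ U`,
`StCoC` (1), its length is `|bv x| + 2 h + 1 + k`. `en x`: `x = y ++ [e]`, `y ∈ cD`; `bv x = zp y H`
(`StZp` (8)), `dropLast` is a prefix; `StCoC` (3); the length of `bv x` has the parity of `|x|`, and one less.
`pc g x false u`: by `StT0` (7) `px`. `g = c a`: `x ∉ cD`: `bv x ++ [a] ∉ U` from `px`, `StT0` (1), `StCoA`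
(2); `x ∈ cD`: `StT0` (3), `StCoA` (3); length `|bv x| + 1 + |u|`. `g = e k`: `StT0` (4), `StCoC` (2); the
length is `|bv x| + 2 h + 2 + k + |u|`, and `kp (e k) = 1 + k` in `ZMod 2` (`k = 0, 1, 2`). `g = en`:
`x = y ++ [e]`, `StT0` (5), `StCoC` (4); length `|bv x| + |u|` (`sb` preserves the length of a nonempty
list), `kp en = 1`. `pc g x true u`: `StT1`: `x ∈ cD`, `g = c a`, and `u = z.take j` or
`u = z.take j ++ lc x j :: w` with `z = ze x`, `|z.take j| = j`; `k2` is given there, `StCoB`; the lengths are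
`|bv x| + 2 h - j` (and `|u| = j`) resp. `|bv x| + 2 h + 1 - j + |w|` (and `|u| = j + 1 + |w|`), both
`|x| + |u|` in `ZMod 2`, and `1 + kp g + sd true = 0`. -/
def StInv : Prop := ∀ (H h : ℕ) (T U : Finset (List Bool)), Ctx H h T U → ∀ c : Cd,
  Vd (cT H U) (cD H U) (ts H h T U) c →
    kap H h U c ∈ T ∧ code H h U (kap H h U c) = c ∧
    ((kap H h U c).length : ZMod 2) = lv c

/-- [ReA] (MEDIUM) edges in `U`. (hBv : StBv) (hZp : StZp) (hDec : StDec) (hCoA : StCoA)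
(hCoB : StCoB) (hCoC : StCoC) (hT0 : StT0) (hT1 : StT1) (hZf : StZf)
Proof. Let `x = cs v` (`v ∈ U`, prefix closed). If `x ∉ cD`: `v = bv x` (`StBv` (5), (3)), and
`v ++ [e] = bv (x ++ [e])` (`StBv` (6)): `Rel.cc`. If `x ∈ cD`: `v = zp x i`, `i < H` (`StZp` (7)), and
`v ++ [e] = zp x (i + 1)` (`StZp` (2)). Let `zp x 1 = bv x ++ [a]` (`StZp` (5), (3)), `z = ze x`.
`i = 0`: `cor x`, and `bv x ++ [e]` has the code `pc (c e) x false []` (`StCoA` (3), `1 ≤ h`): `Rel.rt`, `StT0`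
(3). `1 ≤ i < h`: `v = bv x ++ a :: u`, `v ++ [e] = bv x ++ a :: (u ++ [e])`, both shorter than
`zp x (h + 1)`: `Rel.st`. `i = h`: `v = bv x ++ a :: z` (`StZf`), code `pc (c a) x false z`;
`zp x (h + 1) = zp x (2 h - (h - 1))` has the code `pc (c a) x true (z.take (h - 1))`, and
`z.take (h - 1) = z`: `Rel.cr`, `z ∈ t1` by `StT1`. `h < i < 2 h`: `j = 2 h - i`, codes `pc (c a) x true` of
`z.take j` and `z.take (j - 1)`, `z.take j = z.take (j - 1) ++ [b]`: `Rel.st`, reversed. `i = 2 h`: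
`pc (c a) x true []` and `e 0 x`: `Rel.pe`. `i = 2 h + 1, 2 h + 2`: `Rel.e0`, `Rel.e1`. `i = 2 h + 3`:
`e 2 x` and `zp x (2 h + 4) = (bv (x ++ [e'])).dropLast` (`StZp` (8)) with the code `en (x ++ [e'])`:
`Rel.xe`. `i = 2 h + 4`: `en (x ++ [e'])` and `zp x H = bv (x ++ [e'])`: `Rel.ec`. -/
def StReA : Prop := ∀ (H h : ℕ) (T U : Finset (List Bool)), Ctx H h T U → ∀ v e, v ++ [e] ∈ U →
  Rel (cT H U) (cD H U) (ts H h T U) (ze H h U) (code H h U v) (code H h U (v ++ [e])) ∨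
  Rel (cT H U) (cD H U) (ts H h T U) (ze H h U) (code H h U (v ++ [e])) (code H h U v)

/-- [ReB] (MEDIUM) edges out of `U`. (hBv : StBv) (hZp : StZp) (hHU : StHU) (hCoA : StCoA)
(hCoB : StCoB) (hCoC : StCoC) (hExh : StExh) (hT0 : StT0) (hT1 : StT1)
Proof. Use the nine forms of `v` (`v ∈ T`). Form 1, `v = bv x`: if `x ∉ cD`, `v ++ [e]` has the code
`pc (c e) x false []` by `StCoA` (2); if `x ∈ cD` the same by `StCoA` (3) (`1 ≤ h`: the vertex is shorter
than `zp x (h + 1)`): `Rel.rt`, `StT0`. Form 2: `v ++ [e]` is form 2 with `u ++ [e]`: `Rel.st`. Form 3: `v ++ [e]`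
does not have the prefix `zp x (h + 1)`: otherwise `v ++ [e] = zp x (h + 1) ∈ U` (as `v` does not have it); so
it is form 3 with `u ++ [e]`: `Rel.st`. Form 4: `v = zp x (2 h - j)`; with `e'` of `StZp` (5)
(`i = 2 h - j`) `e = !e'` as `zp x (i + 1) ∈ U`, so `v ++ [e] = sb (zp x (2 h + 1 - j)) ++ []`: `Rel.st` from
`z.take j` to `z.take j ++ [lc x j]`. Form 5: `w` and `w ++ [e]`: `Rel.st`. Form 6: `e k x`, and
`v ++ [e] = sb (zp x (2 h + 2 + k)) ++ []`: `Rel.rt (e k)`. Form 7: `Rel.st`. Form 8: `en (x ++ [e'])`,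
`v = zp x (2 h + 4)`, `v ++ [e] = sb (bv (x ++ [e'])) ++ []`: `Rel.rt en`. Form 9: `Rel.st`. -/
def StReB : Prop := ∀ (H h : ℕ) (T U : Finset (List Bool)), Ctx H h T U → ∀ v e,
  v ++ [e] ∈ T → v ++ [e] ∉ U →
  Rel (cT H U) (cD H U) (ts H h T U) (ze H h U) (code H h U v) (code H h U (v ++ [e]))

/-! ### Counts -/

/-- [Cwt] (EASY-MEDIUM) the vertices of the pieces are counted once. (hInv : StInv) Proof. The map
`(g, x, s, u) ↦ kap (pc g x s u)`, `x ∈ cT`, `u ∈ ts g x s`, has values in `T`; it is injective because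
`code (kap c) = c`; the parity of the length is `lv c`. (`Finset.card_sigma` over
`univ ×ˢ cT ×ˢ univ`, `Finset.card_le_card_of_injOn`.) -/
def StCwt : Prop := ∀ (H h : ℕ) (T U : Finset (List Bool)), Ctx H h T U → ∀ d : ZMod 2,
  ∑ g : Tag, ∑ x ∈ cT H U, ∑ s : Bool, ((ts H h T U g x s).filter fun u =>
    (x.length : ZMod 2) + 1 + kp g + sd s + (u.length : ZMod 2) = d).card ≤
    (T.filter fun v => (v.length : ZMod 2) = d).card

/-- [Len] (EASY-MEDIUM) the addresses are short. (hSub : StSub) (hCrp : StCrp) (hBv : StBv)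
(hZp : StZp) (hHU : StHU) (hT0 : StT0) (hT1 : StT1)
Proof. (L) If `y ∉ U` and `y ++ w ∈ T` then `|w| < S`: `y ∈ T`, `(sub T y).card < S` (`StCrp` (5)), and
the `|w| + 1` prefixes of `w` are different elements of `sub T y`. Side `false`, `u ∈ t0 g x`, `px` holds. If
`g = e k` or `g = en` the root `rv g x` is not in `U` (`StZp` (5), (8)): `|u| < S`. `g = c a`, `x ∉ cD`:
`bv x ++ [a] ∉ U`, `|u| < S`. `g = c a`, `x ∈ cD`, `v = bv x ++ a :: u`: if `v ∈ U` then `|v| ≤ |bv x| + h`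
(otherwise `v.take (|bv x| + h + 1) = zp x (h + 1)` by `StZp` (2)); if `v ∉ U`, `p = v.take (hU v)`, `v = p ++ b :: r`
(`StHU` (5)), `|p| ≤ |bv x| + h` for the same reason and `|r| < S` by (L); so `|u| ≤ h + S`. Side `true`:
`StT1`: `x ∈ cD`; `|z.take j| ≤ h - 1`; and `|w| < S` by (L), as `sb (zp x (2 h + 1 - j)) ∉ U`. -/
def StLen : Prop := ∀ (S H h : ℕ) (T : Finset (List Bool)), Ctx H h T (cor S T) →
  ∀ g x s, ∀ u ∈ ts H h T (cor S T) g x s, u.length ≤ S + h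

/-- [Siz] (EASY) the size of the contracted tree. (hCnt : StCnt) (hLfc : StLfc) (hCrp : StCrp)
Proof. With `U = cor S T`, `L = (lf U).card`: `(cD H U).card * H ≤ U.card ≤ T.card`,
`(cT H U).card ≤ (cD H U).card + 2 ^ H * (2 * L)`, `L * S ≤ T.card + S`. Multiply by `H * S`. -/
def StSiz : Prop := ∀ (S H : ℕ) (T : Finset (List Bool)), 0 < H → Bd.PrefClosed T →
  H * S * (cT H (cor S T)).card ≤ S * T.card + 2 ^ (H + 1) * H * (T.card + S)

/-- [Tree] (EASY) THE TREE SIDE. (hDec : StDec) (hBv : StBv) (hT0 : StT0) (hT1 : StT1) (hZf : StZf)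
(hVal : StVal) (hReA : StReA) (hReB : StReB) (hCwt : StCwt) (hLen : StLen) (hSiz : StSiz)
(hCrp : StCrp) Proof. `U = cor S T`, `H = 2 h + 5`: `Ctx H h T U` by `StCrp`. `X = cT H U`, `G = cD H U`,
`t = ts H h T U`, `z = ze H h U`, `code = code H h U`. Injectivity from `StVal` (`kap (code v) = v`). The
claims on the tags `e k`, `en`: `StT0` (7) and `px` for the side `false`, `StT1` (6) for the side `true` (it
says `g = c a`); the letter `a` with a nonempty side `true` is unique, as `zp x 1 = bv x ++ [a]`. -/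
def StTree : Prop := ∀ (S h : ℕ) (T : Finset (List Bool)), 1 ≤ h → Bd.PrefClosed T →
  T.Nonempty →
  ∃ (X G : Finset (List Bool)) (t : Tag → List Bool → Bool → Finset (List Bool))
    (z : List Bool → List Bool) (code : List Bool → Cd),
    Bd.PrefClosed X ∧ ([] : List Bool) ∈ X ∧ G ⊆ X ∧
    (2 * h + 5) * S * X.card ≤
      S * T.card + 2 ^ (2 * h + 6) * (2 * h + 5) * (T.card + S) ∧
    (∀ g x s, Bd.PrefClosed (t g x s) ∧ (∀ u ∈ t g x s, u.length ≤ S + h) ∧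
      ((t g x s).Nonempty → x ∈ X)) ∧
    (∀ g x, (t g x true).Nonempty → x ∈ G ∧ (∃ a, g = .c a) ∧ (z x).length = h - 1 ∧
      z x ∈ t g x false ∧ z x ∈ t g x true) ∧
    (∀ k x s, (t (.e k) x s).Nonempty → x ∈ G) ∧
    (∀ x s, (t .en x s).Nonempty → x ≠ [] ∧ x.dropLast ∈ G) ∧
    (∀ x a a', (t (.c a) x true).Nonempty → (t (.c a') x true).Nonempty → a = a') ∧
    (∀ v ∈ T, Vd X G t (code v)) ∧
    (∀ v ∈ T, ∀ v' ∈ T, code v = code v' → v = v') ∧
    (∀ v e, v ++ [e] ∈ T → Rel X G t z (code v) (code (v ++ [e])) ∨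
      Rel X G t z (code (v ++ [e])) (code v)) ∧
    ∀ d : ZMod 2, ∑ g : Tag, ∑ x ∈ X, ∑ s : Bool, ((t g x s).filter fun u =>
      (x.length : ZMod 2) + 1 + kp g + sd s + (u.length : ZMod 2) = d).card ≤
      (T.filter fun v => (v.length : ZMod 2) = d).card

end Pool.Agent.Work.MP_bf01b2_co.La
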