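import Pool.Agent.Work.MP_bf01b2_co.La.StmtsM
import Pool.Agent.Work.MP_bf01b2_co.La.StmtsC

/-!
# MP_bf01b2_co, theorem LARGE: item TrM
-/

set_option autoImplicit false

namespace Pool.Agent.Work.MP_bf01b2_co.La

open Pool.Agent.Work.MP_bf01b2_co.Bd

open Classical

open Pool.Agent.Work.MP_bf01b2_co.Sh (strs StShp)

namespace IMTrM

/-- the bound of the size -/
theorem size (h S x t : ℕ) (hS : 1 ≤ S)
    (hb : (2 * h + 5) * S * x ≤ S * t + 2 ^ (2 * h + 6) * (2 * h + 5) * (t + S)) :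
    (x : ℝ) ≤ t / (2 * h + 5) + 2 ^ (2 * h + 6) * (t / S + 1) := by
  have hSR : (0 : ℝ) < S := by exact_mod_cast hS
  have hH : (0 : ℝ) < 2 * h + 5 := by positivity
  have hbR : (2 * (h : ℝ) + 5) * S * x ≤
      S * t + 2 ^ (2 * h + 6) * (2 * h + 5) * (t + S) := by exact_mod_cast hb
  have h1 : (t : ℝ) / (2 * h + 5) + 2 ^ (2 * h + 6) * (t / S + 1) =
      (S * t + 2 ^ (2 * h + 6) * (2 * h + 5) * (t + S)) / ((2 * (h : ℝ) + 5) * S) := by
    field_simp
  rw [h1, le_div_iff₀ (by positivity)]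
  linarith

end IMTrM

open IMTrM in
/-- Item [TrM]. -/
theorem pr_TrM (h1 : StTree) (h2 : StShp) : StTrM := by
  intro M h S hMh hS
  refine ⟨S + h, fun T hT hTn => ?_⟩
  obtain ⟨X, G, t, z, code, hX, hn, hG, hsz, ht, htt, hte, -, -, hVd, hinj, hRel, hcnt⟩ :=
    h1 S h T (by omega) hT hTn
  refine ⟨X, G, t, z, code, ⟨hX, hn, hG, fun g x s => (ht g x s).1, fun g x s u hu => ?_,
    fun g x s => (ht g x s).2.2, fun k x => hte k x false, fun g x hne => ?_⟩,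
    hVd, hinj, hRel, hcnt, size h S X.card T.card hS hsz⟩
  · exact (h2.2.2.1 (S + h) u).2 ((ht g x s).2.1 u hu)
  · obtain ⟨g1, g2, g3, g4, g5⟩ := htt g x hne
    exact ⟨g1, g2, by omega, g4, g5⟩

end Pool.Agent.Work.MP_bf01b2_co.La
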