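import Pool.Agent.Work.MP_bf01b2_co.Sh.AllT
import Pool.Agent.Work.MP_bf01b2_co.Sh.P_Adj
import Pool.Agent.Work.MP_bf01b2_co.Sh.P_Pty
import Pool.Agent.Work.MP_bf01b2_co.Sh.P_Loc
import Pool.Agent.Work.MP_bf01b2_co.Sh.P_Law
import Pool.Agent.Work.MP_bf01b2_co.Sh.P_Pri
import Pool.Agent.Work.MP_bf01b2_co.Sh.P_Yc
import Pool.Agent.Work.MP_bf01b2_co.Sh.P_Cp
import Pool.Agent.Work.MP_bf01b2_co.Sh.P_Hal
import Pool.Agent.Work.MP_bf01b2_co.Sh.P_Brg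
import Pool.Agent.Work.MP_bf01b2_co.Sh.P2_Gs
import Pool.Agent.Work.MP_bf01b2_co.Sh.P2_Loc2
import Pool.Agent.Work.MP_bf01b2_co.Sh.P2_Cls2
import Pool.Agent.Work.MP_bf01b2_co.Sh.P2_Inj2
import Pool.Agent.Work.MP_bf01b2_co.Sh.P2_Clr2
import Pool.Agent.Work.MP_bf01b2_co.Sh.P2_Ct2
import Pool.Agent.Work.MP_bf01b2_co.Sh.P2_Tile2
import Pool.Agent.Work.MP_bf01b2_co.Sh.D_CoZD
import Pool.Agent.Work.MP_bf01b2_co.Sh.D_NmsD
import Pool.Agent.Work.MP_bf01b2_co.Sh.D_Nms2D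
import Pool.Agent.Work.MP_bf01b2_co.Sh.G_Prt
import Pool.Agent.Work.MP_bf01b2_co.Sh.G_Shp
import Pool.Agent.Work.MP_bf01b2_co.Sh.G_TrR
import Pool.Agent.Work.MP_bf01b2_co.Sh.M_Cb2
import Pool.Agent.Work.MP_bf01b2_co.Sh.Q_PtC
import Pool.Agent.Work.MP_bf01b2_co.La.AllC
import Pool.Agent.Work.MP_bf01b2_co.La.M_TrM
import Pool.Agent.Work.MP_bf01b2_co.La.M_Ofs
import Pool.Agent.Work.MP_bf01b2_co.La.M_MapL
import Pool.Agent.Work.MP_bf01b2_co.La.M_TyL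
import Pool.Agent.Work.MP_bf01b2_co.La.M_ItmL
import Pool.Agent.Work.MP_bf01b2_co.La.M_CnwL
import Pool.Agent.Work.MP_bf01b2_co.La.M_GluL
import Pool.Agent.Work.MP_bf01b2_co.La.M_NumD
import Pool.Agent.Work.MP_bf01b2_co.La.M_PreD
import Pool.Agent.Work.MP_bf01b2_co.La.M_Pr
import Pool.Agent.Work.MP_bf01b2_co.La.Fin

/-!
# MP_bf01b2_co, theorems LARGE and D: all items together
-/

set_option autoImplicit false

namespace Pool.Agent.Work.MP_bf01b2_co.La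

open Pool.Agent.Work.MP_bf01b2_co.Sh

/-- The tiles with two ends. -/
theorem tile2 : StTile2 :=
  pr_Tile2 pr_Adj (pr_Pty pr_Adj) pr_Loc pr_Law pr_Yc
    (pr_Clr2 pr_Pri pr_Yc (pr_Cls2 pr_Law) pr_Inj2 pr_Gs) pr_Cp (pr_Ct2 pr_Gs) pr_Loc2 pr_Gs

/-- Theorem D for prefix closed sets. -/
theorem preD : StPreD :=
  have hty := pr_TyL pr_Shp
  pr_PreD (pr_GluL tile2 (pr_Brg pr_Hal) (pr_MapL pr_Ofs) pr_Ofs hty pr_PtC) (pr_CoZD emT)
    (pr_Nms2D pr_NmsD) (pr_ItmL hty) (pr_CnwL hty) (pr_TrM tree pr_Shp) pr_Cb2 pr_NumD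

/-- Theorem D: for every `δ > 0` and `n` large, every binary tree whose two colour classes have at
most `(1 - δ) 2 ^ n` vertices is a subgraph of `Q_{n+1}`. -/
theorem finD : StFinD := pr_FinD preD pr_TrR

/-- Theorem LARGE: for `n` large, every binary tree with at most `2 ^ n` vertices is a subgraph of
`Q_{n+1}`. -/
theorem fin : StFin := pr_Fin (pr_Pr preD pr_Prt) pr_TrR

end Pool.Agent.Work.MP_bf01b2_co.La
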