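import Pool.Agent.Work.MP_bf01b2_co.La.StmtsC

/-! Item C.Inv: every valid code is the code of its vertex. -/

set_option autoImplicit false

namespace Pool.Agent.Work.MP_bf01b2_co.La

open Pool.Agent.Work.MP_bf01b2_co.Bd

open Classical

open Pool.Agent.Work.MP_bf01b2_co.Fw (rt lf StRt StBr)

open Pool.Agent.Work.MP_bf01b2_co.Sh (sub strs cor StSub StCrp)

namespace ICInv

theorem two : (2 : ZMod 2) = 0 := rfl

theorem split (x : List Bool) (hx : x ≠ []) : ∃ y e, x = y ++ [e] :=
  ⟨x.dropLast, x.getLast hx, (List.dropLast_append_getLast hx).symm⟩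

end ICInv

theorem pr_Inv (hBv : StBv) (hZp : StZp) (hCoA : StCoA) (hCoB : StCoB) (hCoC : StCoC)
    (hT0 : StT0) (hT1 : StT1) : StInv := by
  intro H h T U hC c hc
  obtain ⟨b1, b2, b3, b4, b5, b6, b7⟩ := hBv H h T U hC
  have hH := hC.hH
  have h2 := ICInv.two
  rcases c with x | ⟨k, x⟩ | x | ⟨g, x, s, u⟩
  · -- cor
    have hx : x ∈ cT H U := hc
    exact ⟨hC.hUT (b2 x hx).1, (hCoA H h T U hC).1 x hx, (b2 x hx).2.2.2⟩
  · -- e
    have hx : x ∈ cD H U := hc
    obtain ⟨z1, -⟩ := hZp H h T U hC x hx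
    have hk := k.2
    obtain ⟨q1, q2, -⟩ := z1 (2 * h + 1 + k.1) (by omega)
    refine ⟨hC.hUT q1, (hCoC H h T U hC x hx).1 k, ?_⟩
    show ((zp H U x (2 * h + 1 + k.1)).length : ZMod 2) = (x.length : ZMod 2) + 1 + (k.1 : ZMod 2)
    have hp := (b2 x (b4 x hx).1).2.2.2
    rw [q2]
    push_cast
    rw [hp]
    linear_combination (h : ZMod 2) * h2
  · -- en
    obtain ⟨hx, hne, hd⟩ : x ∈ cT H U ∧ x ≠ [] ∧ x.dropLast ∈ cD H U := hc
    obtain ⟨y, e, rfl⟩ := ICInv.split x hne
    rw [List.dropLast_concat] at hd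
    obtain ⟨z1, z2, z3, z4, z5, z6, z7, e', z8, z9, z10, z11, z12⟩ := hZp H h T U hC y hd
    have he : e = e' := z12 e hx
    subst he
    have hdl : (bv H U (y ++ [e])).dropLast = zp H U y (H - 1) := by
      rw [z9, z11, List.dropLast_concat]
    obtain ⟨q1, q2, -⟩ := z1 (H - 1) (by omega)
    refine ⟨?_, ((hCoC H h T U hC y hd).2.2 e hx).1, ?_⟩
    · show (bv H U (y ++ [e])).dropLast ∈ T
      rw [hdl]
      exact hC.hUT q1
    · show ((bv H U (y ++ [e])).dropLast.length : ZMod 2) = ((y ++ [e]).length : ZMod 2) + 1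
      have hp := (b2 (y ++ [e]) hx).2.2.2
      rw [← hp, hdl, z9, z11, List.length_append, List.length_singleton]
      push_cast
      linear_combination -h2
  · rcases s with _ | _
    · -- side false
      have hu : u ∈ t0 H h T U g x := by simpa [Vd, ts] using hc
      obtain ⟨t1, t2, t3, t4, t5, t6, t7⟩ := hT0 H h T U hC
      obtain ⟨hxT, hpx⟩ := t7 g x ⟨u, hu⟩
      show rv H h U g x ++ u ∈ T ∧ code H h U (rv H h U g x ++ u) = .pc g x false u ∧
        ((rv H h U g x ++ u).length : ZMod 2) =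
          (x.length : ZMod 2) + 1 + kp g + sd false + (u.length : ZMod 2)
      have hsd : sd false = 0 := rfl
      rw [hsd]
      rcases g with a | k | _
      · have hrv : rv H h U (.c a) x ++ u = bv H U x ++ a :: u := by
          show bv H U x ++ [a] ++ u = bv H U x ++ a :: u
          simp
        have hkp : kp (.c a) = 0 := rfl
        rw [hrv, hkp]
        have hp := (b2 x hxT).2.2.2
        have hlen : ((bv H U x ++ a :: u).length : ZMod 2) =
            (x.length : ZMod 2) + 1 + 0 + 0 + (u.length : ZMod 2) := by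
          rw [List.length_append, List.length_cons]
          push_cast
          rw [hp]
          ring
        obtain ⟨p1, p2, p3⟩ : x ∈ cT H U ∧ (x ∈ cD H U ∨ bv H U x ++ [a] ∉ U) ∧
          bv H U x ++ [a] ∈ T := hpx
        by_cases hx : x ∈ cD H U
        · have h1 := (t3 x hx a u).1 hu
          exact ⟨h1.1, (hCoA H h T U hC).2.2 x hx a u h1.2, hlen⟩
        · have h0 : bv H U x ++ [a] ∉ U := p2.resolve_left hx
          exact ⟨(t1 x hxT hx a u h0).1 hu, (hCoA H h T U hC).2.1 x hxT hx a u h0, hlen⟩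
      · obtain ⟨hx, -⟩ : x ∈ cD H U ∧ sb (zp H U x (2 * h + 2 + k.1)) ∈ T := hpx
        have hk := k.2
        have hp := (b2 x hxT).2.2.2
        obtain ⟨z1, z2, z3, z4, z5, -⟩ := hZp H h T U hC x hx
        obtain ⟨e, w1, w2, w3⟩ := z5 (2 * h + 1 + k.1) (by omega)
        obtain ⟨q1, q2, -⟩ := z1 (2 * h + 1 + k.1) (by omega)
        have hi : 2 * h + 1 + k.1 + 1 = 2 * h + 2 + k.1 := by ring
        rw [hi] at w2
        refine ⟨(t4 x hx k u).1 hu, (hCoC H h T U hC x hx).2.1 k u, ?_⟩
        show ((sb (zp H U x (2 * h + 2 + k.1)) ++ u).length : ZMod 2) = _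
        rw [w2, List.length_append, List.length_append, q2, List.length_singleton]
        have hkk : (k.1 : ZMod 2) = 1 + kp (.e k) := by
          fin_cases k <;> rfl
        push_cast
        rw [hp, hkk]
        linear_combination ((h : ZMod 2) + 1) * h2
      · obtain ⟨hx, hne, hd, -⟩ : x ∈ cT H U ∧ x ≠ [] ∧ x.dropLast ∈ cD H U ∧
          sb (bv H U x) ∈ T := hpx
        obtain ⟨y, e, rfl⟩ := ICInv.split x hne
        rw [List.dropLast_concat] at hd
        have hp := (b2 (y ++ [e]) hxT).2.2.2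
        obtain ⟨z1, z2, z3, z4, z5, z6, z7, e', z8, z9, z10, z11, z12⟩ := hZp H h T U hC y hd
        obtain ⟨e1, w1, w2, w3⟩ := z5 (H - 1) (by omega)
        have he : e = e' := z12 e hx
        subst he
        have hi : H - 1 + 1 = H := by omega
        rw [hi, ← z9] at w2
        refine ⟨(t5 y hd e hx u).1 hu, ((hCoC H h T U hC y hd).2.2 e hx).2 u, ?_⟩
        show ((sb (bv H U (y ++ [e])) ++ u).length : ZMod 2) = _
        have hkp : kp .en = 1 := rfl
        rw [hkp, ← hp, w2, z9, z11]
        simp only [List.length_append, List.length_singleton]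
        push_cast
        linear_combination -h2
    · -- side true
      have hu : u ∈ t1 H h T U g x := by simpa [Vd, ts] using hc
      obtain ⟨r1, r2, r3⟩ := hT1 H h T U hC
      obtain ⟨hx, ⟨a, rfl, ha⟩, -⟩ := r3 g x ⟨u, hu⟩
      obtain ⟨hl, hr⟩ := r1 x hx
      obtain ⟨m1, m2, m3⟩ := hr a ha
      have hp := (b2 x (b4 x hx).1).2.2.2
      obtain ⟨z1, z2, z3, z4, z5, -⟩ := hZp H h T U hC x hx
      show k2 H h U x u ∈ T ∧ code H h U (k2 H h U x u) = .pc (.c a) x true u ∧
        ((k2 H h U x u).length : ZMod 2) =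
          (x.length : ZMod 2) + 1 + kp (.c a) + sd true + (u.length : ZMod 2)
      have hsd : sd true = 1 := rfl
      have hkp : kp (.c a) = 0 := rfl
      rw [hsd, hkp]
      have hcast : ∀ j < h, ((2 * h - j : ℕ) : ZMod 2) = (j : ZMod 2) := by
        intro j hj
        rw [Nat.cast_sub (by omega)]
        push_cast
        linear_combination ((h : ZMod 2) - (j : ZMod 2)) * h2
      rcases (m1 u).1 hu with ⟨j, hj, rfl⟩ | ⟨j, hj, w, hw, rfl⟩
      · rw [m2 j hj]
        obtain ⟨q1, q2, -⟩ := z1 (2 * h - j) (by omega)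
        refine ⟨hC.hUT q1, (hCoB H h T U hC x hx a ha j hj).1, ?_⟩
        have hlen : ((ze H h U x).take j).length = j := by
          rw [List.length_take, hl]
          omega
        rw [q2, hlen, Nat.cast_add, hcast j hj, hp]
        linear_combination -h2
      · rw [m3 j hj w]
        have hi : 2 * h - j + 1 = 2 * h + 1 - j := by omega
        obtain ⟨q1, q2, -⟩ := z1 (2 * h - j) (by omega)
        obtain ⟨e, w1, w2, w3⟩ := z5 (2 * h - j) (by omega)
        rw [hi] at w2
        refine ⟨hw, (hCoB H h T U hC x hx a ha j hj).2 w, ?_⟩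
        have hlen : ((ze H h U x).take j).length = j := by
          rw [List.length_take, hl]
          omega
        rw [w2]
        simp only [List.length_append, List.length_nil, List.length_cons, q2, hlen]
        simp only [Nat.cast_add, hcast j hj, hp]
        push_cast
        linear_combination -h2

end Pool.Agent.Work.MP_bf01b2_co.La
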