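import Pool.Agent.Work.MP_bf01b2_co.La.StmtsC

/-!
# MP_bf01b2_co, block LA, item C.Zp: the paths of the good blocks
-/

set_option autoImplicit false

namespace Pool.Agent.Work.MP_bf01b2_co.La

open Pool.Agent.Work.MP_bf01b2_co.Bd

open Classical

open Pool.Agent.Work.MP_bf01b2_co.Fw (rt lf StRt StBr)

open Pool.Agent.Work.MP_bf01b2_co.Sh (sub strs cor StSub StCrp)

/-- item Zp -/
theorem pr_Zp (hRt : StRt) (hCr : StCr) (hIj : StIj) (hDec : StDec) (hBv : StBv) : StZp := by
  intro H h T U hc x hx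
  have hU : Bd.PrefClosed U := hc.hU
  have hpos : 0 < H := by
    have := hc.hH
    omega
  obtain ⟨hB1, hB2, hB3, hB4, hB5, hB6, hB7⟩ := hBv H h T U hc
  obtain ⟨hxT, hGd⟩ := hB4 x hx
  obtain ⟨hbU, hbcs, hbix, hbpar⟩ := hB2 x hxT
  obtain ⟨b, hb⟩ : ∃ b, b = bv H U x := ⟨_, rfl⟩
  rw [← hb] at hGd hbU hbcs hbix hbpar
  rw [← hb]
  have P1 : ∀ i ≤ H, zp H U x i ∈ U ∧ (zp H U x i).length = b.length + i ∧
      (zp H U x i).take b.length = b := by
    intro i hi
    obtain ⟨w, hw, -⟩ := hGd.2 i hi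
    have hex : ∃ w ∈ U, w.length = (bv H U x).length + i ∧ w.take (bv H U x).length = bv H U x := by
      rw [← hb]
      exact ⟨w, hw⟩
    have h1 := hex.choose_spec
    have h2 : zp H U x i = hex.choose := by
      unfold zp
      rw [dif_pos hex]
    rw [h2, hb]
    exact h1
  have P2 : ∀ i ≤ H, ∀ w ∈ U, w.length = b.length + i → w.take b.length = b →
      w = zp H U x i := by
    intro i hi w hw h1 h2
    exact (hGd.2 i hi).unique ⟨hw, h1, h2⟩ (P1 i hi)
  have P3 : zp H U x 0 = b := by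
    refine (P2 0 (Nat.zero_le _) b hbU rfl ?_).symm
    exact List.take_length
  have P4 : ∀ i ≤ H, ∀ j ≤ i, (zp H U x i).take (b.length + j) = zp H U x j := by
    intro i hi j hj
    obtain ⟨h1, h2, h3⟩ := P1 i hi
    refine P2 j (hj.trans hi) _ (hU _ h1 _) ?_ ?_
    · rw [List.length_take, h2]
      omega
    · rw [List.take_take, min_eq_left (Nat.le_add_right _ _)]
      exact h3
  have P5 : ∀ i < H, ∃ e, zp H U x (i + 1) = zp H U x i ++ [e] ∧
      sb (zp H U x (i + 1)) = zp H U x i ++ [!e] ∧ zp H U x i ++ [!e] ∉ U := by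
    intro i hi
    obtain ⟨h1, h2, h3⟩ := P1 (i + 1) hi
    obtain ⟨h1', h2', h3'⟩ := P1 i hi.le
    have hne : zp H U x (i + 1) ≠ [] := by
      intro h0
      rw [h0] at h2
      simp at h2
    have h4 : (zp H U x (i + 1)).dropLast = zp H U x i := by
      rw [List.dropLast_eq_take, h2]
      have h5 : b.length + (i + 1) - 1 = b.length + i := by omega
      rw [h5]
      exact P4 (i + 1) hi i (Nat.le_succ i)
    have h5 : zp H U x (i + 1) = zp H U x i ++ [(zp H U x (i + 1)).getLast hne] := by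
      conv_lhs => rw [← List.dropLast_append_getLast hne]
      rw [h4]
    obtain ⟨e, he⟩ : ∃ e, e = (zp H U x (i + 1)).getLast hne := ⟨_, rfl⟩
    rw [← he] at h5
    refine ⟨e, h5, ?_, ?_⟩
    · rw [h5]
      unfold sb
      rw [List.dropLast_concat, List.getLastD_concat]
    · intro hmem
      have h6 := P2 (i + 1) hi _ hmem (by
        rw [List.length_append, h2']
        simp only [List.length_cons, List.length_nil]
        omega) (by
        rw [List.take_append_of_le_length (by omega)]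
        exact h3')
      rw [h5] at h6
      have h7 := List.append_cancel_left h6
      cases e <;> simp at h7
  have hdvd : H ∣ b.length := Nat.dvd_of_mod_eq_zero hGd.1
  have P6 : ∀ i < H, cs H U (zp H U x i) = x ∧ ix H U (zp H U x i) = i := by
    intro i hi
    obtain ⟨h1, h2, h3⟩ := P1 i hi.le
    obtain ⟨q, hq⟩ := hdvd
    have h4 : rt H (zp H U x i) = b := by
      unfold rt
      rw [h2]
      have h5 : (b.length + i) / H * H = b.length := by
        rw [hq, Nat.mul_add_div hpos, Nat.div_eq_of_lt hi, add_zero, mul_comm]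
      rw [h5]
      exact h3
    have h5 : Gd H U (rt H (zp H U x i)) := by rw [h4]; exact hGd
    refine ⟨?_, ?_⟩
    · rw [hCr H U hpos _ h5, h4]
      exact hbcs
    · unfold ix
      rw [if_pos h5, h2, hq, Nat.mul_add_mod]
      exact Nat.mod_eq_of_lt hi
  have P7 : ∀ v ∈ U, cs H U v = x → v = zp H U x (ix H U v) ∧ ix H U v < H := by
    intro v hv hcv
    have hrb : rt H b = b := (hRt H hpos b).2.2.2.1 hGd.1
    rcases hIj H U hpos hU v hv b hbU (hcv.trans hbcs.symm) with ⟨h1, h2, h3⟩ | ⟨h1, h2, h3⟩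
    · rw [hrb] at h3
      have h4 : ix H U v = v.length % H := by
        unfold ix
        rw [if_pos h1]
      have h5 : ix H U v < H := by
        rw [h4]
        exact Nat.mod_lt _ hpos
      have h6 : b.length = v.length / H * H := by
        rw [← h3]
        exact (hRt H hpos v).1
      refine ⟨P2 _ h5.le v hv ?_ ?_, h5⟩
      · rw [h4, h6]
        exact (Nat.div_add_mod' v.length H).symm
      · rw [h6]
        exact h3
    · rw [hrb] at h2
      exact absurd hGd h2
  refine ⟨P1, P2, P3, P4, P5, P6, P7, ?_⟩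
  obtain ⟨e, he1, he2, he3⟩ := P5 (H - 1) (by omega)
  have hH1 : H - 1 + 1 = H := by omega
  rw [hH1] at he1
  obtain ⟨D1, D2, D3, D4, D5⟩ := hDec H U hpos hU
  obtain ⟨hzU, hzl, hzt⟩ := P1 H le_rfl
  have h6 := P6 (H - 1) (by omega)
  have hcase := D5 (zp H U x (H - 1)) e (by rw [← he1]; exact hzU)
  rw [← he1, h6.1, h6.2] at hcase
  have hcz : cs H U (zp H U x H) = x ++ [e] ∧ ix H U (zp H U x H) = 0 := by
    rcases hcase with ⟨h7, h8, h9⟩ | ⟨h7, h8, h9⟩
    · have h10 := (D3 _ hzU).1
      omega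
    · exact ⟨h7, h8⟩
  have hbz : bv H U (x ++ [e]) = zp H U x H := by
    rw [← hcz.1]
    exact hB3 _ hzU hcz.2
  refine ⟨e, ?_, hbz, hcz.1, he1, ?_⟩
  · rw [← hcz.1]
    exact Finset.mem_image_of_mem _ hzU
  · intro e' he'
    obtain ⟨p, hp, hbp, hcp, hip⟩ := hB7 x e' he'
    rw [if_pos hx] at hip
    obtain ⟨h7, -⟩ := P7 p hp hcp
    rw [hip] at h7
    have h8 := (hB2 _ he').1
    rw [hbp] at h8
    obtain ⟨q1, q2, q3⟩ := P1 (H - 1) (by omega)
    have h9 := P2 H le_rfl _ h8 (by
      rw [List.length_append, h7, q2]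
      simp only [List.length_cons, List.length_nil]
      omega) (by
      rw [h7, List.take_append_of_le_length (by omega)]
      exact q3)
    rw [he1, h7] at h9
    have h10 := List.append_cancel_left h9
    simpa using h10

end Pool.Agent.Work.MP_bf01b2_co.La
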