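import Pool.Agent.Work.MP_bf01b2_co.Sh.DefsG
import Pool.Agent.Work.MP_bf01b2_co.Fw.Defs

/-!
# MP_bf01b2_co, theorem LARGE (all binary trees, large `n`): the tree side, definitions

`T` is a prefix closed set of bit strings, `U ⊆ T` a prefix closed subset (the vertices with many
descendants) with few leaves. `U` is cut into blocks of `H` levels, `H = 2 h + 5`; a block root `u` is
good if `U` has exactly one vertex below `u` on each of the levels `u.length + j`, `j ≤ H`. The good
blocks are contracted: `cs` removes the letters inside of a good block, `ix v` is the position of `v`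
in its good block (`0` in a bad block), `X = cT H U` is the contracted tree, `G = cD H U` the set of
the contracted good blocks. (As in `Fw/Defs.lean`, there with `j < H`.)

For `x ∈ X` let `bv x` be the base vertex, for `x ∈ G` let `zp x i` be the vertex number `i` of the
path of its block, `i ≤ H` (`zp x H` is the base vertex of the next block).

Codes of the vertices of `T`: `cor x` = `bv x`; `e k x` = `zp x (2 h + 1 + k)`, `k = 0, 1, 2`, `x ∈ G`;
`en y` = the parent `zp x (2 h + 4)` of `bv y`, `y = x ++ [e]`, `x ∈ G`; `pc g x s u` = the vertex with the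
address `u` on the side `s` of the piece with the tag `g` at `x`. The pieces: the tag `c a`: below
`bv x ++ [a]`; the tag `e k`: below the other child of `zp x (2 h + 1 + k)`; the tag `en`: below
the sibling of `bv x`. The piece with the tag `c a` at `x ∈ G` which contains the path has two
sides: side `false` = everything below `zp x 1` which is not below `zp x (h + 1)`; side `true` = everything
below `zp x (h + 1)` which is not below `zp x (2 h + 1)`, with addresses from `zp x (2 h)`: if `ze` is the
address of `zp x h` on the side `false` (`h - 1` letters), then `zp x (2 h - j)` has the address `ze.take j`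
on the side `true`, `j < h`, and its child outside of the path has the address `ze.take j ++ [lc j]`.
-/

set_option autoImplicit false

namespace Pool.Agent.Work.MP_bf01b2_co.La

open Pool.Agent.Work.MP_bf01b2_co.Bd

open Classical

open Pool.Agent.Work.MP_bf01b2_co.Fw (rt lf)

open Pool.Agent.Work.MP_bf01b2_co.Sh (sub strs)

/-! ### Contraction -/

/-- `u` is a good root: `H` divides its length and there is exactly one vertex of `U` below `u` on
each of the levels `u.length + j`, `j ≤ H`. -/
def Gd (H : ℕ) (U : Finset (List Bool)) (u : List Bool) : Prop :=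
  u.length % H = 0 ∧ ∀ j ≤ H, ∃! w, w ∈ U ∧ w.length = u.length + j ∧ w.take u.length = u

/-- The letter of the edge from `v` to `v ++ [e]` is kept. -/
def Kp (H : ℕ) (U : Finset (List Bool)) (v : List Bool) : Prop :=
  ¬ (Gd H U (rt H v) ∧ (v.length + 1) % H ≠ 0)

/-- The contracted string: letter `t` is kept if `Kp` holds for `v.take t`. -/
noncomputable def cs (H : ℕ) (U : Finset (List Bool)) (v : List Bool) : List Bool :=
  ((List.range v.length).filter fun t => decide (Kp H U (v.take t))).map fun t => v.getD t false

/-- The position of `v` in its good block (`0` in a bad block). -/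
noncomputable def ix (H : ℕ) (U : Finset (List Bool)) (v : List Bool) : ℕ :=
  if Gd H U (rt H v) then v.length % H else 0

/-- The contracted tree. -/
noncomputable def cT (H : ℕ) (U : Finset (List Bool)) : Finset (List Bool) := U.image (cs H U)

/-- The contracted good blocks. -/
noncomputable def cD (H : ℕ) (U : Finset (List Bool)) : Finset (List Bool) :=
  (U.filter fun u => Gd H U u).image (cs H U)

/-! ### Base vertices, paths -/

/-- The base vertex of `x ∈ cT H U`. -/
noncomputable def bv (H : ℕ) (U : Finset (List Bool)) (x : List Bool) : List Bool :=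
  if h : ∃ v ∈ U, cs H U v = x ∧ ix H U v = 0 then h.choose else []

/-- The vertex number `i` of the block of `x ∈ cD H U` (`i ≤ H`). -/
noncomputable def zp (H : ℕ) (U : Finset (List Bool)) (x : List Bool) (i : ℕ) : List Bool :=
  if h : ∃ w ∈ U, w.length = (bv H U x).length + i ∧ w.take (bv H U x).length = bv H U x then
    h.choose else []

/-- The sibling of `v`. -/
def sb (v : List Bool) : List Bool := v.dropLast ++ [!(v.getLastD false)]

/-- The length of the longest prefix of `v` in `U`. -/
noncomputable def hU (U : Finset (List Bool)) (v : List Bool) : ℕ :=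
  Nat.findGreatest (fun t => v.take t ∈ U) v.length

/-! ### Tags, codes -/

/-- tags of the pieces -/
inductive Tag
  | c (a : Bool)
  | e (k : Fin 3)
  | en
  deriving DecidableEq, Fintype

/-- codes of vertices; in `pc g x s u` the Boolean `s` is the side of the piece -/
inductive Cd
  | cor (x : List Bool)
  | e (k : Fin 3) (x : List Bool)
  | en (x : List Bool)
  | pc (g : Tag) (x : List Bool) (s : Bool) (u : List Bool)

/-- The cell at which the piece with the tag `g` at `x` is attached. -/
def bc : Tag → List Bool → Cd
  | .c _, x => .cor x
  | .e k, x => .e k x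
  | .en, x => .en x

/-- The parity of the label offset of the cell `bc g x`. -/
def kp : Tag → ZMod 2
  | .c _ => 0
  | .e k => if k = 1 then 0 else 1
  | .en => 1

/-- side to parity -/
def sd (s : Bool) : ZMod 2 := if s then 1 else 0

/-- The root of the piece with the tag `g` at `x`. -/
noncomputable def rv (H h : ℕ) (U : Finset (List Bool)) : Tag → List Bool → List Bool
  | .c a, x => bv H U x ++ [a]
  | .e k, x => sb (zp H U x (2 * h + 2 + k.1))
  | .en, x => sb (bv H U x)

/-- There is a piece with the tag `g` at `x`. -/
def px (H h : ℕ) (T U : Finset (List Bool)) : Tag → List Bool → Prop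
  | .c a, x => x ∈ cT H U ∧ (x ∈ cD H U ∨ bv H U x ++ [a] ∉ U) ∧ bv H U x ++ [a] ∈ T
  | .e k, x => x ∈ cD H U ∧ sb (zp H U x (2 * h + 2 + k.1)) ∈ T
  | .en, x => x ∈ cT H U ∧ x ≠ [] ∧ x.dropLast ∈ cD H U ∧ sb (bv H U x) ∈ T

/-- The piece with the tag `g` at `x` contains the path of a good block. -/
def te (H : ℕ) (U : Finset (List Bool)) : Tag → List Bool → Prop
  | .c a, x => x ∈ cD H U ∧ zp H U x 1 = bv H U x ++ [a]
  | .e _, _ => False
  | .en, _ => False

/-- The address of the vertex number `h` of the path (`h - 1` letters). -/
noncomputable def ze (H h : ℕ) (U : Finset (List Bool)) (x : List Bool) : List Bool :=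
  (zp H U x h).drop ((bv H U x).length + 1)

/-- On the side `true` the letter of the child outside of the path of the vertex `ze.take j`. -/
noncomputable def lc (H h : ℕ) (U : Finset (List Bool)) (x : List Bool) (j : ℕ) : Bool :=
  !((ze H h U x).getD j true)

/-- The side `false` of the piece. -/
noncomputable def t0 (H h : ℕ) (T U : Finset (List Bool)) (g : Tag) (x : List Bool) :
    Finset (List Bool) :=
  if px H h T U g x then
    (sub T (rv H h U g x)).filter fun u => te H U g x →
      (rv H h U g x ++ u).take (zp H U x (h + 1)).length ≠ zp H U x (h + 1)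
  else ∅

/-- The side `true` of the piece. -/
noncomputable def t1 (H h : ℕ) (T U : Finset (List Bool)) (g : Tag) (x : List Bool) :
    Finset (List Bool) :=
  if te H U g x then
    ((Finset.range h).image fun j => (ze H h U x).take j) ∪
      (Finset.range h).biUnion fun j => (sub T (sb (zp H U x (2 * h + 1 - j)))).image fun w =>
        (ze H h U x).take j ++ lc H h U x j :: w
  else ∅

/-- both sides -/
noncomputable def ts (H h : ℕ) (T U : Finset (List Bool)) (g : Tag) (x : List Bool) (s : Bool) :
    Finset (List Bool) := if s then t1 H h T U g x else t0 H h T U g x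

/-- The length of the longest common prefix of `u` and `z`. -/
noncomputable def lp (z u : List Bool) : ℕ :=
  Nat.findGreatest (fun t => u.take t = z.take t ∧ t ≤ z.length) u.length

/-- The vertex with the address `u` on the side `true`. -/
noncomputable def k2 (H h : ℕ) (U : Finset (List Bool)) (x u : List Bool) : List Bool :=
  if u = (ze H h U x).take u.length then zp H U x (2 * h - u.length)
  else sb (zp H U x (2 * h + 1 - lp (ze H h U x) u)) ++ u.drop (lp (ze H h U x) u + 1)

/-- The vertex of a code. -/
noncomputable def kap (H h : ℕ) (U : Finset (List Bool)) : Cd → List Bool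
  | .cor x => bv H U x
  | .e k x => zp H U x (2 * h + 1 + k.1)
  | .en x => (bv H U x).dropLast
  | .pc g x false u => rv H h U g x ++ u
  | .pc _ x true u => k2 H h U x u

/-- The valid codes. `X` = the contracted tree, `G` = the contracted good blocks, `t g x s` = the
side `s` of the piece `g` at `x`. -/
def Vd (X G : Finset (List Bool)) (t : Tag → List Bool → Bool → Finset (List Bool)) : Cd → Prop
  | .cor x => x ∈ X
  | .e _ x => x ∈ G
  | .en x => x ∈ X ∧ x ≠ [] ∧ x.dropLast ∈ G
  | .pc g x s u => u ∈ t g x s

/-- The level parity of a valid code. -/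
def lv : Cd → ZMod 2
  | .cor x => (x.length : ZMod 2)
  | .e k x => (x.length : ZMod 2) + 1 + (k.1 : ZMod 2)
  | .en x => (x.length : ZMod 2) + 1
  | .pc g x s u => (x.length : ZMod 2) + 1 + kp g + sd s + (u.length : ZMod 2)

/-- The code of a vertex `v` of `T`. Here `p = v.take (hU U v)` is the longest prefix in `U`, `x` its
contracted string, `i` its position, `q` the letters after the base vertex, `r` those after `p`. -/
noncomputable def code (H h : ℕ) (U : Finset (List Bool)) (v : List Bool) : Cd :=
  let p := v.take (hU U v)
  let x := cs H U p
  let i := ix H U p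
  let q := v.drop (bv H U x).length
  let r := v.drop p.length
  if i ≤ h then
    match q with
    | [] => .cor x
    | a :: u => .pc (.c a) x false u
  else if i ≤ 2 * h then
    .pc (.c (q.getD 0 false)) x true
      ((ze H h U x).take (2 * h - i) ++
        (if r = [] then [] else lc H h U x (2 * h - i) :: r.tail))
  else if i = 2 * h + 1 then
    if r = [] then .e 0 x else .pc (.e 0) x false r.tail
  else if i = 2 * h + 2 then
    if r = [] then .e 1 x else .pc (.e 1) x false r.tail
  else if i = 2 * h + 3 then
    if r = [] then .e 2 x else .pc (.e 2) x false r.tail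
  else
    if r = [] then .en (cs H U (zp H U x H)) else .pc .en (cs H U (zp H U x H)) false r.tail

/-- The edges between codes. `X` = the contracted tree, `G` = the contracted good blocks, `t g x s` = the
side `s` of the piece `g` at `x`, `z x` = the address of the crossing. -/
inductive Rel (X G : Finset (List Bool)) (t : Tag → List Bool → Bool → Finset (List Bool))
    (z : List Bool → List Bool) : Cd → Cd → Prop
  | cc (x : List Bool) (e : Bool) : x ++ [e] ∈ X → x ∉ G → Rel X G t z (.cor x) (.cor (x ++ [e]))
  | rt (g : Tag) (x : List Bool) : [] ∈ t g x false → Rel X G t z (bc g x) (.pc g x false [])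
  | st (g : Tag) (x : List Bool) (s : Bool) (u : List Bool) (e : Bool) : u ++ [e] ∈ t g x s →
      Rel X G t z (.pc g x s u) (.pc g x s (u ++ [e]))
  | cr (g : Tag) (x : List Bool) : z x ∈ t g x true →
      Rel X G t z (.pc g x false (z x)) (.pc g x true (z x))
  | pe (g : Tag) (x : List Bool) : [] ∈ t g x true → Rel X G t z (.pc g x true []) (.e 0 x)
  | e0 (x : List Bool) : x ∈ G → Rel X G t z (.e 0 x) (.e 1 x)
  | e1 (x : List Bool) : x ∈ G → Rel X G t z (.e 1 x) (.e 2 x)
  | xe (x : List Bool) (e : Bool) : x ∈ G → x ++ [e] ∈ X → Rel X G t z (.e 2 x) (.en (x ++ [e]))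
  | ec (x : List Bool) (e : Bool) : x ∈ G → x ++ [e] ∈ X →
      Rel X G t z (.en (x ++ [e])) (.cor (x ++ [e]))

/-- The standing assumptions. -/
structure Ctx (H h : ℕ) (T U : Finset (List Bool)) : Prop where
  hH : H = 2 * h + 5
  hh : 1 ≤ h
  hT : Bd.PrefClosed T
  hU : Bd.PrefClosed U
  hUT : U ⊆ T
  hn : ([] : List Bool) ∈ U

end Pool.Agent.Work.MP_bf01b2_co.La
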