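import Pool.Agent.Work.MP_bf01b2_co.La.StmtsM

/-!
# MP_bf01b2_co, theorem LARGE, item TyL: the type of a piece
-/

set_option autoImplicit false

namespace Pool.Agent.Work.MP_bf01b2_co.La

open Pool.Agent.Work.MP_bf01b2_co.Bd

open Classical

open Pool.Agent.Work.MP_bf01b2_co.Sh (Vc un par syn Ad Ust pd Bad ct1 Ky Nw2 Fits2 strs StTile2
  StBrg StPtC StPrt StCb2 StShp)

namespace IMTyL

theorem mem_pcs {M L : ℕ} {X G : Finset (List Bool)}
    {ts : Tag → List Bool → Bool → Finset (List Bool)} {ze : List Bool → List Bool}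
    (h : Sys M L X G ts ze) (g : Tag) (x : List Bool) (s : Bool) : ts g x s ∈ pcs L :=
  Finset.mem_filter.2 ⟨Finset.mem_powerset.2 (h.len g x s), h.pcl g x s⟩

theorem mem_z (hS : StShp) {M L : ℕ} {X G : Finset (List Bool)}
    {ts : Tag → List Bool → Bool → Finset (List Bool)} {ze : List Bool → List Bool}
    (h : Sys M L X G ts ze) (g : Tag) (x : List Bool) :
    (if (ts g x true).Nonempty then ze x else []) ∈ strs L := by
  split_ifs with h1
  · exact h.len g x true (h.one g x h1).2.2.2.2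
  · rw [hS.2.2.1]
    simp

end IMTyL

open IMTyL in
/-- Item TyL. -/
theorem pr_TyL (h : StShp) : StTyL := by
  intro M L X G ts ze hs
  refine ⟨?_, ?_⟩
  · rintro g x ⟨s, hx⟩
    refine ⟨((g, ⟨x.length % 2, Nat.mod_lt _ (by norm_num)⟩),
      ((⟨ts g x false, mem_pcs hs g x false⟩, ⟨ts g x true, mem_pcs hs g x true⟩),
        ⟨if (ts g x true).Nonempty then ze x else [], mem_z h hs g x⟩)), rfl, ?_⟩
    refine Finset.mem_filter.2 ⟨hs.rX g x s hx, ⟨rfl, ?_, rfl⟩, s, hx⟩
    intro s'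
    cases s' <;> rfl
  · intro w w' x hw hw' hg
    obtain ⟨_, ⟨h1, h2, h3⟩, _⟩ := Finset.mem_filter.1 hw
    obtain ⟨_, ⟨h1', h2', h3'⟩, _⟩ := Finset.mem_filter.1 hw'
    have hf := (h2 false).symm.trans ((congrArg (fun g => ts g x false) hg).trans (h2' false))
    have ht := (h2 true).symm.trans ((congrArg (fun g => ts g x true) hg).trans (h2' true))
    have hz : w.2.2.1 = w'.2.2.1 := by
      rw [h3, h3', hg]
    refine Prod.ext (Prod.ext hg (Fin.ext (h1.symm.trans h1'))) (Prod.ext (Prod.ext ?_ ?_) ?_)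
    · exact Subtype.ext hf
    · exact Subtype.ext ht
    · exact Subtype.ext hz

end Pool.Agent.Work.MP_bf01b2_co.La
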