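import Pool.Agent.Work.MP_bf01b2_co.La.All

/-!
# MP_bf01b2_co: theorems LARGE and D in one statement
-/

set_option autoImplicit false

namespace Pool.Agent.Work.MP_bf01b2_co.La

/-- For every `δ > 0` there is `n0` such that for all `n ≥ n0` every tree of maximum degree at most
`3` which has at most `2 ^ n` vertices, or whose two colour classes have at most `(1 - δ) 2 ^ n`
vertices each, is a subgraph of `Q_{n+1}`. -/
theorem one :
    ∀ δ : ℝ, 0 < δ → ∃ n0 : ℕ, ∀ n : ℕ, n0 ≤ n →
      ∀ (V : Type) [Fintype V] [DecidableEq V] (G : SimpleGraph V) [DecidableRel G.Adj],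
        G.IsTree → (∀ v : V, G.degree v ≤ 3) →
        (Fintype.card V ≤ 2 ^ n ∨ ∃ C : G.Coloring Bool, ∀ b : Bool,
          ((Finset.univ.filter fun v => C v = b).card : ℝ) ≤ (1 - δ) * 2 ^ n) →
          ∃ f : G →g SimpleGraph.fromRel (fun x y : Fin (n + 1) → Bool => hammingDist x y = 1),
            Function.Injective f := by
  intro δ hδ
  obtain ⟨n1, h1⟩ := fin
  obtain ⟨n2, h2⟩ := finD δ hδ
  refine ⟨max n1 n2, ?_⟩
  intro n hn V _ _ G _ hG hdeg hC
  rcases hC with hC | ⟨C, hC⟩
  · exact h1 n ((le_max_left _ _).trans hn) V G hG hdeg hC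
  · exact h2 n ((le_max_right _ _).trans hn) V G hG hdeg C hC

end Pool.Agent.Work.MP_bf01b2_co.La
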