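import Pool.Agent.Work.MP_bf01b2_co.La.DefsC
import Pool.Agent.Work.MP_bf01b2_co.Sh.StmtsQ
import Pool.Agent.Work.MP_bf01b2_co.Sh.StmtsP2

/-!
# MP_bf01b2_co, theorem LARGE: positions, gluing, numbers, statements

The tree side enters through the abstract data `X`, `G`, `ts`, `ze` (structure `Sys`) and `code`
(statement `StTrM`). Label coordinates: `0, .., m0 - 1` core, `m0` = the coordinate `φ` of the
tiles, `m0 + 1`, `m0 + 2`, `m0 + 3`, then `J` coordinates; `m1 = m0 + 2`, `M = m0 + 4 + J`.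
Every item `X` is a statement `StX`, file `La/M_X.lean`, theorem `pr_X`, auxiliary lemmas in
`namespace IMX`. Nobody waits for anybody.
-/

set_option autoImplicit false

namespace Pool.Agent.Work.MP_bf01b2_co.La

open Pool.Agent.Work.MP_bf01b2_co.Bd

open Classical

open Pool.Agent.Work.MP_bf01b2_co.Sh (Vc un par syn Ad Ust pd Bad ct1 Ky Nw2 Fits2 strs StTile2
  StBrg StPtC StPrt StCb2 StShp)

/-- The label offset of the cell at which a piece with the tag `g` is attached, `n = x.length`. -/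
noncomputable def ofs (m0 M : ℕ) : Tag → ℕ → Vc M
  | .c _, _ => 0
  | .e k, n => (if k = 0 then un M (m0 + 1) else 0) + (if k = 2 then 0 else un M m0) +
      un M (m0 + 2 + n % 2)
  | .en, n => un M (m0 + 2 + (n + 1) % 2)

/-- The abstract tree side. -/
structure Sys (M L : ℕ) (X G : Finset (List Bool))
    (ts : Tag → List Bool → Bool → Finset (List Bool)) (ze : List Bool → List Bool) : Prop where
  hX : Bd.PrefClosed X
  hn : ([] : List Bool) ∈ X
  hG : G ⊆ X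
  pcl : ∀ g x s, Bd.PrefClosed (ts g x s)
  len : ∀ g x s, ts g x s ⊆ strs L
  rX : ∀ g x s, (ts g x s).Nonempty → x ∈ X
  rE : ∀ k x, (ts (.e k) x false).Nonempty → x ∈ G
  one : ∀ g x, (ts g x true).Nonempty → x ∈ G ∧ (∃ a, g = .c a) ∧ 2 * M + 2 ≤ (ze x).length ∧
    ze x ∈ ts g x false ∧ ze x ∈ ts g x true

/-- [TrM] (EASY) the tree side, `theorem pr_TrM (h1 : StTree) (h2 : StShp) : StTrM` (`StTree` is the last
statement of La/StmtsC.lean; import La.StmtsC too). Proof. `L = S + h`, all data from `StTree`;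
`x ∈ strs L ↔ x.length ≤ L` by `StShp`; `h - 1 ≥ 2 M + 2`; the bound of `|X|` is `StTree`'s inequality divided by
`(2 h + 5) S`. -/
def StTrM : Prop := ∀ M h S : ℕ, 2 * M + 3 ≤ h → 1 ≤ S → ∃ L : ℕ, ∀ T : Finset (List Bool),
  Bd.PrefClosed T → T.Nonempty →
  ∃ (X G : Finset (List Bool)) (ts : Tag → List Bool → Bool → Finset (List Bool))
    (ze : List Bool → List Bool) (code : List Bool → Cd),
    Sys M L X G ts ze ∧ (∀ v ∈ T, Vd X G ts (code v)) ∧
    (∀ v ∈ T, ∀ v' ∈ T, code v = code v' → v = v') ∧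
    (∀ v e, v ++ [e] ∈ T → Rel X G ts ze (code v) (code (v ++ [e])) ∨
      Rel X G ts ze (code (v ++ [e])) (code v)) ∧
    (∀ d : ZMod 2, ∑ g : Tag, ∑ x ∈ X, ∑ s : Bool, ((ts g x s).filter fun u =>
      (x.length : ZMod 2) + 1 + kp g + sd s + (u.length : ZMod 2) = d).card ≤
        (T.filter fun v => (v.length : ZMod 2) = d).card) ∧
    (X.card : ℝ) ≤ T.card / (2 * h + 5) + 2 ^ (2 * h + 6) * (T.card / S + 1)

/-- [Ofs] (EASY-MEDIUM) the label offsets. Proof. All vectors are sums of unit vectors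
`un M i` with different numbers `i < M`: `par (un M i) = 1` for `i < M`; `pd M x` is supported on the
coordinates `< m0` and has the parity of `x`. (1) by the cases of `g`. (2) coordinates `≥ m0 + 4` are `0`,
and at most one of the coordinates `m0 + 2`, `m0 + 3` is `1` (`Bad (m0 + 2)`: the coordinates `≥ m0 + 4`
vanish and not both coordinates `m0 + 2`, `m0 + 3` are `1`). (3) compare the coordinates `< m0`. (4), (5)
compare the coordinates `m0`, `m0 + 1`, `m0 + 2`, `m0 + 3`: the five vectors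
`0`, `ofs (.e 0) n`, `ofs (.e 1) n`, `ofs (.e 2) n`, `ofs .en n` are different. (6) `x + Pi.single i 1` has
`pd` equal to `pd M x + Pi.single j 1` with the same number `j`. (7), (8), (9): the differences are
`un M (m0 + 1)`, `un M m0`, `un M (m0 + 2 + n % 2)`, and `(n + 1 + 1) % 2 = n % 2`. -/
def StOfs : Prop := ∀ (m0 M : ℕ) (hM : m0 + 4 ≤ M),
  (∀ g n, par (ofs m0 M g n) = kp g) ∧
  (∀ (x : Vc m0) (g : Tag) (n : ℕ), Bad (m0 + 2) (pd M x + ofs m0 M g n)) ∧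
  (∀ (x x' : Vc m0) (g g' : Tag) (n n' : ℕ),
    pd M x + ofs m0 M g n = pd M x' + ofs m0 M g' n' → x = x' ∧ ofs m0 M g n = ofs m0 M g' n') ∧
  (∀ (k k' : Fin 3) (n : ℕ), ofs m0 M (.e k) n = ofs m0 M (.e k') n → k = k') ∧
  (∀ (k : Fin 3) (n : ℕ), ofs m0 M (.e k) n ≠ 0 ∧ ofs m0 M .en n ≠ 0 ∧
    ofs m0 M (.e k) n ≠ ofs m0 M .en n) ∧
  (∀ (x : Vc m0) (i : Fin m0), ∃ j : Fin M,
    pd M (x + Pi.single i 1) = pd M x + Pi.single j 1) ∧
  (∀ n, ∃ j : Fin M, ofs m0 M (.e 0) n = ofs m0 M (.e 1) n + Pi.single j 1) ∧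
  (∀ n, ∃ j : Fin M, ofs m0 M (.e 1) n = ofs m0 M (.e 2) n + Pi.single j 1) ∧
  (∀ n, ofs m0 M .en (n + 1) = ofs m0 M (.e 2) n ∧
    ∃ j : Fin M, ofs m0 M .en n = Pi.single j 1) ∧
  (∀ x : Vc m0, par (pd M x) = par x) ∧
  (∀ n, ofs m0 M (.e 0) n ⟨m0, by omega⟩ = 1 ∧
    ∃ ψ : Fin M, m0 < ψ.1 ∧ ofs m0 M (.e 0) n ψ = 1)

/-- [MapL] (MEDIUM) the positions of the cells from the positions `Q` of the pieces. (h : StOfs)
Proof. `P (.cor x) = (Φ x, pd M (lm x))`, `P (.e k x) = (Φ x, pd M (lm x) + ofs (.e k) x.length)`,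
`P (.en x) = (Φ x, pd M (lm x) + ofs .en x.length)`, `P (.pc g x s u) = Q g x s u`. (`ofs (.c a) n = 0`.)
Injectivity: two cells which are not pieces: the labels give equal `lm` and equal offsets by (3) of
`StOfs`, the columns equal `Φ`, so equal `x`, and (4), (5) of `StOfs` give the same kind of cell; a piece and
a cell which is not a piece: the label of the latter is bad by (2) and its column is `Φ y`, `y ∈ X`,
against the hypothesis; two pieces: hypothesis. Edges, by the cases of `Rel`: `cc`: the core step (with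
(6) of `StOfs` for a label step); `rt`, `pe`: the first two hypotheses on `Q` (`y = x + s` gives `x = y + s`);
`st`, `cr`: hypotheses; `e0`, `e1`, `ec`: (7), (8), (9); `xe`: the core step from `x` to `x ++ [e]` at the
same offset, (9). -/
def StMapL : Prop := ∀ (R M m0 L : ℕ) (X G : Finset (List Bool))
  (ts : Tag → List Bool → Bool → Finset (List Bool)) (ze : List Bool → List Bool)
  (Φ : List Bool → Vc R) (lm : List Bool → Vc m0)
  (Q : Tag → List Bool → Bool → List Bool → Vc R × Vc M), m0 + 4 ≤ M → Sys M L X G ts ze →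
  (∀ y e, y ++ [e] ∈ X → Ad (Φ y, lm y) (Φ (y ++ [e]), lm (y ++ [e]))) →
  (∀ u ∈ X, ∀ v ∈ X, Φ u = Φ v → lm u = lm v → u = v) →
  (∀ g x, [] ∈ ts g x false → (Q g x false []).2 = pd M (lm x) + ofs m0 M g x.length ∧
    ∃ i, (Q g x false []).1 = Φ x + Pi.single i 1) →
  (∀ g x, [] ∈ ts g x true → (Q g x true []).2 = pd M (lm x) + ofs m0 M (.e 0) x.length ∧
    ∃ i, (Q g x true []).1 = Φ x + Pi.single i 1) →
  (∀ g x s u e, u ++ [e] ∈ ts g x s → Ust (Q g x s u) (Q g x s (u ++ [e]))) →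
  (∀ g x, ze x ∈ ts g x true → Ust (Q g x false (ze x)) (Q g x true (ze x))) →
  (∀ g x s, ∀ u ∈ ts g x s, ¬ Bad (m0 + 2) (Q g x s u).2 ∨ ∀ y ∈ X, (Q g x s u).1 ≠ Φ y) →
  (∀ g x s g' x' s', ∀ u ∈ ts g x s, ∀ u' ∈ ts g' x' s', Q g x s u = Q g' x' s' u' →
    g = g' ∧ x = x' ∧ s = s' ∧ u = u') →
  ∃ P : Cd → Vc R × Vc M, (∀ c c', Vd X G ts c → Vd X G ts c' → P c = P c' → c = c') ∧
    ∀ c c', Rel X G ts ze c c' → Ust (P c) (P c')

/-- the prefix closed sets of strings of length at most `L` -/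
noncomputable def pcs (L : ℕ) : Finset (Finset (List Bool)) :=
  (strs L).powerset.filter fun A => Bd.PrefClosed A

/-- The types: tag, parity, both shapes, crossing. -/
abbrev WL (L : ℕ) : Type := (Tag × Fin 2) × (({A : Finset (List Bool) // A ∈ pcs L} ×
  {A : Finset (List Bool) // A ∈ pcs L}) × {z : List Bool // z ∈ strs L})

/-- the shapes of a type -/
def tw {L : ℕ} (w : WL L) (s : Bool) : Finset (List Bool) := if s then w.2.1.2.1 else w.2.1.1.1

/-- The piece with the tag of `w` at `x` has the type `w`. -/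
def Hty {L : ℕ} (ts : Tag → List Bool → Bool → Finset (List Bool)) (ze : List Bool → List Bool)
    (w : WL L) (x : List Bool) : Prop :=
  x.length % 2 = w.1.2.1 ∧ (∀ s, ts w.1.1 x s = tw w s) ∧
    w.2.2.1 = if (ts w.1.1 x true).Nonempty then ze x else []

/-- The places of the pieces of type `w`. -/
noncomputable def KL {L : ℕ} (X : Finset (List Bool))
    (ts : Tag → List Bool → Bool → Finset (List Bool)) (ze : List Bool → List Bool) (w : WL L) :
    Finset (List Bool) :=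
  X.filter fun x => Hty ts ze w x ∧ ∃ s, (ts w.1.1 x s).Nonempty

/-- the parity data of the types -/
def dwL {L : ℕ} (c0 : ZMod 2) (w : WL L) : ZMod 2 := c0 + (w.1.2.1 : ZMod 2) + 1 + kp w.1.1

/-- [TyL] (EASY-MEDIUM) the type of a piece. (h : StShp) Proof. (1) `w = ((g, x.length % 2),
((ts g x false, ts g x true), if (ts g x true).Nonempty then ze x else []))`: the sets are in `pcs L` by
`Sys`, the last string is in `strs L`: `ze x ∈ ts g x true ⊆ strs L`, or `[]` has length `0 ≤ L` (`StShp`).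
`x ∈ X` by `Sys.rX`. (2) `Prod.ext`, `Subtype.ext`. -/
def StTyL : Prop := ∀ (M L : ℕ) (X G : Finset (List Bool))
  (ts : Tag → List Bool → Bool → Finset (List Bool)) (ze : List Bool → List Bool),
  Sys M L X G ts ze →
  (∀ g x, (∃ s, (ts g x s).Nonempty) → ∃ w : WL L, w.1.1 = g ∧ x ∈ KL X ts ze w) ∧
  ∀ (w w' : WL L) x, x ∈ KL X ts ze w → x ∈ KL X ts ze w' → w.1.1 = w'.1.1 → w = w'

/-- [ItmL] (EASY-MEDIUM) the number of pieces. (h : StTyL) Proof. For each of the 6 tags `g` the sets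
`KL w`, `w.1.1 = g`, are disjoint by (2) of `StTyL` and contained in `X`. (`Finset.card_biUnion`,
`Fintype.card Tag = 6` by `decide` or `rfl`; sum over `w` split by the fibres of `w ↦ w.1.1`,
`Finset.sum_fiberwise`.) -/
def StItmL : Prop := ∀ (M L : ℕ) (X G : Finset (List Bool))
  (ts : Tag → List Bool → Bool → Finset (List Bool)) (ze : List Bool → List Bool),
  Sys M L X G ts ze → ∑ w : WL L, (KL X ts ze w).card ≤ 6 * X.card

/-- [CnwL] (EASY-MEDIUM) the vertices of the pieces, counted by types. (h : StTyL) Proof. For `x ∈ KL w`,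
`g = w.1.1`: `Nw2 tw (dwL c0) w c` is the sum over `s` of the numbers of `u ∈ ts g x s` with
`(u.length : ZMod 2) + sd s = dwL c0 w + c`, i.e. `x.length + 1 + kp g + sd s + u.length = c0 + c` in `ZMod 2`
(`(x.length : ZMod 2) = (x.length % 2 : ℕ)`; in `ZMod 2` `a = -a`). So the left side is the sum over the
pairs `(w, x)`, `x ∈ KL w`, of the inner sum of the right side for `(w.1.1, x)`; the map
`(w, x) ↦ (w.1.1, x)` is injective on these pairs by (2) of `StTyL`. -/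
def StCnwL : Prop := ∀ (M L : ℕ) (X G : Finset (List Bool))
  (ts : Tag → List Bool → Bool → Finset (List Bool)) (ze : List Bool → List Bool) (c0 c : ZMod 2),
  Sys M L X G ts ze →
  ∑ w : WL L, (KL X ts ze w).card * Nw2 tw (dwL c0) w c ≤
    ∑ g : Tag, ∑ x ∈ X, ∑ s : Bool, ((ts g x s).filter fun u =>
      (x.length : ZMod 2) + 1 + kp g + sd s + (u.length : ZMod 2) = c0 + c).card

/-- [GluL] (MEDIUM) the gluing: core, bridge and tiles give the map. (h1 : StTile2) (h2 : StBrg)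
(h3 : StMapL) (h4 : StOfs) (h5 : StTyL) (h6 : StPtC) Adaptation of `Sh/Q_Glu.lean`. Proof. `W = WL L`,
`K w = KL X ts ze w ⊆ X`, shapes `tw`, crossing `w.2.2.1`, `φ = m0`, `η w = ofs (.e 0) w.1.2`,
`dw = dwL c0`, `c0 = par (Φ []) + par (lm [])`, `m1 = m0 + 2`. Every `s` is a value of `sy`. `StTile2`
gives `Sg`, `Cx`, `F`, `StBrg` gives `p`, `ξ`. For a piece `(g, x)` let `w` be its type (`StTyL`),
`l = pd M (lm x) + ofs g x.length`, `Q g x s u = (p w x + (F (ξ w x) (par (p w x)) l s u).1, (F ..).2)`. The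
parity condition: `par l = par (lm x) + kp g`, `par (p w x) = par (Φ x) + 1`, `StPtC`. The hypotheses of
`StMapL` as in `Q_Glu.lean`; the one on `[] ∈ ts g x true`: `F .. true [] = (0, l + η)`, `g = .c a` by `Sys.one`,
`ofs (.c a) = 0`; crossing: `Sys.one`, then `w.2.2.1 = ze x`. -/
def StGluL : Prop := ∀ (R M m0 J L k N1 : ℕ) (X G : Finset (List Bool))
  (ts : Tag → List Bool → Bool → Finset (List Bool)) (ze : List Bool → List Bool)
  (Φ : List Bool → Vc R) (lm : List Bool → Vc m0) (b : WL L → ℕ) (sy : Fin R → Vc (k + 1))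
  (lam : WL L → ℝ) (ρ : ℝ), m0 + 4 + J = M → 2 ≤ J → Sys M L X G ts ze → 0 < N1 →
  (∀ s : Vc (k + 1), s ≠ 0 → (Finset.univ.filter fun i => sy i = s).card = N1) →
  (∃ i, sy i = 0) →
  (∀ y e, y ++ [e] ∈ X → Ad (Φ y, lm y) (Φ (y ++ [e]), lm (y ++ [e]))) →
  (∀ u ∈ X, ∀ v ∈ X, Φ u = Φ v → lm u = lm v → u = v) →
  (∀ w, 0 < lam w) → 0 ≤ ρ →
  (∀ w s x, s ≠ 0 → (ct1 sy Φ (KL X ts ze w) s x : ℝ) ≤ lam w * N1) →
  (∀ s x, s ≠ 0 → (ct1 sy Φ X s x : ℝ) ≤ ρ * N1) →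
  Fits2 (k + 1) M J b tw (dwL (par (Φ []) + par (lm []))) →
  (∀ w, lam w * 2 ^ (k + 1) + 1 + ((b w * (2 ^ M * J) : ℕ) : ℝ) * 2 ^ (2 * M + 2) * ρ ≤
    ((b w * (2 ^ M * J) : ℕ) : ℝ)) →
  ∃ P : Cd → Vc R × Vc M, (∀ c c', Vd X G ts c → Vd X G ts c' → P c = P c' → c = c') ∧
    ∀ c c', Rel X G ts ze c c' → Ust (P c) (P c')

/-- [NumD] (EASY) the contracted tree is sparse. Proof. Choose `h` with `2 M + 3 ≤ h` and
`2 ^ M / (2 h + 5) ≤ ε / 8`, then `S ≥ 1` with `2 ^ (2 h + 6) 2 ^ M / S ≤ ε / 8`, then `R1` with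
`2 ^ (2 h + 6) / 2 ^ R1 ≤ ε / 8`. `V / 2 ^ R ≤ 2 ^ M`, so `x / 2 ^ R ≤ 3 ε / 8`. -/
def StNumD : Prop := ∀ (M : ℕ) (ε : ℝ), 0 < ε → ∃ h S R1 : ℕ, 2 * M + 3 ≤ h ∧ 1 ≤ S ∧
  ∀ (n R : ℕ) (x V : ℝ), n + 1 = R + M → R1 ≤ R → 0 ≤ V → V ≤ 2 ^ (n + 1) →
  x ≤ V / (2 * h + 5) + 2 ^ (2 * h + 6) * (V / S + 1) → 2 * (x / 2 ^ R) ≤ ε

/-- THEOREM D for prefix closed sets: both bipartition classes have at most `(1 - δ) 2 ^ n` vertices. -/
def StPreD : Prop := ∀ δ : ℝ, 0 < δ → ∃ n0 : ℕ, ∀ n : ℕ, n0 ≤ n →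
  ∀ T : Finset (List Bool), Bd.PrefClosed T →
  (∀ d : ZMod 2, ((T.filter fun v => (v.length : ZMod 2) = d).card : ℝ) ≤ (1 - δ) * 2 ^ n) →
  ∃ c : List Bool → Fin (n + 1) → Bool, (∀ u ∈ T, ∀ v ∈ T, c u = c v → u = v) ∧
    ∀ v e, v ++ [e] ∈ T → hammingDist (c v) (c (v ++ [e])) = 1

/-- [PreD] (MEDIUM) `theorem pr_PreD (h1 : StGluL) (h2 : StCoZD) (h3 : StNmsD) (h4 : StItmL)
(h5 : StCnwL) (h6 : StTrM) (h7 : StCb2) (h8 : StNumD) : StPreD` (`StCoZD`, `StNmsD` in Sh/StmtsD.lean of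
helper38). Adaptation of `Sh/Q_PreQ.lean`. Proof. `δ ≤ 1`, otherwise `T` is empty (any `c`; also for empty
`T` below). `J` with `100 ≤ δ * J`, `m0` from `StCoZD` for `η = δ / 8`, `M = m0 + 4 + J`, `ε` from `StNmsD`;
put `ε' = min ε (1 / 2 ^ M)`; `h, S, R1` from `StNumD` for `ε'`, `L` from `StTrM`, `W = WL L`, shapes `tw`;
`k, τ` from `StNmsD`; `R0` from `StCoZD` for `k + 1, W, τ`; `n0 = M + R0 + R1`. Given `n ≥ n0`, `T`;
`R = n + 1 - M`. `StTrM` gives `X, G, ts, ze, code`. `T.card ≤ 2 * 2 ^ n` (the classes of even and odd length).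
`y = 2 * (|X| / 2 ^ R) ≤ ε'`, in particular `|X| ≤ 2 ^ R`. `StCoZD` with `K w = KL X ts ze w ⊆ X`.
`c0 = par (Φ []) + par (lm [])`, `x w = |K w| / 2 ^ R`, `∑ x w ≤ 6 |X| / 2 ^ R = 3 y ≤ 4 y` (`StItmL`). For
`c : ZMod 2`: `∑ |K w| Nw2 ≤ |{v ∈ T, |v| = c0 + c}| ≤ (1 - δ) 2 ^ n` by `StCnwL`, `StTrM`; divide by `2 ^ R`,
`2 ^ n / 2 ^ R = 2 ^ (M - 1)`. `StNmsD` (with `dw = dwL c0`) gives `b`. The bound of `StCoZD` for `X` has
`|X| / 2 ^ R ≤ y`. `StGluL` with `lam w = (1 + δ / 8) * max (x w) τ`, `ρ = (1 + δ / 8) * max y τ` gives `P`; the map is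
`v ↦ q (P (code v))` with `q` from `StCb2`; it is injective on `T`, and `Rel` in one of the two
directions gives the Hamming distance `1` (`hammingDist_comm`). -/
def StPreDQ : Prop := StPreD

/-- The theorem for prefix closed sets, at most `2 ^ n` vertices. -/
def StPre : Prop := ∃ n0 : ℕ, ∀ n : ℕ, n0 ≤ n → ∀ T : Finset (List Bool), Bd.PrefClosed T →
  T.card ≤ 2 ^ n → ∃ c : List Bool → Fin (n + 1) → Bool,
    (∀ u ∈ T, ∀ v ∈ T, c u = c v → u = v) ∧
    ∀ v e, v ++ [e] ∈ T → hammingDist (c v) (c (v ++ [e])) = 1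

/-- [Pr] (EASY) `theorem pr_Pr (h1 : StPreD) (h2 : StPrt) : StPre`. Proof. `StPreD` for `δ = 1 / 4`:
`StPrt` gives `3 * (class) ≤ 2 * 2 ^ n + 1 ≤ 9 / 4 * 2 ^ n` for `n ≥ 2`. -/
def StPrQ : Prop := StPre

end Pool.Agent.Work.MP_bf01b2_co.La
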